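import Pool.Agent.J4H44.MF.Defs2
import Pool.Agent.J4H44.PM.A5

/-!
# Operators given by functions on the eigenvalues
-/

set_option autoImplicit false

namespace Pool.Agent.J4H44.MF

open Module Module.End Pool.Agent.N184.HK Pool.Agent.J4H44.PM
open scoped Classical

section

variable {K V : Type} [Field K] [IsAlgClosed K] [AddCommGroup V] [Module K V]
  [FiniteDimensional K V]

lemma acts_fop (T : Module.End K V) (w : K → K) : Acts T (fop T w) w := fun _ _ hx =>
  fop_apply w hx

lemma Acts.eq {T S : Module.End K V} {w : K → K} (h : Acts T S w) : fop T w = S :=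
  ext_gen T fun e x hx => by rw [fop_apply w hx, h e x hx]

end

section

variable {K J : Type} [Field K] [IsAlgClosed K] {d : J → ℕ} {c : J → ℚ}
  {X : ∀ j, Cohomology K (d j) (c j)}

lemma HasLog.fop {l : K → K} {F : ∀ j, (X j).Auto} {A : EndTwo X} (h : HasLog l F A) (j : J) :
    fop (en ((F j).φ 2)) l = A j := (h j).eq

/-- The centred weight operators of the `F j` on the `H² (X j)`. -/
noncomputable def weightOp [CharZero K] (F : ∀ j, (X j).Auto) (W : Wt K) : EndTwo X :=
  fun j => (F j).S2 W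

omit [IsAlgClosed K] in
/-- The conjugate of `A` by the automorphisms `F j` of the cohomology. -/
noncomputable def conj (F : ∀ j, (X j).Auto) (A : EndTwo X) : EndTwo X :=
  fun j => adE ((F j).φ 2) (A j)

/-- `W` as a `RatChar`. -/
def toRC (W : Wt K) : RatChar K where
  U := W.U
  ne := W.ne
  mul := W.mul
  inv := W.inv
  w := W.w
  w_mul := W.w_mul

lemma isWeightOp [CharZero K] {F : ∀ j, (X j).Auto} {W : Wt K}
    (h : ∀ j, ∀ e ∈ (en ((F j).φ 2)).charpoly.roots, W.U e) :
    IsWeightOp F (toRC W) (weightOp F W) where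
  mem j e he := h j e (by
    have h1 : (en ((F j).φ 2)).HasEigenvalue e := he
    rw [Module.End.hasEigenvalue_iff_isRoot_charpoly] at h1
    exact (Polynomial.mem_roots (LinearMap.charpoly_monic _).ne_zero).2 h1)
  acts j := by
    intro e x hx
    change (fop (en ((F j).φ 2)) W.k - ((W.w (F j).μ / 2 : ℚ) : K) • 1) x = _
    have hx' : x ∈ (en ((F j).φ 2)).maxGenEigenspace e := hx
    rw [LinearMap.sub_apply, fop_apply _ hx', LinearMap.smul_apply, Module.End.one_apply,
      ← sub_smul, Wt.k, ← Rat.cast_sub]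
    rfl

end

namespace HKMotive

variable {Ω : Type} [Field Ω] [TopologicalSpace Ω] [CharZero Ω] [IsAlgClosed Ω] {M : HKMotive Ω}

lemma MumfordTateTwo.torus' (L : M.MumfordTateTwo) (σ : M.Γ) (W : Wt Ω)
    (h : ∀ j, ∀ e ∈ (en ((M.E.F σ j).φ 2)).charpoly.roots, W.U e) :
    weightOp (M.E.F σ) W ∈ M.mtΩ :=
  L.torus σ (toRC W) _ (isWeightOp h)

end HKMotive

section

variable {p : ℕ} {P : Place p} {d : ℕ} {c : ℚ}

lemma WeaklyAdmissible.old {D : Cohomology P.C d c} {F : D.Auto}
    {Θ : Module.End P.C (D.H 2)} {i : ℕ} (h : WeaklyAdmissible P F Θ i) :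
    PM.WeaklyAdmissible F P.val Θ i := by
  intro z hz hzF hzA
  obtain ⟨x, hx, hx1, h1⟩ := h (fop (en (F.φ i)) (PM.slope P.val)) z (acts_fop _ _)
    ⟨hz, hzF, fun A hA => (hzA A hA).symm⟩
  exact ⟨x, hx, h1, hx1⟩

end

section fam

variable {Ω J : Type} [Field Ω] {d : J → ℕ} {c : J → ℚ} {X : ∀ j, Cohomology Ω (d j) (c j)}
  {F : ∀ j, (X j).Auto} {p : ℕ}

/-- The data for `X j`. -/
@[reducible] def GoodFrobenius.at (g : MF.GoodFrobenius F p) (j : J) :
    PM.GoodFrobenius (F j) p where
  prime := g.prime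
  mult := g.mult j
  poly := g.poly j
  frobPoly := g.frobPoly j
  weilPoly := g.weilPoly j
  crys :=
    { C := g.place.C
      D := (g.crys j).D
      F := (g.crys j).F
      val := g.place.val
      norm := g.place.norm
      J := (g.crys j).Θ
      skew := (g.crys j).skew
      adm := fun i hi => ((g.crys j).adm i hi).old }
  crysPoly := g.crysPoly j

variable [TopologicalSpace Ω] [IsTopologicalRing Ω]

/-- The family `X j`. -/
@[reducible] def Family.fam (E : Family Ω) (j : E.J) : HKFamily Ω where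
  d := E.d j
  two_le := E.two_le j
  c := E.c j
  X := E.X j
  Γ := E.Γ
  F σ := E.F σ j
  mul σ τ i := E.mul σ τ j i
  cont i := E.cont j i
  cont_μ := by
    have h1 : (fun σ => (E.F σ j).μ) = fun σ => ((E.chi σ : Ωˣ) : Ω) ^ 2 :=
      funext fun σ => E.chi_sq σ j
    rw [h1]
    exact (Units.continuous_val.comp E.chi_cont).pow 2
  dense O hO hne := by
    obtain ⟨σ, hσ, p, ⟨g⟩⟩ := E.dense O hO hne
    exact ⟨σ, hσ, p, ⟨g.at j⟩⟩

end fam

end Pool.Agent.J4H44.MF
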