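import Pool.Agent.J4H44.MF.Defs
import Pool.Agent.J4H44.PM.A4

/-!
# Spaces of homomorphisms
-/

set_option autoImplicit false

namespace Pool.Agent.J4H44.MF

open Module Module.End Pool.Agent.N184.HK Pool.Agent.J4H44.PM
open scoped Classical

section dr

variable {K V W : Type} [Field K] [AddCommGroup V] [Module K V] [AddCommGroup W] [Module K W]

lemma dr_apply (a : Module.End K V) (b : Module.End K W) (f : V →ₗ[K] W) :
    dr a b f = b ∘ₗ f - f ∘ₗ a := rfl

lemma dr_add (a a' : Module.End K V) (b b' : Module.End K W) :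
    dr (a + a') (b + b') = dr a b + dr a' b' := by
  ext f x
  simp only [dr_apply, LinearMap.add_apply, LinearMap.sub_apply, LinearMap.comp_apply, map_add]
  abel

lemma dr_smul (c : K) (a : Module.End K V) (b : Module.End K W) :
    dr (c • a) (c • b) = c • dr a b := by
  ext f x
  simp only [dr_apply, LinearMap.smul_apply, LinearMap.sub_apply, LinearMap.comp_apply, map_smul,
    smul_sub]

lemma dr_scalar (c c' : K) :
    dr (c • (1 : Module.End K V)) (c' • (1 : Module.End K W)) = (c' - c) • 1 := by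
  ext f x
  simp only [dr_apply, LinearMap.smul_apply, LinearMap.sub_apply, LinearMap.comp_apply, map_smul,
    Module.End.one_apply, sub_smul]

lemma dr_comm {a a' : Module.End K V} {b b' : Module.End K W} (h : Commute a a')
    (h' : Commute b b') : Commute (dr a b) (dr a' b') := by
  have h1 : ∀ x, a (a' x) = a' (a x) := fun x => congrArg (fun f : Module.End K V => f x) h.eq
  have h2 : ∀ x, b (b' x) = b' (b x) := fun x => congrArg (fun f : Module.End K W => f x) h'.eq
  change dr a b * dr a' b' = dr a' b' * dr a b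
  ext f x
  simp only [Module.End.mul_apply, dr_apply, LinearMap.sub_apply, LinearMap.comp_apply, map_sub, h1,
    h2]
  abel

lemma dr_bracket (a a' : Module.End K V) (b b' : Module.End K W) :
    dr a b * dr a' b' - dr a' b' * dr a b = dr (a * a' - a' * a) (b * b' - b' * b) := by
  ext f x
  simp only [Module.End.mul_apply, dr_apply, LinearMap.sub_apply, LinearMap.comp_apply, map_sub]
  abel

lemma dr_nil {a : Module.End K V} {b : Module.End K W} (ha : IsNilpotent a) (hb : IsNilpotent b) :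
    IsNilpotent (dr a b) := by
  have h1 : dr a b = dr 0 b + dr a 0 := by rw [← dr_add, zero_add, add_zero]
  rw [h1]
  refine Commute.isNilpotent_add (dr_comm (Commute.zero_left a) (Commute.zero_right b)) ?_ ?_
  · obtain ⟨m, hm⟩ := hb
    refine ⟨m, ?_⟩
    have h2 : ∀ (m : ℕ) (f : V →ₗ[K] W), ((dr (0 : Module.End K V) b) ^ m) f = (b ^ m) ∘ₗ f := by
      intro m
      induction m with
      | zero => intro f; rfl
      | succ m ih =>
        intro f
        rw [_root_.pow_succ', Module.End.mul_apply, ih, dr_apply, _root_.pow_succ']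
        ext x
        simp
    ext f x
    rw [h2, hm]
    simp
  · obtain ⟨m, hm⟩ := ha
    refine ⟨m, ?_⟩
    have h2 : ∀ (m : ℕ) (f : V →ₗ[K] W), ((dr a (0 : Module.End K W)) ^ m) f =
        (-1 : K) ^ m • (f ∘ₗ (a ^ m)) := by
      intro m
      induction m with
      | zero => intro f; ext x; simp
      | succ m ih =>
        intro f
        rw [_root_.pow_succ', Module.End.mul_apply, ih, dr_apply, _root_.pow_succ (-1 : K),
          _root_.pow_succ a]
        ext x
        simp
    ext f x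
    rw [h2, hm]
    simp

end dr

section cj

variable {K V W : Type} [Field K] [AddCommGroup V] [Module K V] [AddCommGroup W] [Module K W]

lemma cj_apply (φ : V ≃ₗ[K] V) (ψ : W ≃ₗ[K] W) (f : V →ₗ[K] W) (x : V) :
    cj φ ψ f x = ψ (f (φ.symm x)) := rfl

lemma cj_apply' (φ : V ≃ₗ[K] V) (ψ : W ≃ₗ[K] W) (f : V →ₗ[K] W) (x : V) :
    cj φ ψ f (φ x) = ψ (f x) := by
  rw [cj_apply, LinearEquiv.symm_apply_apply]

lemma cj_dr (φ : V ≃ₗ[K] V) (ψ : W ≃ₗ[K] W) (a : Module.End K V) (b : Module.End K W)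
    (f : V →ₗ[K] W) : cj φ ψ (dr a b f) = dr (adE φ a) (adE ψ b) (cj φ ψ f) := by
  ext x
  simp [dr_apply, adE, LinearEquiv.conj_apply, cj]

lemma hconj_gen_aux {φ : V ≃ₗ[K] V} {ψ : W ≃ₗ[K] W} {t e : K} (n : ℕ) :
    ∀ (k m : ℕ) (B : V →ₗ[K] W) (x : V),
    k + m ≤ n → ((en (cj φ ψ) - t • 1) ^ k) B = 0 → (((en φ) - e • 1) ^ m) x = 0 →
    (((en ψ) - (t * e) • 1) ^ n) (B x) = 0 := by
  induction n with
  | zero =>
    intro k m B x hkm hB hx
    have hk : k = 0 := by omega
    subst hk
    change B = 0 at hB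
    rw [hB]; simp
  | succ n ih =>
    intro k m B x hkm hB hx
    rcases k with _ | k
    · change B = 0 at hB
      rw [hB]; simp
    rcases m with _ | m
    · change x = 0 at hx
      rw [hx]; simp
    rw [_root_.pow_succ, Module.End.mul_apply]
    have h1 : ((en ψ) - (t * e) • 1) (B x) =
        ((en (cj φ ψ) - t • 1) B) (φ x) + t • B (((en φ) - e • 1) x) := by
      have h2 : ((en (cj φ ψ) - t • 1) B) (φ x) = ψ (B x) - t • B (φ x) := by
        have := cj_apply' φ ψ B x
        change (cj φ ψ B - t • B) (φ x) = _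
        rw [LinearMap.sub_apply, this]; rfl
      have h3 : ((en φ) - e • 1) x = φ x - e • x := rfl
      have h4 : ((en ψ) - (t * e) • 1) (B x) = ψ (B x) - (t * e) • B x := rfl
      rw [h2, h3, h4, map_sub, map_smul, smul_sub, smul_smul]
      abel
    rw [h1, map_add, map_smul]
    have h5 := ih k (m + 1) ((en (cj φ ψ) - t • 1) B) (φ x) (by omega)
      (by rw [← Module.End.mul_apply, ← _root_.pow_succ]; exact hB)
      (by
        have hc : Commute (((en φ) - e • 1) ^ (m + 1)) (en φ) := by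
          refine Commute.pow_left ?_ _
          exact (Commute.refl (en φ)).sub_left ((Commute.one_left _).smul_left e)
        have := congrArg (fun f : Module.End K V => f x) hc.eq
        change (((en φ) - e • 1) ^ (m + 1)) (φ x) = φ ((((en φ) - e • 1) ^ (m + 1)) x) at this
        rw [this, hx, map_zero])
    have h6 := ih (k + 1) m B (((en φ) - e • 1) x) (by omega) hB
      (by rw [← Module.End.mul_apply, ← _root_.pow_succ]; exact hx)
    rw [h5, h6, smul_zero, add_zero]

lemma hconj_gen {φ : V ≃ₗ[K] V} {ψ : W ≃ₗ[K] W} {t e : K} {B : V →ₗ[K] W}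
    (hB : B ∈ (en (cj φ ψ)).maxGenEigenspace t) {x : V}
    (hx : x ∈ (en φ).maxGenEigenspace e) :
    B x ∈ (en ψ).maxGenEigenspace (t * e) := by
  rw [Module.End.mem_maxGenEigenspace] at hB hx ⊢
  obtain ⟨k, hk⟩ := hB
  obtain ⟨m, hm⟩ := hx
  exact ⟨k + m, hconj_gen_aux (k + m) k m B x le_rfl hk hm⟩

variable [IsAlgClosed K] [FiniteDimensional K V] [FiniteDimensional K W]

/-- The eigenvalues of a conjugation are quotients of eigenvalues. -/
lemma hroot {φ : V ≃ₗ[K] V} {ψ : W ≃ₗ[K] W} {t : K} (ht : t ∈ (en (cj φ ψ)).charpoly.roots) :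
    ∃ e ∈ (en φ).charpoly.roots, ∃ e' ∈ (en ψ).charpoly.roots, t * e = e' := by
  have h1 := ne_bot_iff.2 ht
  obtain ⟨B, hB, hB0⟩ := (Submodule.ne_bot_iff _).1 h1
  have hex : ∃ e, ∃ x ∈ (en φ).maxGenEigenspace e, B x ≠ 0 := by
    by_contra hcon
    push Not at hcon
    exact hB0 (ext_gen (en φ) fun e x hx => by
      rw [hcon e x hx, LinearMap.zero_apply])
  obtain ⟨e, x, hx, hBx⟩ := hex
  have h2 := hconj_gen hB hx
  have hx0 : x ≠ 0 := fun h => hBx (by rw [h, map_zero])
  exact ⟨e, ne_bot_iff.1 fun h => hx0 (by rw [h, Submodule.mem_bot] at hx; exact hx), t * e,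
    ne_bot_iff.1 fun h => hBx (by rw [h, Submodule.mem_bot] at h2; exact h2), rfl⟩

lemma fop_hom [CharZero K] {φ : V ≃ₗ[K] V} {ψ : W ≃ₗ[K] W} (U : Wt K)
    (hφ : ∀ e ∈ (en φ).charpoly.roots, U.U e) (hψ : ∀ e ∈ (en ψ).charpoly.roots, U.U e) :
    fop (en (cj φ ψ)) U.k = dr (fop (en φ) U.k) (fop (en ψ) U.k) := by
  refine ext_gen (en (cj φ ψ)) fun t B hB => ?_
  rw [fop_apply _ hB, dr_apply]
  refine ext_gen (en φ) fun e x hx => ?_
  have h1 := hconj_gen hB hx
  rw [LinearMap.sub_apply, LinearMap.comp_apply, LinearMap.comp_apply, fop_apply _ h1,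
    fop_apply _ hx, LinearMap.smul_apply, map_smul, ← sub_smul]
  by_cases hB0 : B x = 0
  · rw [hB0, smul_zero, smul_zero]
  have hx0 : x ≠ 0 := fun h => hB0 (by rw [h, map_zero])
  have he : e ∈ (en φ).charpoly.roots := ne_bot_iff.1 fun h => hx0 (by
    rw [h, Submodule.mem_bot] at hx; exact hx)
  have hte : t * e ∈ (en ψ).charpoly.roots := ne_bot_iff.1 fun h => hB0 (by
    rw [h, Submodule.mem_bot] at h1; exact h1)
  have hUt : U.U t := by
    have := U.mul _ _ (hψ _ hte) (U.inv _ (hφ _ he))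
    rwa [mul_assoc, mul_inv_cancel₀ (root_ne he), mul_one] at this
  congr 1
  rw [Wt.k, Wt.k, Wt.k, U.w_mul _ _ hUt (hφ _ he), Rat.cast_add]
  ring

lemma U_hom {φ : V ≃ₗ[K] V} {ψ : W ≃ₗ[K] W} (U : Wt K)
    (hφ : ∀ e ∈ (en φ).charpoly.roots, U.U e) (hψ : ∀ e ∈ (en ψ).charpoly.roots, U.U e) :
    ∀ e ∈ (en (cj φ ψ)).charpoly.roots, U.U e := by
  intro t ht
  obtain ⟨e, he, e', he', h⟩ := hroot ht
  have := U.mul _ _ (hψ _ he') (U.inv _ (hφ _ he))
  rwa [← h, mul_assoc, mul_inv_cancel₀ (root_ne he), mul_one] at this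

end cj

end Pool.Agent.J4H44.MF
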