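import Pool.Agent.J4H44.MF.B9

/-!
# Semisimplicity
-/

set_option autoImplicit false

namespace Pool.Agent.J4H44.MF

open Module Module.End Pool.Agent.N184.HK Pool.Agent.J4H44.PM
open scoped Classical

section fop

variable {K H : Type} [Field K] [IsAlgClosed K] [AddCommGroup H] [Module K H]
  [FiniteDimensional K H]

lemma fop_mem {φ : Module.End K H} {V : Submodule K H} (h : ∀ x ∈ V, φ x ∈ V) (w : K → K)
    {x : H} (hx : x ∈ V) : fop φ w x ∈ V := by
  have h1 := P_DETP.fop_coe (φ := φ) (p := V) (φ.restrict h) (fun _ => rfl) w ⟨x, hx⟩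
  rw [show fop φ w x = fop φ w ((⟨x, hx⟩ : V) : H) from rfl, h1]
  exact Submodule.coe_mem _

end fop

namespace HKMotive

variable {Ω : Type} [Field Ω] [CharZero Ω] [IsAlgClosed Ω] [TopologicalSpace Ω] {M : HKMotive Ω}
  (L : M.MumfordTateTwo) [IsTopologicalRing Ω] [T2Space Ω]

/-- The action of a semisimple element of the Lie algebra of the Mumford-Tate group on the
constructions is the logarithm of an element of the Galois group. -/
lemma lie_fop {C : M.Con} (hC : M.Below C) {A : MatTwo M.n}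
    (hA : A ∈ M.ssMt) {γ : M.Γ} {N : ℕ}
    (hγ : HasLog L.lg (M.E.F γ) ((N : Ω) • M.toΩ A)) :
    ∃ Fs : Finset (Basis.ofVectorSpaceIndex ℚ Ω), (N : Ω) • C.lie (M.toΩ A) =
      ∑ k ∈ Fs, qb Ω k • fop (en (M.act C γ)) (L.WL k).k := by
  have hlog := log_eq L hA hγ
  have hW1 : ∀ k : Basis.ofVectorSpaceIndex ℚ Ω, (L.WL k).U 1 := fun k => one_ne_zero
  have hWr : ∀ k, ∀ j, ∀ i ≤ M.E.d j, ∀ e ∈ (en ((M.E.F γ j).φ i)).charpoly.roots,
      (L.WL k).U e := fun k j i _ e he => root_ne he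
  haveI := Fintype.ofFinite M.E.J
  set Fs : Finset (Basis.ofVectorSpaceIndex ℚ Ω) := Finset.univ.biUnion fun j : M.E.J =>
    (Finset.range (M.E.d j + 1)).biUnion fun i =>
    (en ((M.E.F γ j).φ i)).charpoly.roots.toFinset.biUnion fun e =>
      ((qb Ω).repr (L.lg e)).support with hFs
  have h2 : ∀ j, ∀ i ≤ M.E.d j, (∑ k ∈ Fs, qb Ω k • fop (en ((M.E.F γ j).φ i)) (L.WL k).k) =
      (N : Ω) • (M.E.X j).ρ i (M.toΩ A j) := by
    intro j i hi'
    rw [← (hlog j).2 i hi', lg_fop L _ Fs fun e he => ?_]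
    refine Finset.Subset.trans ?_ (Finset.subset_biUnion_of_mem (fun j : M.E.J =>
      (Finset.range (M.E.d j + 1)).biUnion fun i =>
      (en ((M.E.F γ j).φ i)).charpoly.roots.toFinset.biUnion fun e =>
        ((qb Ω).repr (L.lg e)).support)
      (Finset.mem_univ j))
    refine Finset.Subset.trans ?_ (Finset.subset_biUnion_of_mem (fun i =>
      (en ((M.E.F γ j).φ i)).charpoly.roots.toFinset.biUnion fun e =>
        ((qb Ω).repr (L.lg e)).support)
      (Finset.mem_range.2 (Nat.lt_succ_of_le hi')))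
    exact Finset.subset_biUnion_of_mem (fun e => ((qb Ω).repr (L.lg e)).support)
      (Multiset.mem_toFinset.2 he)
  refine ⟨Fs, ?_⟩
  have h3 : C.der (V := coh M.E.X)
      (fun j i => ∑ k ∈ Fs, qb Ω k • fop (en ((M.E.F γ j).φ i)) (L.WL k).k) =
      ∑ k ∈ Fs, qb Ω k • C.der (V := coh M.E.X)
        (fun j i => fop (en ((M.E.F γ j).φ i)) (L.WL k).k) := by
    clear h2
    clear_value Fs
    clear hFs
    induction Fs using Finset.induction_on with
    | empty =>
      simp only [Finset.sum_empty]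
      have := Con.der_smul (V := coh M.E.X) (0 : Ω)
        (fun j i => (0 : Module.End Ω ((M.E.X j).H i))) C
      simpa using this
    | insert k s hk ih =>
      simp only [Finset.sum_insert hk]
      have e1 := Con.der_add (V := coh M.E.X)
        (fun j i => qb Ω k • fop (en ((M.E.F γ j).φ i)) (L.WL k).k)
        (fun j i => ∑ k ∈ s, qb Ω k • fop (en ((M.E.F γ j).φ i)) (L.WL k).k) C
      have e2 := Con.der_smul (V := coh M.E.X) (qb Ω k)
        (fun j i => fop (en ((M.E.F γ j).φ i)) (L.WL k).k) C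
      rw [e1, e2, ih]
  have h5 := Con.der_congr (V := coh M.E.X) h2 C hC
  have h6 := Con.der_smul (V := coh M.E.X) (N : Ω) (fun j i => (M.E.X j).ρ i (M.toΩ A j)) C
  rw [h5, h6] at h3
  have h7 : (N : Ω) • C.lie (M.toΩ A) = (N : Ω) •
      C.der (V := coh M.E.X) (fun j i => (M.E.X j).ρ i (M.toΩ A j)) := rfl
  rw [h7, h3]
  refine Finset.sum_congr rfl fun k _ => ?_
  rw [← Con.fop_act (V := coh M.E.X) (hW1 k) (hWr k) C hC]

include L in
lemma stable_of_inv {C : M.Con} (hC : M.Below C) {U : OpenSubgroup M.Γ}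
    {V : Submodule Ω (M.vs C).V} (hV : M.Inv (U : Subgroup M.Γ) C V) :
    M.Stable C V := by
  intro A hA x hx
  obtain ⟨γ, hγU, N, hN, hγ⟩ := L.log A hA U
  obtain ⟨Fs, h1⟩ := lie_fop L hC hA hγ
  have h2 := congrArg (fun f : Module.End Ω (M.vs C).V => f x) h1
  simp only [LinearMap.smul_apply, LinearMap.sum_apply] at h2
  have h3 : (N : Ω) • C.lie (M.toΩ A) x ∈ V := by
    rw [h2]
    refine V.sum_mem fun k _ => V.smul_mem _ ?_
    exact fop_mem (φ := en (M.act C γ)) (fun y hy => hV γ hγU y hy) _ hx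
  exact (Submodule.smul_mem_iff _ (by exact_mod_cast hN.ne')).1 h3

end HKMotive

section average

variable {K H G : Type} [Field K] [CharZero K] [AddCommGroup H] [Module K H] [Group G]
  {φ : G → (H ≃ₗ[K] H)} (hmul : ∀ σ τ, φ (σ * τ) = (φ τ).trans (φ σ))

omit [CharZero K] in
lemma adE_app (ψ : H ≃ₗ[K] H) (f : Module.End K H) (x : H) : adE ψ f x = ψ (f (ψ.symm x)) := rfl

omit [CharZero K] in
include hmul in
lemma adE_comp (σ τ : G) (f : Module.End K H) : adE (φ (σ * τ)) f = adE (φ σ) (adE (φ τ) f) := by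
  rw [hmul]
  rfl

include hmul in
/-- Averaging: a projector which is fixed by a subgroup of finite index. -/
lemma average {U U' : Subgroup G} (hU' : U'.index ≠ 0) {V : Submodule K H}
    (hV : ∀ σ ∈ U, ∀ x ∈ V, φ σ x ∈ V) {π : Module.End K H} (hπ : ∀ x ∈ V, π x = x)
    (hπV : ∀ x, π x ∈ V) (hfix : ∀ σ ∈ U', adE (φ σ) π = π) :
    ∃ e : Module.End K H, (∀ x ∈ V, e x = x) ∧ (∀ x, e x ∈ V) ∧ ∀ σ ∈ U, adE (φ σ) e = e := by
  let c : U → Module.End K H := fun g => adE (φ (g : G)) π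
  let Hs : Subgroup U := U'.subgroupOf U
  have hfin : Finite (U ⧸ Hs) := by
    have h3 : Hs.index ≠ 0 := by
      change U'.relIndex U ≠ 0
      exact fun h => hU' (Subgroup.index_eq_zero_of_relIndex_eq_zero h)
    have : Hs.FiniteIndex := ⟨h3⟩
    exact Subgroup.finite_quotient_of_finiteIndex
  have := Fintype.ofFinite (U ⧸ Hs)
  let cq : U ⧸ Hs → Module.End K H := fun q => Quotient.liftOn' q c (by
    intro a b hab
    rw [QuotientGroup.leftRel_apply] at hab
    have h1 : (((a⁻¹ * b : U)) : G) ∈ U' := hab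
    have h2 : (b : G) = (a : G) * ((a⁻¹ * b : U) : G) := by
      rw [Subgroup.coe_mul, Subgroup.coe_inv, mul_inv_cancel_left]
    change adE (φ (a : G)) π = adE (φ (b : G)) π
    rw [h2, adE_comp hmul, hfix _ h1])
  have hcq : ∀ g : U, cq (QuotientGroup.mk g) = c g := fun g => rfl
  set P : Module.End K H := ∑ q, cq q with hP
  have hinv : ∀ σ ∈ U, adE (φ σ) P = P := by
    intro σ hσ
    rw [hP, map_sum]
    refine Fintype.sum_equiv (MulAction.toPerm (⟨σ, hσ⟩ : U)) _ _ fun q => ?_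
    induction q using QuotientGroup.induction_on with
    | H g =>
      rw [MulAction.toPerm_apply]
      change adE (φ σ) (cq (QuotientGroup.mk g)) =
        cq (QuotientGroup.mk ((⟨σ, hσ⟩ : U) * g))
      rw [hcq, hcq]
      exact (adE_comp hmul σ (g : G) π).symm
  have hV' : ∀ g : U, ∀ x ∈ V, (φ (g : G)).symm x ∈ V := by
    intro g x hx
    have h1 := hV _ (U.inv_mem g.2) x hx
    have h2 := P_OPEN.phi_inv hmul (g : G) x
    rw [h2]
    exact h1
  have hcV : ∀ q, ∀ x ∈ V, cq q x = x := by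
    intro q x hx
    induction q using QuotientGroup.induction_on with
    | H g =>
      rw [hcq]
      change adE (φ (g : G)) π x = x
      rw [adE_app, hπ _ (hV' g x hx), LinearEquiv.apply_symm_apply]
  have hcV' : ∀ q, ∀ x, cq q x ∈ V := by
    intro q x
    induction q using QuotientGroup.induction_on with
    | H g =>
      rw [hcq]
      change adE (φ (g : G)) π x ∈ V
      rw [adE_app]
      exact hV _ g.2 _ (hπV _)
  have hcard : (Fintype.card (U ⧸ Hs) : K) ≠ 0 := by
    exact_mod_cast Fintype.card_ne_zero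
  refine ⟨(Fintype.card (U ⧸ Hs) : K)⁻¹ • P, fun x hx => ?_, fun x => ?_, fun σ hσ => ?_⟩
  · rw [LinearMap.smul_apply, hP, LinearMap.sum_apply,
      Finset.sum_congr rfl fun q _ => hcV q x hx, Finset.sum_const, Finset.card_univ,
      ← Nat.cast_smul_eq_nsmul K, smul_smul, inv_mul_cancel₀ hcard, one_smul]
  · rw [LinearMap.smul_apply, hP, LinearMap.sum_apply]
    exact V.smul_mem _ (V.sum_mem fun q _ => hcV' q x)
  · rw [map_smul, hinv σ hσ]

end average

namespace HKMotive

variable {Ω : Type} [Field Ω] [CharZero Ω] [IsAlgClosed Ω] [TopologicalSpace Ω] {M : HKMotive Ω}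
  (L : M.MumfordTateTwo) [IsTopologicalRing Ω] [T2Space Ω]

omit [IsAlgClosed Ω] [IsTopologicalRing Ω] [T2Space Ω] in
lemma killed_hodge (hr : M.Reductive) {C : M.Con} (hC : M.Below C) {v : (M.vs C).V}
    (hv : ∀ A ∈ M.ssMt, C.lie (M.toΩ A) v = 0) :
    v ∈ M.hodge C := by
  have h1 := Con.rat_span M.rat C hC (𝒮 := M.ssMt) (v := v) hv
  refine Submodule.span_mono ?_ h1
  rintro _ ⟨t, ht, rfl⟩
  exact ⟨t, M.B.isHodge_of hC (M.B.theta_span hr.span) ht, rfl⟩

include L in
/-- **Semisimplicity.** -/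
theorem semisimple_open (N : M.Arithmetic) (hr : M.Reductive) (U : OpenSubgroup M.Γ) :
    M.Semisimple (U : Subgroup M.Γ) := by
  intro C hC V hV
  obtain ⟨V', hVV', hV'⟩ := hr.compl C hC V (stable_of_inv L hC hV)
  have hVs := stable_of_inv L hC hV
  set π : Module.End Ω (M.vs C).V := V.subtype ∘ₗ V.projectionOnto V' hVV' with hπ
  have hπ1 : ∀ x ∈ V, π x = x := by
    intro x hx
    rw [hπ, LinearMap.comp_apply]
    have h1 := Submodule.projectionOnto_apply_left hVV' ⟨x, hx⟩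
    rw [h1]
    rfl
  have hπ2 : ∀ x, π x ∈ V := fun x => Submodule.coe_mem _
  have hπ3 : ∀ x ∈ V', π x = 0 := by
    intro x hx
    rw [hπ, LinearMap.comp_apply]
    have h1 := (Submodule.projectionOnto_apply_eq_zero_iff hVV').2 hx
    rw [h1, map_zero]
  -- `π` commutes with the Lie algebra
  have hCC : M.Below (Con.hom C C) := ⟨hC, hC⟩
  have hkill : ∀ A ∈ M.ssMt,
      Con.lie (X := M.E.X) (Con.hom C C) (M.toΩ A) π = 0 := by
    intro A hA
    have h1 : C.lie (M.toΩ A) ∘ₗ π = π ∘ₗ C.lie (M.toΩ A) := by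
      refine LinearMap.ext fun x => ?_
      have h2 : x ∈ V ⊔ V' := by rw [hVV'.sup_eq_top]; exact Submodule.mem_top
      obtain ⟨y, hy, z, hz, rfl⟩ := Submodule.mem_sup.1 h2
      have h3 : π (y + z) = y := by rw [map_add, hπ1 y hy, hπ3 z hz, add_zero]
      have h4 : π (C.lie (M.toΩ A) (y + z)) = C.lie (M.toΩ A) y := by
        have e1 : π (C.lie (M.toΩ A) y) = C.lie (M.toΩ A) y := hπ1 _ (hVs A hA y hy)
        have e2 : π (C.lie (M.toΩ A) z) = 0 := hπ3 _ (hV' A hA z hz)
        rw [map_add, map_add, e1, e2, add_zero]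
      change C.lie (M.toΩ A) (π (y + z)) = π (C.lie (M.toΩ A) (y + z))
      rw [h3, h4]
    change C.lie (M.toΩ A) ∘ₗ π - π ∘ₗ C.lie (M.toΩ A) = 0
    rw [h1, sub_self]
  have hhodge : (π : (M.vs (Con.hom C C)).V) ∈ M.hodge (Con.hom C C) :=
    killed_hodge hr hCC hkill
  have hw : (Con.hom C C).wt = 2 * 0 := by
    change C.wt - C.wt = 2 * 0
    ring
  obtain ⟨U', hfix⟩ := (tate_iff L hr N hCC hw π).2 hhodge
  have hidx : (U' : Subgroup M.Γ).index ≠ 0 := by
    have : Finite (M.Γ ⧸ (U' : Subgroup M.Γ)) := Subgroup.quotient_finite_of_isOpen _ U'.isOpen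
    exact Subgroup.index_ne_zero_of_finite
  obtain ⟨e, he1, he2, he3⟩ := average (φ := fun σ => M.act C σ) (M.act_mul C) hidx hV hπ1
    hπ2 fun σ hσ => by
      have h1 := hfix σ trivial hσ
      rw [tw, zpow_zero, Units.val_one] at h1
      exact h1.trans (one_smul Ω (π : (M.vs (Con.hom C C)).V))
  have hproj : LinearMap.IsProj V e := ⟨he2, he1⟩
  refine ⟨LinearMap.ker e, hproj.isCompl, fun σ hσ x hx => ?_⟩
  rw [LinearMap.mem_ker] at hx ⊢
  have h1 := congrArg (fun f : Module.End Ω (M.vs C).V => f (M.act C σ x)) (he3 σ hσ)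
  simp only [adE_app] at h1
  rw [LinearEquiv.symm_apply_apply, hx, map_zero] at h1
  exact h1.symm

end HKMotive

end Pool.Agent.J4H44.MF
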