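import Pool.Agent.J4H44.MF.B0
import Pool.Agent.J4H44.MF.B1

/-!
# Tensor constructions
-/

set_option autoImplicit false

namespace Pool.Agent.J4H44.MF

open Module Module.End Pool.Agent.N184.HK Pool.Agent.J4H44.PM
open scoped Classical

namespace Con

section

variable {K J : Type} [Field K] {V : J → ℕ → Vec K}

lemma act_trans {φ ψ χ : ∀ j i, (V j i).V ≃ₗ[K] (V j i).V}
    (h : ∀ j i, χ j i = (ψ j i).trans (φ j i)) :
    (C : Con J) → C.act χ = (C.act ψ).trans (C.act φ)
  | unit => rfl
  | Con.H j i => h j i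
  | hom S T => by
    change cj (S.act χ) (T.act χ) = (cj (S.act ψ) (T.act ψ)).trans (cj (S.act φ) (T.act φ))
    rw [act_trans h S, act_trans h T]
    rfl

lemma act_symm {φ ψ : ∀ j i, (V j i).V ≃ₗ[K] (V j i).V} (h : ∀ j i, ψ j i = (φ j i).symm) :
    (C : Con J) → C.act ψ = (C.act φ).symm
  | unit => rfl
  | Con.H j i => h j i
  | hom S T => by
    change cj (S.act ψ) (T.act ψ) = (cj (S.act φ) (T.act φ)).symm
    rw [act_symm h S, act_symm h T]
    rfl

omit V in
lemma cj_pow {V W : Type} [AddCommGroup V] [Module K V] [AddCommGroup W] [Module K W]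
    (a : V ≃ₗ[K] V) (b : W ≃ₗ[K] W) (q : ℕ) : cj (a ^ q) (b ^ q) = (cj a b) ^ q := by
  induction q with
  | zero => rfl
  | succ q ih =>
    rw [pow_succ, pow_succ, pow_succ, ← ih]
    rfl

lemma act_pow {d : J → ℕ} {φ ψ : ∀ j i, (V j i).V ≃ₗ[K] (V j i).V} {q : ℕ}
    (h : ∀ j, ∀ i ≤ d j, ψ j i = (φ j i) ^ q) :
    (C : Con J) → C.Below d → C.act ψ = (C.act φ) ^ q
  | unit, _ => by
    change LinearEquiv.refl K K = (LinearEquiv.refl K K) ^ q
    exact (one_pow (M := K ≃ₗ[K] K) q).symm
  | Con.H j i, hi => h j i hi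
  | hom S T, hC => by
    change cj (S.act ψ) (T.act ψ) = (cj (S.act φ) (T.act φ)) ^ q
    rw [act_pow h S hC.1, act_pow h T hC.2, cj_pow]

lemma der_add (a b : ∀ j i, Module.End K (V j i).V) :
    (C : Con J) → C.der (fun j i => a j i + b j i) = C.der a + C.der b
  | unit => (add_zero (0 : Module.End K K)).symm
  | H j i => rfl
  | hom S T => by
    change dr (S.der fun j i => a j i + b j i) (T.der fun j i => a j i + b j i) =
      dr (S.der a) (T.der a) + dr (S.der b) (T.der b)
    rw [der_add a b S, der_add a b T, dr_add]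

lemma der_smul (r : K) (a : ∀ j i, Module.End K (V j i).V) :
    (C : Con J) → C.der (fun j i => r • a j i) = r • C.der a
  | unit => (smul_zero (A := Module.End K K) r).symm
  | H j i => rfl
  | hom S T => by
    change dr (S.der fun j i => r • a j i) (T.der fun j i => r • a j i) =
      r • dr (S.der a) (T.der a)
    rw [der_smul r a S, der_smul r a T, dr_smul]

lemma der_congr {d : J → ℕ} {a b : ∀ j i, Module.End K (V j i).V}
    (h : ∀ j, ∀ i ≤ d j, a j i = b j i) :
    (C : Con J) → C.Below d → C.der a = C.der b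
  | unit, _ => rfl
  | H j i, hi => h j i hi
  | hom S T, hC => by
    change dr (S.der a) (T.der a) = dr (S.der b) (T.der b)
    rw [der_congr h S hC.1, der_congr h T hC.2]

lemma der_bracket (a b : ∀ j i, Module.End K (V j i).V) : (C : Con J) →
    C.der a * C.der b - C.der b * C.der a = C.der (fun j i => a j i * b j i - b j i * a j i)
  | unit => by
    change (0 : Module.End K K) * 0 - 0 * 0 = 0
    rw [mul_zero, sub_zero]
  | H j i => rfl
  | hom S T => by
    change dr (S.der a) (T.der a) * dr (S.der b) (T.der b) -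
      dr (S.der b) (T.der b) * dr (S.der a) (T.der a) = dr _ _
    rw [dr_bracket, der_bracket a b S, der_bracket a b T]

lemma der_nil {d : J → ℕ} {a : ∀ j i, Module.End K (V j i).V}
    (h : ∀ j, ∀ i ≤ d j, IsNilpotent (a j i)) :
    (C : Con J) → C.Below d → IsNilpotent (C.der a)
  | unit, _ => ⟨1, pow_one (0 : Module.End K K)⟩
  | H j i, hi => h j i hi
  | hom S T, hC => dr_nil (der_nil h S hC.1) (der_nil h T hC.2)

lemma der_scalar (κ : K) : (C : Con J) →
    C.der (fun j i => (((i : ℤ) : K) * κ) • (1 : Module.End K (V j i).V)) =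
      ((C.wt : K) * κ) • 1
  | unit => by
    change (0 : Module.End K K) = (((0 : ℤ) : K) * κ) • (1 : Module.End K K)
    rw [Int.cast_zero, zero_mul, zero_smul]
  | H j i => rfl
  | hom S T => by
    change dr (S.der _) (T.der _) = (((T.wt - S.wt : ℤ) : K) * κ) • _
    rw [der_scalar κ S, der_scalar κ T, dr_scalar, Int.cast_sub, sub_mul]
    rfl

lemma act_der (φ : ∀ j i, (V j i).V ≃ₗ[K] (V j i).V) (a : ∀ j i, Module.End K (V j i).V) :
    (C : Con J) → (v : (C.vs V).V) →
    C.act φ (C.der a v) = C.der (fun j i => adE (φ j i) (a j i)) (C.act φ v)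
  | unit, v => rfl
  | H j i, v => (adE_apply (φ j i) (a j i) v).symm
  | hom S T, f => by
    refine (cj_dr (S.act φ) (T.act φ) (S.der a) (T.der a) f).trans ?_
    have h : ∀ C : Con J, (∀ v, C.act φ (C.der a v) =
        C.der (fun j i => adE (φ j i) (a j i)) (C.act φ v)) →
        adE (C.act φ) (C.der a) = C.der (fun j i => adE (φ j i) (a j i)) := by
      intro C h
      ext x
      have h1 := h ((C.act φ).symm x)
      rw [LinearEquiv.apply_symm_apply] at h1
      rw [← h1]
      simp [adE, LinearEquiv.conj_apply]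
    exact congrFun (congrArg DFunLike.coe (congrArg₂ dr (h S (act_der φ a S))
      (h T (act_der φ a T)))) _

end

section lie

variable {K J : Type} [Field K] {d : J → ℕ} {c : J → ℚ} {X : ∀ j, Cohomology K (d j) (c j)}

/-- The action of the product of the `so(H²)`, as a linear map. -/
noncomputable def lieL (C : Con J) : EndTwo X →ₗ[K] Module.End K (C.vs (coh X)).V where
  toFun A := C.lie A
  map_add' A B := by
    change C.der (V := coh X) _ = C.der (V := coh X) _ + C.der (V := coh X) _
    rw [← der_add]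
    congr 1
    ext1 j
    ext1 i
    exact map_add ((X j).ρ i) (A j) (B j)
  map_smul' r A := by
    change C.der (V := coh X) _ = r • C.der (V := coh X) _
    rw [← der_smul]
    congr 1
    ext1 j
    ext1 i
    exact map_smul ((X j).ρ i) r (A j)

lemma lieL_apply (C : Con J) (A : EndTwo X) : C.lieL A = C.lie A := rfl

lemma act_lie (F : ∀ j, (X j).Auto) (C : Con J) (A : EndTwo X) (v : (C.vs (coh X)).V) :
    C.act (V := coh X) (fun j => (F j).φ) (C.lie A v) =
      C.lie (conj F A) (C.act (V := coh X) (fun j => (F j).φ) v) := by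
  rw [lie, act_der, lie]
  congr 2
  ext1 j
  ext1 i
  exact (F j).hc i (A j)

lemma lie_bracket (C : Con J) {A B D : EndTwo X} (hA : IsSkew A) (hB : IsSkew B)
    (hD : ∀ j, D j = A j * B j - B j * A j) :
    C.lie D = C.lie A * C.lie B - C.lie B * C.lie A := by
  rw [lie, lie, lie, der_bracket]
  congr 1
  ext1 j
  ext1 i
  rw [hD]
  exact (X j).bracket i (A j) (B j) (hA j) (hB j)

end lie

section fop

variable {K J : Type} [Field K] [IsAlgClosed K] [CharZero K] {d : J → ℕ} {c : J → ℚ}
  {V : J → ℕ → Vec K} {φ : ∀ j i, (V j i).V ≃ₗ[K] (V j i).V} {U : Wt K} (h1 : U.U 1)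
  (hU : ∀ j, ∀ i ≤ d j, ∀ e ∈ (en (φ j i)).charpoly.roots, U.U e)

omit [CharZero K] in
include h1 hU in
lemma U_act : (C : Con J) → C.Below d → ∀ e ∈ (en (C.act φ)).charpoly.roots, U.U e
  | unit, _ => by
    intro e he
    have h2 : e ∈ (en (LinearEquiv.refl K K)).charpoly.roots := he
    rw [← ne_bot_iff] at h2
    obtain ⟨x, hx, hx0⟩ := (Submodule.ne_bot_iff _).1 h2
    rw [Module.End.mem_maxGenEigenspace] at hx
    obtain ⟨k, hk⟩ := hx
    have h3 : ∀ k : ℕ, ((en (LinearEquiv.refl K K) - e • 1) ^ k) x = (1 - e) ^ k * x := by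
      intro k
      induction k with
      | zero => simp
      | succ k ih =>
        rw [_root_.pow_succ', Module.End.mul_apply, ih]
        change (1 - e) ^ k * x - e * ((1 - e) ^ k * x) = _
        ring
    rw [h3] at hk
    have h4 := (mul_eq_zero.1 hk).resolve_right hx0
    have h5 : 1 - e = 0 := by
      by_contra hne
      exact pow_ne_zero k hne h4
    rw [← sub_eq_zero.1 h5]
    exact h1
  | H j i, hi => hU j i hi
  | hom S T, hC => U_hom U (U_act S hC.1) (U_act T hC.2)

omit [CharZero K] in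
include h1 in
lemma fop_unit : fop (en (LinearEquiv.refl K K)) U.k = 0 := by
  refine ext_gen (en (LinearEquiv.refl K K)) fun e x hx => ?_
  rw [fop_apply _ hx, LinearMap.zero_apply]
  by_cases hx0 : x = 0
  · rw [hx0, smul_zero]
  rw [Module.End.mem_maxGenEigenspace] at hx
  obtain ⟨k, hk⟩ := hx
  have h3 : ∀ k : ℕ, ((en (LinearEquiv.refl K K) - e • 1) ^ k) x = (1 - e) ^ k * x := by
    intro k
    induction k with
    | zero => simp
    | succ k ih =>
      rw [_root_.pow_succ', Module.End.mul_apply, ih]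
      change (1 - e) ^ k * x - e * ((1 - e) ^ k * x) = _
      ring
  rw [h3] at hk
  have h4 := (mul_eq_zero.1 hk).resolve_right hx0
  have h5 : 1 - e = 0 := by
    by_contra hne
    exact pow_ne_zero k hne h4
  rw [← sub_eq_zero.1 h5, Wt.k, w_one U h1, Rat.cast_zero, zero_smul]

include h1 hU in
/-- The weight operator of a construction. -/
lemma fop_act : (C : Con J) → C.Below d →
    fop (en (C.act φ)) U.k = C.der (fun j i => fop (en (φ j i)) U.k)
  | unit, _ => fop_unit h1
  | H j i, hi => rfl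
  | hom S T, hC => by
    change fop (en (cj (S.act φ) (T.act φ))) U.k = dr _ _
    rw [fop_hom U (U_act h1 hU S hC.1) (U_act h1 hU T hC.2), fop_act S hC.1, fop_act T hC.2]

end fop

section split

variable {K J : Type} [Field K] [IsAlgClosed K] [CharZero K] {d : J → ℕ} {c : J → ℚ}
  {X : ∀ j, Cohomology K (d j) (c j)} {F : ∀ j, (X j).Auto} {U : Wt K} (h1 : U.U 1)
  (hU : ∀ j, ∀ i ≤ d j, ∀ e ∈ (en ((F j).φ i)).charpoly.roots, U.U e)

include h1 hU in
/-- The decomposition of the weight operator of a construction. -/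
lemma fop_act_split {κ : ℚ} (C : Con J) (hC : C.Below d) :
    fop (en (C.act (V := coh X) fun j => (F j).φ)) U.k =
      (((C.wt : ℚ) * κ : ℚ) : K) • 1 + C.lie (weightOp F U) +
      C.der (V := coh X) (fun j i => (F j).T U i (i * κ)) := by
  rw [fop_act (V := coh X) h1 hU C hC]
  have h2 : (fun (j : J) (i : ℕ) => fop (en ((F j).φ i)) U.k) = fun (j : J) (i : ℕ) =>
      ((((i : ℤ) : K) * (κ : K)) • (1 : Module.End K ((X j).H i)) +
        (X j).ρ i ((F j).S2 U)) + (F j).T U i (i * κ) := by
    ext1 j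
    ext1 i
    rw [T_eq]
    push_cast
    abel
  have h3 := der_add (V := coh X) (fun (j : J) (i : ℕ) =>
      ((((i : ℤ) : K) * (κ : K)) • (1 : Module.End K ((X j).H i)) +
        (X j).ρ i ((F j).S2 U))) (fun j i => (F j).T U i (i * κ)) C
  have h4 := der_add (V := coh X) (fun (j : J) (i : ℕ) =>
      ((((i : ℤ) : K) * (κ : K)) • (1 : Module.End K ((X j).H i))))
      (fun j i => (X j).ρ i ((F j).S2 U)) C
  have h5 := der_scalar (V := coh X) (κ : K) C
  rw [h4, h5] at h3
  have h6 : C.der (V := coh X) (fun (j : J) (i : ℕ) => fop (en ((F j).φ i)) U.k) =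
      C.der (V := coh X) (fun (j : J) (i : ℕ) =>
        ((((i : ℤ) : K) * (κ : K)) • (1 : Module.End K ((X j).H i)) +
        (X j).ρ i ((F j).S2 U)) + (F j).T U i (i * κ)) := by rw [h2]
  rw [h6, h3]
  push_cast
  rfl

end split

section rat

variable {K : Type} [Field K] {V W : Type} [AddCommGroup V] [Module K V] [AddCommGroup W]
  [Module K W] {ι κ : Type} [Fintype ι] [Fintype κ] [DecidableEq ι] [DecidableEq κ]

/-- The matrix of `dr a b`. -/
def drm (A : Matrix ι ι ℚ) (B : Matrix κ κ ℚ) : Matrix (κ × ι) (κ × ι) ℚ :=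
  fun x y => (if x.2 = y.2 then B x.1 y.1 else 0) - if x.1 = y.1 then A y.2 x.2 else 0

lemma toLin_drm' (b : Basis ι K V) (b' : Basis κ K W) (A : Matrix ι ι ℚ) (B : Matrix κ κ ℚ)
    [CharZero K] :
    Matrix.toLin (b.linearMap b') (b.linearMap b') ((drm A B).map fun x => (x : K)) =
      dr (Matrix.toLin b b (A.map fun x => (x : K))) (Matrix.toLin b' b' (B.map fun x => (x : K))) := by
  refine (b.linearMap b').ext fun ⟨j, i⟩ => ?_
  refine b.ext fun k => ?_
  rw [Matrix.toLin_self, dr_apply, LinearMap.sub_apply, LinearMap.comp_apply, LinearMap.comp_apply,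
    Matrix.toLin_self, LinearMap.sum_apply, map_sum, Fintype.sum_prod_type]
  simp only [Matrix.map_apply, LinearMap.smul_apply, Basis.linearMap_apply_apply, map_smul]
  have h1 : ∀ (x : κ) (y : ι), (((drm A B (x, y) (j, i) : ℚ)) : K) • (if y = k then b' x else 0) =
      (if y = k then ((if y = i then ((B x j : ℚ) : K) else 0) -
        (if x = j then ((A i y : ℚ) : K) else 0)) • b' x else 0) := by
    intro x y
    by_cases hy : y = k
    · rw [if_pos hy, if_pos hy]
      congr 1
      simp only [drm]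
      split_ifs <;> simp
    · rw [if_neg hy, if_neg hy, smul_zero]
  simp only [h1]
  simp only [Finset.sum_ite_eq', Finset.mem_univ, if_true, sub_smul, Finset.sum_sub_distrib,
    ite_smul, zero_smul]
  congr 1
  · by_cases hik : i = k
    · subst hik
      rw [if_pos rfl, Matrix.toLin_self]
      simp
    · rw [if_neg hik, map_zero]
      have : ¬ k = i := fun h => hik h.symm
      simp [this]
  · simp only [smul_ite, smul_zero, Finset.sum_ite_eq, Finset.mem_univ, if_true]

lemma toLin_drm (b : Basis ι K V) (b' : Basis κ K W) (A : Matrix ι ι ℚ) (B : Matrix κ κ ℚ)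
    [CharZero K] [i1 : Fintype (κ × ι)] [i2 : DecidableEq (κ × ι)] :
    @Matrix.toLin K _ (κ × ι) (κ × ι) i1 _ i2 (V →ₗ[K] W) (V →ₗ[K] W) _ _ _ _
      (b.linearMap b') (b.linearMap b') ((drm A B).map fun x => (x : K)) =
      dr (Matrix.toLin b b (A.map fun x => (x : K))) (Matrix.toLin b' b' (B.map fun x => (x : K))) := by
  have h1 : i1 = instFintypeProd κ ι := Subsingleton.elim _ _
  have h2 : i2 = instDecidableEqProd := Subsingleton.elim _ _
  subst h1
  subst h2
  exact toLin_drm' b b' A B

omit [DecidableEq ι] [Fintype ι] in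
lemma toLin_inst (b : Basis ι K V) (A : Matrix ι ι K) (i1 i1' : Fintype ι)
    (i2 i2' : DecidableEq ι) :
    @Matrix.toLin K _ ι ι i1 _ i2 V V _ _ _ _ b b A =
      @Matrix.toLin K _ ι ι i1' _ i2' V V _ _ _ _ b b A := by
  have h1 : i1 = i1' := Subsingleton.elim _ _
  have h2 : i2 = i2' := Subsingleton.elim _ _
  subst h1
  subst h2
  rfl

end rat

end Con

end Pool.Agent.J4H44.MF
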