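import Pool.Agent.J4H44.MF.B2

/-!
# Rational structures
-/

set_option autoImplicit false

namespace Pool.Agent.J4H44.MF

open Module Module.End Pool.Agent.N184.HK Pool.Agent.J4H44.PM
open scoped Classical

section base

variable (K : Type) [Field K] [CharZero K]

/-- A basis of `K` over `ℚ`. -/
noncomputable def qb : Basis (Basis.ofVectorSpaceIndex ℚ K) ℚ K := Basis.ofVectorSpace ℚ K

variable {K}

lemma qb_indep {F : Finset (Basis.ofVectorSpaceIndex ℚ K)} {q : Basis.ofVectorSpaceIndex ℚ K → ℚ}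
    (h : ∑ k ∈ F, qb K k * ((q k : ℚ) : K) = 0) : ∀ k ∈ F, q k = 0 := by
  refine linearIndependent_iff'.1 (qb K).linearIndependent F q ?_
  rw [← h]
  refine Finset.sum_congr rfl fun k _ => ?_
  rw [Rat.smul_def, mul_comm]

lemma qb_sum {ι : Type} [Fintype ι] (v : ι → K) : ∃ F : Finset (Basis.ofVectorSpaceIndex ℚ K),
    ∀ j, v j = ∑ k ∈ F, qb K k * ((((qb K).repr (v j) k : ℚ)) : K) := by
  refine ⟨Finset.univ.biUnion fun j => ((qb K).repr (v j)).support, fun j => ?_⟩
  have h1 := (qb K).linearCombination_repr (v j)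
  rw [Finsupp.linearCombination_apply, Finsupp.sum] at h1
  conv_lhs => rw [← h1]
  rw [Finset.sum_subset (Finset.subset_biUnion_of_mem
    (fun j => ((qb K).repr (v j)).support) (Finset.mem_univ j)) fun k _ hk => by
      rw [Finsupp.notMem_support_iff.1 hk, zero_smul]]
  refine Finset.sum_congr rfl fun k _ => ?_
  rw [Rat.smul_def, mul_comm]

/-- Solutions of rational linear equations are combinations of rational solutions. -/
lemma rat_ker {ι I : Type} [Fintype ι] (M : I → Matrix ι ι ℚ) (v : ι → K)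
    (hv : ∀ a i, ∑ j, ((M a i j : ℚ) : K) * v j = 0) :
    ∃ (F : Finset (Basis.ofVectorSpaceIndex ℚ K)) (t : Basis.ofVectorSpaceIndex ℚ K → ι → ℚ),
      (∀ k, ∀ a, (M a).mulVec (t k) = 0) ∧ ∀ j, v j = ∑ k ∈ F, qb K k * ((t k j : ℚ) : K) := by
  obtain ⟨F, hF⟩ := qb_sum v
  refine ⟨F, fun k j => (qb K).repr (v j) k, fun k a => ?_, hF⟩
  ext i
  have h1 : ∑ j, M a i j • v j = 0 := by
    rw [← hv a i]
    exact Finset.sum_congr rfl fun j _ => Rat.smul_def _ _
  have h2 := congrArg (fun x => (qb K).repr x k) h1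
  simp only [map_sum, map_smul, map_zero, Finsupp.coe_finset_sum, Finset.sum_apply,
    Finsupp.coe_smul, Pi.smul_apply, Finsupp.coe_zero, Pi.zero_apply, smul_eq_mul] at h2
  exact h2

end base

section rational

variable {K J : Type} [Field K] [CharZero K] {d : J → ℕ} {c : J → ℚ}
  {X : ∀ j, Cohomology K (d j) (c j)} {n : J → ℕ → ℕ}
  {b : ∀ j i, Basis (Fin (n j i)) K ((X j).H i)} {G : MatTwo n}
  {R : ∀ j i, Matrix (Fin (n j 2)) (Fin (n j 2)) ℚ → Matrix (Fin (n j i)) (Fin (n j i)) ℚ}

/-- The rational matrix of the action of the rational element `A` of the product of the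
`so(H²)`. -/
noncomputable def Con.rm
    (R : ∀ j i, Matrix (Fin (n j 2)) (Fin (n j 2)) ℚ → Matrix (Fin (n j i)) (Fin (n j i)) ℚ)
    (A : MatTwo n) : (C : Con J) → Matrix (C.Idx n) (C.Idx n) ℚ
  | unit => 0
  | H j i => R j i (A j)
  | hom S T => Con.drm (S.rm R A) (T.rm R A)

omit [CharZero K] in
lemma Con.lie_ofRat [CharZero K] (h : ∀ j, IsRational (X j) (b j) (G j) (R j)) (A : MatTwo n) :
    (C : Con J) → C.Below d → C.lie (op b A) =
      Matrix.toLin (C.bas (V := coh X) b) (C.bas (V := coh X) b) ((C.rm R A).map fun x => (x : K))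
  | unit, _ => by
    have h1 : ((Con.unit.rm R A).map fun x => (x : K)) = 0 := by
      ext i j
      exact Rat.cast_zero
    rw [h1, map_zero]
    rfl
  | H j i, hi => ((h j).act i hi (A j)).trans (Con.toLin_inst (b j i) _ _ _ _ _)
  | hom S T, hC => by
    have h1 := Con.lie_ofRat h A S hC.1
    have h2 := Con.lie_ofRat h A T hC.2
    exact (congrArg₂ dr h1 h2).trans (Con.toLin_drm (S.bas (V := coh X) b)
      (T.bas (V := coh X) b) (S.rm R A) (T.rm R A) (i1 := fintypeIdx n (hom S T))
      (i2 := decEqIdx n (hom S T))).symm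

omit [CharZero K] in
lemma Con.lie_vec [CharZero K] (h : ∀ j, IsRational (X j) (b j) (G j) (R j)) (A : MatTwo n)
    (C : Con J) (hC : C.Below d) (t : C.Idx n → ℚ) :
    C.lie (op b A) (C.vec (V := coh X) b t) = C.vec (V := coh X) b ((C.rm R A).mulVec t) := by
  rw [Con.lie_ofRat h A C hC, Con.vec, Con.vec, map_sum]
  simp only [map_smul, Matrix.toLin_self, Matrix.map_apply]
  simp only [Finset.smul_sum]
  rw [Finset.sum_comm]
  refine Finset.sum_congr rfl fun i _ => ?_
  rw [Matrix.mulVec, dotProduct, Rat.cast_sum, Finset.sum_smul]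
  refine Finset.sum_congr rfl fun j _ => ?_
  rw [smul_smul, Rat.cast_mul, mul_comm]

lemma Con.vec_eq_zero (C : Con J) {t : C.Idx n → ℚ} (h : C.vec (V := coh X) b t = 0) :
    t = 0 := by
  ext j
  have h1 := congrArg (fun v => (C.bas (V := coh X) b).repr v j) h
  rw [Con.vec] at h1
  simp only [map_sum, map_smul, Basis.repr_self, map_zero, Finsupp.coe_finset_sum,
    Finset.sum_apply, Finsupp.smul_single, smul_eq_mul, mul_one, Finsupp.coe_zero,
    Pi.zero_apply] at h1
  rw [Finset.sum_eq_single j] at h1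
  · rw [Finsupp.single_eq_same] at h1
    exact_mod_cast h1
  · intro i _ hi
    exact Finsupp.single_eq_of_ne (fun h => hi h.symm)
  · intro h; exact absurd (Finset.mem_univ _) h

/-- The vectors killed by a set of rational elements of the product of the `so(H²)` are
combinations of rational vectors. -/
lemma Con.rat_span (h : ∀ j, IsRational (X j) (b j) (G j) (R j)) (C : Con J) (hC : C.Below d)
    {𝒮 : Set (MatTwo n)} {v : (C.vs (coh X)).V}
    (hv : ∀ A ∈ 𝒮, C.lie (op b A) v = 0) :
    v ∈ Submodule.span K {w | ∃ t : C.Idx n → ℚ, (∀ A ∈ 𝒮, (C.rm R A).mulVec t = 0) ∧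
      w = C.vec (V := coh X) b t} := by
  obtain ⟨F, t, ht, hF⟩ := rat_ker (K := K) (I := 𝒮) (fun A => C.rm R A)
    (fun j => (C.bas (V := coh X) b).repr v j) (fun A i => by
      have h1 := hv A A.2
      rw [Con.lie_ofRat h A C hC] at h1
      have h2 := congrArg (fun v => (C.bas (V := coh X) b).repr v i) h1
      simp only [map_zero, Finsupp.coe_zero, Pi.zero_apply] at h2
      rw [← h2, Matrix.repr_toLin]
      rfl)
  have h3 : v = ∑ k ∈ F, qb K k • C.vec (V := coh X) b (t k) := by
    rw [← (C.bas (V := coh X) b).sum_repr v]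
    simp only [hF, Con.vec, Finset.smul_sum, Finset.sum_smul, smul_smul]
    rw [Finset.sum_comm]
  rw [h3]
  exact Submodule.sum_mem _ fun k _ => Submodule.smul_mem _ _
    (Submodule.subset_span ⟨t k, fun A hA => ht k ⟨A, hA⟩, rfl⟩)

end rational

end Pool.Agent.J4H44.MF
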