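import Pool.Agent.J4H44.MF.B3

/-!
# Hodge classes and the Lie algebra of the Mumford-Tate group
-/

set_option autoImplicit false

namespace Pool.Agent.J4H44.MF

open Module Module.End Pool.Agent.N184.HK Pool.Agent.J4H44.PM
open scoped Classical

section lin

variable {K V : Type} [Field K] [CharZero K] [AddCommGroup V] [Module K V] {m : ℕ}
  (b : Basis (Fin m) K V)

lemma ofRat_mul (A B : Matrix (Fin m) (Fin m) ℚ) : ofRat b (A * B) = ofRat b A * ofRat b B := by
  rw [ofRat, ofRat, ofRat]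
  have h1 : ((A * B).map fun x => (x : K)) = (A.map fun x => (x : K)) * B.map fun x => (x : K) := by
    ext i j
    simp [Matrix.mul_apply]
  rw [h1, Matrix.toLin_mul b b b]
  rfl

lemma ofRat_sub (A B : Matrix (Fin m) (Fin m) ℚ) : ofRat b (A - B) = ofRat b A - ofRat b B := by
  rw [ofRat, ofRat, ofRat, ← map_sub]
  congr 1
  ext i j
  simp

lemma ofRat_add (A B : Matrix (Fin m) (Fin m) ℚ) : ofRat b (A + B) = ofRat b A + ofRat b B := by
  rw [ofRat, ofRat, ofRat, ← map_add]
  congr 1
  ext i j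
  simp

lemma ofRat_smul (r : ℚ) (A : Matrix (Fin m) (Fin m) ℚ) :
    ofRat b (r • A) = (r : K) • ofRat b A := by
  rw [ofRat, ofRat, ← map_smul]
  congr 1
  ext i j
  simp

lemma ofRat_zero : ofRat b (0 : Matrix (Fin m) (Fin m) ℚ) = 0 := by
  have h := ofRat_smul b 0 (0 : Matrix (Fin m) (Fin m) ℚ)
  rwa [zero_smul, Rat.cast_zero, zero_smul] at h

lemma ofRat_decomp (T : Module.End K V) : ∃ (F : Finset (Basis.ofVectorSpaceIndex ℚ K))
    (A : Basis.ofVectorSpaceIndex ℚ K → Matrix (Fin m) (Fin m) ℚ),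
    T = ∑ k ∈ F, qb K k • ofRat b (A k) := by
  obtain ⟨F, hF⟩ := qb_sum (K := K) (ι := Fin m × Fin m)
    (fun x => LinearMap.toMatrix b b T x.1 x.2)
  refine ⟨F, fun k i j => (qb K).repr (LinearMap.toMatrix b b T i j) k, ?_⟩
  apply (LinearMap.toMatrix b b).injective
  rw [map_sum]
  ext i j
  rw [Matrix.sum_apply]
  simp only [map_smul, ofRat, LinearMap.toMatrix_toLin, Matrix.smul_apply, Matrix.map_apply,
    smul_eq_mul]
  exact hF (i, j)

end lin

section fam

variable {K J : Type} [Field K] [CharZero K] {d : J → ℕ} {c : J → ℚ}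
  {X : ∀ j, Cohomology K (d j) (c j)} {n : J → ℕ → ℕ}
  (b : ∀ j i, Basis (Fin (n j i)) K ((X j).H i))

/-- The component `A j`, as a linear map. -/
def evL (j : J) : EndTwo X →ₗ[K] Module.End K ((X j).H 2) where
  toFun A := A j
  map_add' _ _ := rfl
  map_smul' _ _ := rfl

omit [CharZero K] in
lemma EndTwo.ext {A A' : EndTwo X} (h : ∀ j, A j = A' j) : A = A' := funext h

omit [CharZero K] in
lemma evL_apply (j : J) (A : EndTwo X) : evL j A = A j := rfl

lemma op_add (A A' : MatTwo n) : op b (A + A') = op b A + op b A' := by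
  refine EndTwo.ext fun j => ?_
  exact ofRat_add (b j 2) (A j) (A' j)

lemma op_smul (r : ℚ) (A : MatTwo n) : op b (r • A) = (r : K) • op b A := by
  refine EndTwo.ext fun j => ?_
  exact ofRat_smul (b j 2) r (A j)

lemma op_zero : op b (0 : MatTwo n) = 0 := by
  refine EndTwo.ext fun j => ?_
  exact ofRat_zero (b j 2)

lemma op_bracket (A A' : MatTwo n) (j : J) : op b (A * A' - A' * A) j =
    op b A j * op b A' j - op b A' j * op b A j := by
  change ofRat (b j 2) (A j * A' j - A' j * A j) = _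
  rw [ofRat_sub, ofRat_mul, ofRat_mul]
  rfl

lemma op_span {𝒮 : Set (MatTwo n)} {A : MatTwo n} (h : A ∈ Submodule.span ℚ 𝒮) :
    op b A ∈ Submodule.span K (op b '' 𝒮) := by
  induction h using Submodule.span_induction with
  | mem x hx => exact Submodule.subset_span ⟨x, hx, rfl⟩
  | zero => rw [op_zero]; exact Submodule.zero_mem _
  | add x y _ _ hx hy => rw [op_add]; exact Submodule.add_mem _ hx hy
  | smul a x _ hx => rw [op_smul]; exact Submodule.smul_mem _ _ hx

/-- The coordinate of index `k` of the matrices of `T`, for a basis of `K` over `ℚ`. -/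
noncomputable def crd (k : Basis.ofVectorSpaceIndex ℚ K) (T : EndTwo X) : MatTwo n :=
  fun j i i' => (qb K).repr (LinearMap.toMatrix (b j 2) (b j 2) (T j) i i') k

lemma crd_add (k : Basis.ofVectorSpaceIndex ℚ K) (T T' : EndTwo X) :
    crd b k (T + T') = crd b k T + crd b k T' := by
  funext j i i'
  change (qb K).repr (LinearMap.toMatrix (b j 2) (b j 2) (T j + T' j) i i') k = _
  rw [map_add, Matrix.add_apply, map_add, Finsupp.add_apply]
  rfl

lemma crd_zero (k : Basis.ofVectorSpaceIndex ℚ K) : crd b k (0 : EndTwo X) = 0 := by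
  funext j i i'
  change (qb K).repr (LinearMap.toMatrix (b j 2) (b j 2) (0 : Module.End K ((X j).H 2)) i i') k = 0
  rw [map_zero, Matrix.zero_apply, map_zero, Finsupp.zero_apply]

lemma crd_smul_op (k : Basis.ofVectorSpaceIndex ℚ K) (r : K) (A : MatTwo n) :
    crd b k (r • op b A) = ((qb K).repr r k) • A := by
  funext j i i'
  change (qb K).repr (LinearMap.toMatrix (b j 2) (b j 2) (r • ofRat (b j 2) (A j)) i i') k =
    (qb K).repr r k * A j i i'
  rw [map_smul, ofRat, LinearMap.toMatrix_toLin, Matrix.smul_apply, Matrix.map_apply, smul_eq_mul,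
    mul_comm, ← Rat.smul_def, map_smul, Finsupp.smul_apply, smul_eq_mul, mul_comm]

lemma crd_mem {𝔥 : Submodule ℚ (MatTwo n)} {T : EndTwo X}
    (hT : T ∈ Submodule.span K (op b '' 𝔥)) (k : Basis.ofVectorSpaceIndex ℚ K) :
    crd b k T ∈ 𝔥 := by
  induction hT using Submodule.closure_induction with
  | zero => rw [crd_zero]; exact 𝔥.zero_mem
  | add x y _ _ hx hy => rw [crd_add]; exact 𝔥.add_mem hx hy
  | smul_mem r x h =>
    obtain ⟨A, hA, rfl⟩ := h
    rw [crd_smul_op]
    exact 𝔥.smul_mem _ hA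

lemma op_decomp [Finite J] (T : EndTwo X) : ∃ (F : Finset (Basis.ofVectorSpaceIndex ℚ K)),
    T = ∑ k ∈ F, qb K k • op b (crd b k T) := by
  haveI := Fintype.ofFinite J
  obtain ⟨F, hF⟩ := qb_sum (K := K) (ι := Σ j : J, Fin (n j 2) × Fin (n j 2))
    (fun x => LinearMap.toMatrix (b x.1 2) (b x.1 2) (T x.1) x.2.1 x.2.2)
  refine ⟨F, ?_⟩
  refine EndTwo.ext fun j => ?_
  rw [← evL_apply j (∑ k ∈ F, _), map_sum]
  apply (LinearMap.toMatrix (b j 2) (b j 2)).injective
  rw [map_sum]
  ext i i'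
  rw [Matrix.sum_apply]
  simp only [map_smul, evL_apply, op, ofRat, LinearMap.toMatrix_toLin, Matrix.smul_apply,
    Matrix.map_apply, smul_eq_mul]
  exact hF ⟨j, (i, i')⟩

end fam

section skew

variable {K : Type} [Field K] [CharZero K] {d : ℕ} {c : ℚ} {X : Cohomology K d c} {n : ℕ → ℕ}
  {b : ∀ i, Basis (Fin (n i)) K (X.H i)} {G : Matrix (Fin (n 2)) (Fin (n 2)) ℚ}
  {R : ∀ i, Matrix (Fin (n 2)) (Fin (n 2)) ℚ → Matrix (Fin (n i)) (Fin (n i)) ℚ}

omit [CharZero K] in
lemma gram_ofRat [CharZero K] (h : IsRational X b G R) (x y : Fin (n 2))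
    (A : Matrix (Fin (n 2)) (Fin (n 2)) ℚ) :
    X.q (ofRat (b 2) A (b 2 x)) (b 2 y) + X.q (b 2 x) (ofRat (b 2) A (b 2 y)) =
      ((∑ z, (A z x * G z y + A z y * G x z) : ℚ) : K) := by
  have hg := h.gram
  rw [HasGram] at hg
  rw [ofRat, Matrix.toLin_self, Matrix.toLin_self]
  simp only [map_sum, map_smul, LinearMap.sum_apply, LinearMap.smul_apply, hg,
    Matrix.map_apply, smul_eq_mul]
  rw [← Finset.sum_add_distrib]
  push_cast
  rfl

lemma skew_iff (h : IsRational X b G R) (A : Matrix (Fin (n 2)) (Fin (n 2)) ℚ) :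
    Skew X.q (ofRat (b 2) A) ↔ ∀ x y, ∑ z, (A z x * G z y + A z y * G x z) = 0 := by
  constructor
  · intro hs x y
    have h1 := gram_ofRat h x y A
    rw [hs] at h1
    exact_mod_cast h1.symm
  · intro hs x y
    have h4 : X.q ∘ₗ ofRat (b 2) A + X.q.compl₂ (ofRat (b 2) A) = 0 := by
      refine (b 2).ext fun i => (b 2).ext fun j => ?_
      change X.q (ofRat (b 2) A (b 2 i)) (b 2 j) + X.q (b 2 i) (ofRat (b 2) A (b 2 j)) = 0
      rw [gram_ofRat h, hs, Rat.cast_zero]
    exact congrArg (fun f => f x y) h4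

end skew

section skewFam

variable {K J : Type} [Field K] {d : J → ℕ} {c : J → ℚ} {X : ∀ j, Cohomology K (d j) (c j)}

lemma IsSkew.add {A A' : EndTwo X} (h : IsSkew A) (h' : IsSkew A') : IsSkew (A + A') := by
  intro j x y
  have h5 := h j x y
  have h6 := h' j x y
  change (X j).q ((A j + A' j) x) y + (X j).q x ((A j + A' j) y) = 0
  rw [LinearMap.add_apply, LinearMap.add_apply, map_add, map_add, LinearMap.add_apply]
  linear_combination h5 + h6

lemma IsSkew.smul {A : EndTwo X} (h : IsSkew A) (r : K) : IsSkew (r • A) := by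
  intro j x y
  change (X j).q ((r • A j) x) y + (X j).q x ((r • A j) y) = 0
  rw [LinearMap.smul_apply, LinearMap.smul_apply, map_smul, map_smul,
    LinearMap.smul_apply, ← smul_add, h j x y, smul_zero]

lemma IsSkew.zero : IsSkew (0 : EndTwo X) := by
  intro j x y
  change (X j).q ((0 : Module.End K ((X j).H 2)) x) y +
    (X j).q x ((0 : Module.End K ((X j).H 2)) y) = 0
  simp

lemma IsSkew.bracket {A A' D : EndTwo X} (h : IsSkew A) (h' : IsSkew A')
    (hD : ∀ j, D j = A j * A' j - A' j * A j) : IsSkew D := by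
  intro j x y
  rw [hD]
  have e1 := h j (A' j x) y
  have e2 := h' j x (A j y)
  have e3 := h' j (A j x) y
  have e4 := h j x (A' j y)
  simp only [LinearMap.sub_apply, Module.End.mul_apply, map_sub]
  linear_combination e1 - e2 - e3 + e4

end skewFam

namespace HodgeData

variable {J : Type} {d : J → ℕ} {c : J → ℚ} {n : J → ℕ → ℕ} (B : HodgeData J d c n)

lemma sum_vec_zero {C : Con J} {F : Finset (Basis.ofVectorSpaceIndex ℚ ℂ)}
    {t : Basis.ofVectorSpaceIndex ℚ ℂ → C.Idx n → ℚ}
    (h : ∑ k ∈ F, qb ℂ k • C.vec (V := coh B.Y) B.b (t k) = 0) : ∀ k ∈ F, t k = 0 := by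
  intro k hk
  ext j
  have h1 := congrArg (fun v => (C.bas (V := coh B.Y) B.b).repr v j) h
  have h2 : ∀ k, (C.bas (V := coh B.Y) B.b).repr (C.vec (V := coh B.Y) B.b (t k)) j =
      ((t k j : ℚ) : ℂ) := by
    intro k
    rw [Con.vec]
    simp only [map_sum, map_smul, Basis.repr_self, Finsupp.coe_finset_sum,
      Finset.sum_apply, Finsupp.smul_single, smul_eq_mul, mul_one]
    rw [Finset.sum_eq_single j]
    · rw [Finsupp.single_eq_same]
    · intro i _ hi
      exact Finsupp.single_eq_of_ne (fun h => hi h.symm)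
    · intro h; exact absurd (Finset.mem_univ _) h
  simp only [map_sum, map_smul, map_zero, Finsupp.coe_finset_sum, Finset.sum_apply,
    Finsupp.coe_smul, Pi.smul_apply, h2, smul_eq_mul, Finsupp.coe_zero, Pi.zero_apply] at h1
  exact qb_indep h1 k hk

/-- A Hodge class is killed by the Lie algebra of the Mumford-Tate group. -/
lemma mt_kills' [Finite J] {C : Con J} (hC : C.Below d) {t : C.Idx n → ℚ}
    (ht : B.IsHodge C t) :
    ∀ A ∈ B.mt, IsSkew (op B.b A) ∧ (C.rm B.R A).mulVec t = 0 := by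
  let 𝔥 : Submodule ℚ (MatTwo n) :=
    { carrier := {A | IsSkew (op B.b A) ∧ C.lie (op B.b A) (C.vec (V := coh B.Y) B.b t) = 0}
      add_mem' := by
        rintro A A' ⟨h1, h2⟩ ⟨h3, h4⟩
        refine ⟨?_, ?_⟩
        · rw [op_add]
          exact h1.add h3
        · rw [op_add, ← Con.lieL_apply, map_add, LinearMap.add_apply, Con.lieL_apply,
            Con.lieL_apply, h2, h4, add_zero]
      zero_mem' := by
        refine ⟨?_, ?_⟩
        · rw [op_zero]
          exact IsSkew.zero
        · rw [op_zero, ← Con.lieL_apply, map_zero, LinearMap.zero_apply]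
      smul_mem' := by
        rintro r A ⟨h1, h2⟩
        refine ⟨?_, ?_⟩
        · rw [op_smul]
          exact h1.smul _
        · rw [op_smul, ← Con.lieL_apply, map_smul, LinearMap.smul_apply, Con.lieL_apply, h2,
            smul_zero] }
  have h𝔥 : B.Contains 𝔥 := by
    refine ⟨fun A hA => hA.1, fun A hA A' hA' => ?_, ?_⟩
    · refine ⟨hA.1.bracket hA'.1 (op_bracket B.b A A'), ?_⟩
      rw [Con.lie_bracket C hA.1 hA'.1 (op_bracket B.b A A'), LinearMap.sub_apply,
        Module.End.mul_apply, Module.End.mul_apply, hA.2, hA'.2, map_zero, map_zero, sub_zero]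
    · obtain ⟨F, hJ⟩ := op_decomp B.b B.Θ
      set A : Basis.ofVectorSpaceIndex ℚ ℂ → MatTwo n := fun k => crd B.b k B.Θ with hA
      rw [hJ]
      refine Submodule.sum_mem _ fun k hk => Submodule.smul_mem _ _ (Submodule.subset_span
        ⟨A k, ?_, rfl⟩)
      refine ⟨?_, ?_⟩
      · -- the skew part
        intro j
        refine (skew_iff (B.rat j) (A k j)).2 fun x y => ?_
        refine qb_indep (F := F) (q := fun k =>
          ∑ z, (A k j z x * B.G j z y + A k j z y * B.G j x z)) ?_ k hk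
        have h3 := B.skew j (B.b j 2 x) (B.b j 2 y)
        have hJ' : B.Θ j = ∑ k ∈ F, qb ℂ k • ofRat (B.b j 2) (A k j) := by
          have := congrArg (evL j) hJ
          rw [map_sum] at this
          simp only [map_smul] at this
          exact this
        rw [hJ'] at h3
        simp only [LinearMap.sum_apply, map_sum, LinearMap.smul_apply, map_smul,
          smul_eq_mul] at h3
        rw [← Finset.sum_add_distrib] at h3
        rw [← h3]
        refine Finset.sum_congr rfl fun k _ => ?_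
        rw [← mul_add, gram_ofRat (B.rat j)]
      · have h1 := ht
        rw [IsHodge, hJ, ← Con.lieL_apply, map_sum, LinearMap.sum_apply] at h1
        have h2 : ∑ k ∈ F, qb ℂ k • C.vec (V := coh B.Y) B.b ((C.rm B.R (A k)).mulVec t) = 0 := by
          rw [← h1]
          refine Finset.sum_congr rfl fun k _ => ?_
          rw [map_smul, LinearMap.smul_apply, Con.lieL_apply, Con.lie_vec B.rat _ C hC]
        have h3 := B.sum_vec_zero (t := fun k => (C.rm B.R (A k)).mulVec t) h2 k hk
        rw [Con.lie_vec B.rat _ C hC, h3]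
        rw [Con.vec]
        simp
  intro A hA
  have h1 : A ∈ 𝔥 := (sInf_le h𝔥 : B.mt ≤ 𝔥) hA
  have h2 := h1.2
  rw [Con.lie_vec B.rat A C hC] at h2
  exact ⟨h1.1, Con.vec_eq_zero C h2⟩

lemma mt_kills [Finite J] {C : Con J} (hC : C.Below d) {t : C.Idx n → ℚ}
    (ht : B.IsHodge C t) :
    ∀ A ∈ B.mt, (C.rm B.R A).mulVec t = 0 := fun A hA => (B.mt_kills' hC ht A hA).2

lemma mt_skew [Finite J] : ∀ A ∈ B.mt, IsSkew (op B.b A) := fun A hA =>
  (B.mt_kills' (C := Con.unit) trivial (t := 0) (by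
    change (0 : Module.End ℂ ℂ) _ = 0
    rfl) A hA).1

/-- The operator `Θ` belongs to the complexification of the Lie algebra of the Mumford-Tate
group. -/
lemma theta_mem [Finite J] : B.Θ ∈ Submodule.span ℂ (op B.b '' B.mt) := by
  obtain ⟨F, hF⟩ := op_decomp B.b B.Θ
  rw [hF]
  refine Submodule.sum_mem _ fun k _ => Submodule.smul_mem _ _ (Submodule.subset_span
    ⟨crd B.b k B.Θ, ?_, rfl⟩)
  change crd B.b k B.Θ ∈ B.mt
  rw [mt, Submodule.mem_sInf]
  exact fun 𝔥 h𝔥 => crd_mem B.b h𝔥.mem k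

lemma theta_span [Finite J] {𝒮 : Set (MatTwo n)} (h : B.mt ≤ Submodule.span ℚ 𝒮) :
    B.Θ ∈ Submodule.span ℂ (op B.b '' 𝒮) := by
  refine (Submodule.span_le.2 ?_ : Submodule.span ℂ (op B.b '' B.mt) ≤ _) B.theta_mem
  rintro _ ⟨A, hA, rfl⟩
  exact op_span B.b (h hA)

/-- A rational tensor killed by elements which generate `Θ` is a Hodge class. -/
lemma isHodge_of {C : Con J} (hC : C.Below d) {t : C.Idx n → ℚ}
    {𝒮 : Set (MatTwo n)} (hJ : B.Θ ∈ Submodule.span ℂ (op B.b '' 𝒮))
    (ht : ∀ A ∈ 𝒮, (C.rm B.R A).mulVec t = 0) : B.IsHodge C t := by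
  have h1 : Submodule.span ℂ (op B.b '' 𝒮) ≤
      LinearMap.ker ((LinearMap.applyₗ (C.vec (V := coh B.Y) B.b t)) ∘ₗ C.lieL) := by
    rw [Submodule.span_le]
    rintro _ ⟨A, hA, rfl⟩
    change C.lie (op B.b A) (C.vec (V := coh B.Y) B.b t) = 0
    rw [Con.lie_vec B.rat A C hC, ht A hA, Con.vec]
    simp
  exact h1 hJ

end HodgeData

end Pool.Agent.J4H44.MF
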