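import Pool.Agent.J4H44.MF.B4
import Pool.Agent.J4H44.PM.A5

/-!
# Nilpotent parts of weight operators
-/

set_option autoImplicit false

namespace Pool.Agent.J4H44.MF

open Module Module.End Pool.Agent.N184.HK Pool.Agent.J4H44.PM
open scoped Classical


section

variable {Ω : Type} [Field Ω] [CharZero Ω] [IsAlgClosed Ω] [TopologicalSpace Ω]
  [IsTopologicalRing Ω] [T2Space Ω] {E : HKFamily Ω} {F : E.X.Auto} (hF : E.InClosure F)
  {W : Wt Ω} (hU : ∀ x, x ≠ 0 → W.U x)

omit [CharZero Ω] [IsAlgClosed Ω] [TopologicalSpace Ω] [IsTopologicalRing Ω] [T2Space Ω] in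
include hU in
lemma w_root {t : Ω} {m : ℕ} (hm : 0 < m) (ht : t ^ m = 1) : W.w t = 0 := by
  have ht0 : t ≠ 0 := by
    rintro rfl
    rw [zero_pow hm.ne'] at ht
    exact zero_ne_one ht
  have h1 := (w_pow W (hU 1 one_ne_zero) (hU t ht0) m).2
  rw [ht, w_one W (hU 1 one_ne_zero)] at h1
  rcases mul_eq_zero.1 h1.symm with h | h
  · exact absurd h (by exact_mod_cast hm.ne')
  · exact h

include hF hU in
/-- The operator `T` commutes with the commutant of `so(H²)`. -/
lemma T_cen' {i : ℕ} (hi : i ≤ E.d) (κ : ℚ) {a : Module.End Ω (E.X.H i)}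
    (ha : a ∈ cen E.X i) : Commute (F.T W i κ) a := by
  have hst : ∀ x ∈ cen E.X i, adE (F.φ i) x ∈ cen E.X i := fun x hx => cen_ad _ hx
  set T := F.T W i κ with hT
  have key : (LinearMap.mulLeft Ω T - LinearMap.mulRight Ω T) ∘ₗ (cen E.X i).subtype = 0 := by
    refine ext_gen ((adE (F.φ i)).restrict hst) fun t x hx => ?_
    rw [LinearMap.zero_apply]
    change T * (x : Module.End Ω (E.X.H i)) - (x : Module.End Ω (E.X.H i)) * T = 0
    have hx' : (x : Module.End Ω (E.X.H i)) ∈ (adE (F.φ i)).maxGenEigenspace t := by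
      rw [Module.End.mem_maxGenEigenspace] at hx ⊢
      obtain ⟨k, hk⟩ := hx
      refine ⟨k, ?_⟩
      have h2 : ∀ (k : ℕ) (x : cen E.X i),
          (((((adE (F.φ i)).restrict hst) - t • 1) ^ k) x :
            Module.End Ω (E.X.H i)) =
          ((adE (F.φ i) - t • 1) ^ k) (x : Module.End Ω (E.X.H i)) := by
        intro k
        induction k with
        | zero => intro x; rfl
        | succ k ih =>
          intro x
          rw [_root_.pow_succ, _root_.pow_succ, Module.End.mul_apply, Module.End.mul_apply, ih]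
          rfl
      rw [← h2, hk]
      rfl
    by_cases hx0 : (x : Module.End Ω (E.X.H i)) = 0
    · rw [hx0, mul_zero, zero_mul, sub_zero]
    have ht := cen_root E hi x.2 hx0 hF hx'
    have hw : W.w t = 0 := w_root hU (Nat.factorial_pos _) ht
    have h4 := T_ad (F := F) (W := W) (fun e he => hU e (root_ne he))
      (fun e he => hU e (root_ne he)) κ x.2 hx'
    rw [h4, Wt.k, hw, Rat.cast_zero, zero_smul]
  have h5 := congrArg (fun f => f ⟨a, ha⟩) key
  exact sub_eq_zero.1 h5

include hF hU in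
/-- The operator `T` is nilpotent. -/
lemma T_nil {i : ℕ} (hi : i ≤ E.d) : IsNilpotent (F.T W i (i * (W.w F.μ / 4))) := by
  set κ : ℚ := i * (W.w F.μ / 4) with hκ
  set T := F.T W i κ with hT
  have hUr : ∀ j, ∀ e ∈ (en (F.φ j)).charpoly.roots, W.U e := fun j e he => hU e (root_ne he)
  refine nil_of_roots fun x hx => ?_
  obtain ⟨z, n, hn, hzz, hz, htz, htTz⟩ := proj_spec hx
  have hzcen : z ∈ cen E.X i := fun A hA =>
    hz _ (T_comm (hUr 2) (hUr i) κ hA)
  have hzc : ∀ a ∈ cen E.X i, Commute a z := fun a ha => hz a (T_cen' hF hU hi κ ha).symm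
  have hzφ : Commute (en (F.φ i)) z := hz _ (T_comm_φ i _).symm
  obtain ⟨S, hS⟩ := orbit_fin E hzz fun σ => (hzc _ (cen_ad (E.F σ) hzcen)).symm
  -- linear functionals which separate `z` from its conjugates
  have hfun : ∀ w : Module.End Ω (E.X.H i), ∃ l : Module.End Ω (E.X.H i) →ₗ[Ω] Ω,
      w ≠ z → l (z - w) ≠ 0 := by
    intro w
    by_cases hw : w = z
    · exact ⟨0, fun h => absurd hw h⟩
    · by_contra hcon
      push Not at hcon
      exact hw (sub_eq_zero.1 ((Module.forall_dual_apply_eq_zero_iff Ω (z - w)).1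
        fun l => (hcon l).2)).symm
  choose l hl using hfun
  -- determinants
  have hcts : Rg fun F : E.X.Auto => en (F.φ i) * z + (1 - z) :=
    rg_add (rg_mul (rg_phi i) (rg_const z)) (rg_const _)
  have hg1 : (fun F : E.X.Auto => LinearMap.det (en (F.φ i) * z + (1 - z)) ^
      (4 * expo2 E.X i n) - F.μ ^ (i * n * expo2 E.X i n)) ∈ polyFun E.X :=
    (polyFun E.X).sub_mem ((polyFun E.X).pow_mem (det_mem hcts) _)
      ((polyFun E.X).pow_mem mu_mem _)
  have hg2 : (fun F : E.X.Auto => ∏ w ∈ S.erase z, l w (adE (F.φ i) z - w)) ∈ polyFun E.X :=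
    prod_mem' _ (fun w F => l w (adE (F.φ i) z - w)) fun w _ =>
      rg_sub (rg_adE i (rg_const z)) (rg_const w) (l w)
  have h0 := good_zero E ((polyFun E.X).mul_mem hg1 hg2) (fun σ r g => ?_) hF
  swap
  · by_cases hσ : adE ((E.F σ).φ i) z = z
    · have h1 := good_det E.two_le g hi hzcen hzz ((adE_eq_iff _ _).1 hσ) htz
      exact mul_eq_zero_of_left (sub_eq_zero.2 h1) _
    · refine mul_eq_zero_of_right _ (Finset.prod_eq_zero
        (Finset.mem_erase.2 ⟨hσ, hS σ⟩) ?_)
      rw [sub_self, map_zero]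
  have h0' : (LinearMap.det (en (F.φ i) * z + (1 - z)) ^ (4 * expo2 E.X i n) -
      F.μ ^ (i * n * expo2 E.X i n)) *
      ∏ w ∈ S.erase z, l w (adE (F.φ i) z - w) = 0 := h0
  have hne : ∏ w ∈ S.erase z, l w (adE (F.φ i) z - w) ≠ 0 := by
    rw [(adE_eq_iff _ _).2 hzφ]
    exact Finset.prod_ne_zero_iff.2 fun w hw => hl w (Finset.mem_erase.1 hw).1
  have hdet := sub_eq_zero.1 ((mul_eq_zero.1 h0').resolve_right hne)
  obtain ⟨s, hs, hcard, hsdet, htr⟩ := t_detp Ω _ _ z hzφ hzz
  rw [hsdet] at hdet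
  have hU1 : W.U 1 := hU 1 one_ne_zero
  have hUs : ∀ e ∈ s, W.U e := fun e he => hUr i e (hs e he)
  have h5 := w_prod W hU1 hUs
  have h6 := w_pow W hU1 h5.1 (4 * expo2 E.X i n)
  have h9 := w_pow W hU1 (hU F.μ F.μ_ne) (i * n * expo2 E.X i n)
  have h10 : (4 * expo2 E.X i n : ℚ) * (s.map W.w).sum = (i * n * expo2 E.X i n) * W.w F.μ := by
    have := congrArg W.w hdet
    rw [h6.2, h9.2, h5.2] at this
    push_cast at this
    exact this
  have hpos : (0 : ℚ) < expo2 E.X i n := by exact_mod_cast expo2_pos i n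
  have h11 : (s.map W.w).sum = κ * n := by
    have h12 : (4 * expo2 E.X i n : ℚ) * ((s.map W.w).sum - κ * n) = 0 := by
      rw [mul_sub, h10, hκ]; ring
    rcases mul_eq_zero.1 h12 with h | h
    · exfalso; linarith
    · linarith
  have h12 := htr W.k
  have h13 : (s.map W.k).sum = (((s.map W.w).sum : ℚ) : Ω) := cast_sum_map _ _
  rw [h13, h11, fop_split F W i κ, add_mul, add_mul, map_add, map_add,
    tr_rho_mul (skew_S2 (hUr 2)) (fun B hB => hzcen B hB), smul_mul_assoc,
    one_mul, map_smul, htz, smul_eq_mul, add_zero, ← hT, htTz] at h12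
  have h14 : x * n = 0 := by
    have h15 : ((κ * n : ℚ) : Ω) = (κ : Ω) * n := by
      rw [Rat.cast_mul, Rat.cast_natCast]
    rw [h15] at h12
    exact add_eq_left.1 h12
  rcases mul_eq_zero.1 h14 with h | h
  · exact h
  · exfalso
    have : n = 0 := by exact_mod_cast h
    omega

end

end Pool.Agent.J4H44.MF
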