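import Pool.Agent.J4H44.MF.B5
import Pool.Agent.J4H44.MF.B0

/-!
# Tate classes are Hodge classes
-/

set_option autoImplicit false

namespace Pool.Agent.J4H44.MF

open Module Module.End Pool.Agent.N184.HK Pool.Agent.J4H44.PM
open scoped Classical

section lin

variable {K H : Type} [Field K] [IsAlgClosed K] [AddCommGroup H] [Module K H]
  [FiniteDimensional K H]

lemma diag_gen {T : Module.End K H} (hT : (⨆ x : K, T.eigenspace x) = ⊤) {e : K} {x : H}
    (hx : x ∈ T.maxGenEigenspace e) : T x = e • x := by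
  have h1 : fop T (fun y => y) = T := by
    have h2 : (⨆ x : K, T.eigenspace x) ≤ LinearMap.eqLocus (fop T (fun y => y)) T := by
      refine iSup_le fun e x hx => ?_
      have h3 : x ∈ T.maxGenEigenspace e := by
        rw [Module.End.mem_maxGenEigenspace]
        refine ⟨1, ?_⟩
        rw [Module.End.mem_eigenspace_iff] at hx
        rw [pow_one, LinearMap.sub_apply, hx]
        exact sub_self _
      rw [Module.End.mem_eigenspace_iff] at hx
      change fop T (fun y => y) x = T x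
      rw [fop_apply _ h3, hx]
    rw [hT] at h2
    ext x
    exact h2 (Submodule.mem_top (x := x))
  rw [← h1, fop_apply _ hx]

omit [IsAlgClosed K] [FiniteDimensional K H] in
lemma diag_smul {T : Module.End K H} (hT : (⨆ x : K, T.eigenspace x) = ⊤) (r : K) :
    (⨆ x : K, (r • T).eigenspace x) = ⊤ := by
  rw [eq_top_iff, ← hT]
  refine iSup_le fun x => le_iSup_of_le (r * x) fun y hy => ?_
  rw [Module.End.mem_eigenspace_iff] at hy ⊢
  rw [LinearMap.smul_apply, hy, smul_smul]

/-- A nilpotent difference of commuting diagonalizable operators is zero. -/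
lemma nil_diff {φ D T : Module.End K H} {w : K → K} (hD : (⨆ x : K, D.eigenspace x) = ⊤)
    (h : fop φ w = D + T) (hT : IsNilpotent T) (hφ : Commute T φ) : T = 0 := by
  refine ext_gen φ fun e x hx => ?_
  rw [LinearMap.zero_apply]
  have hst : ∀ y ∈ φ.maxGenEigenspace e, T y ∈ φ.maxGenEigenspace e := fun y hy =>
    φ.mapsTo_maxGenEigenspace_of_comm hφ.symm e hy
  have h1 : ∀ (m : ℕ), ∀ y ∈ φ.maxGenEigenspace e, ((D - (w e) • (1 : Module.End K H)) ^ m) y =
      (-1 : K) ^ m • (T ^ m) y := by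
    intro m
    induction m with
    | zero => intro y _; simp
    | succ m ih =>
      intro y hy
      have h2 : (D - (w e) • (1 : Module.End K H)) y = -T y := by
        have h3 := congrArg (fun f : Module.End K H => f y) h
        simp only [LinearMap.add_apply] at h3
        rw [fop_apply w hy] at h3
        rw [LinearMap.sub_apply, LinearMap.smul_apply, Module.End.one_apply, h3]
        abel
      rw [_root_.pow_succ, Module.End.mul_apply, h2, map_neg, ih _ (hst y hy), _root_.pow_succ,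
        _root_.pow_succ, Module.End.mul_apply, mul_neg_one, neg_smul]
  obtain ⟨m, hm⟩ := hT
  have h2 : x ∈ D.maxGenEigenspace (w e) := by
    rw [Module.End.mem_maxGenEigenspace]
    refine ⟨m, ?_⟩
    rw [h1 m x hx, hm, LinearMap.zero_apply, smul_zero]
  have h3 := diag_gen hD h2
  have h4 := congrArg (fun f : Module.End K H => f x) h
  simp only [LinearMap.add_apply] at h4
  rw [fop_apply w hx, h3] at h4
  exact (left_eq_add.1 h4)

omit [IsAlgClosed K] [FiniteDimensional K H] in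
lemma nil_sum {ι : Type} (F : Finset ι) (a : ι → K) (T : ι → Module.End K H)
    (hc : ∀ k l, Commute (T k) (T l)) (hT : ∀ k, IsNilpotent (T k)) :
    IsNilpotent (∑ k ∈ F, a k • T k) := by
  induction F using Finset.induction_on with
  | empty => exact ⟨1, by simp⟩
  | insert k F hk ih =>
    rw [Finset.sum_insert hk]
    refine Commute.isNilpotent_add ?_ ?_ ih
    · refine Commute.smul_left ?_ _
      refine Commute.sum_right _ _ _ fun l _ => ?_
      exact (hc k l).smul_right _
    · obtain ⟨m, hm⟩ := hT k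
      exact ⟨m, by rw [smul_pow, hm, smul_zero]⟩

end lin

namespace HKMotive

variable {Ω : Type} [Field Ω] [CharZero Ω] [IsAlgClosed Ω] [TopologicalSpace Ω] {M : HKMotive Ω}

omit [CharZero Ω] [IsAlgClosed Ω] in
lemma inCl [IsTopologicalRing Ω] (σ : M.Γ) (j : M.E.J) :
    (M.E.fam j).InClosure (M.E.F σ j) := fun _ _ h => h σ

omit [IsAlgClosed Ω] in
lemma skew_toΩ {A : MatTwo M.n} (hA : A ∈ M.B.mt) : IsSkew (M.toΩ A) := fun j =>
  (skew_iff (M.rat j) (A j)).2 ((skew_iff (M.B.rat j) (A j)).1 (M.B.mt_skew A hA j))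

omit [IsAlgClosed Ω] in
lemma skew_mtΩ {A : M.End2} (hA : A ∈ M.mtΩ) : IsSkew A := by
  induction hA using Submodule.span_induction with
  | mem x h =>
    obtain ⟨A, hA, rfl⟩ := h
    exact skew_toΩ hA
  | zero => exact IsSkew.zero
  | add x y _ _ hx hy => exact hx.add hy
  | smul a x _ hx => exact hx.smul a

variable (L : M.MumfordTateTwo)

/-- The coefficients of the logarithm. -/
noncomputable def MumfordTateTwo.WL (k : Basis.ofVectorSpaceIndex ℚ Ω) : Wt Ω where
  U x := x ≠ 0
  ne _ h := h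
  mul _ _ := mul_ne_zero
  inv _ := inv_ne_zero
  w x := (qb Ω).repr (L.lg x) k
  w_mul x y hx hy := by rw [L.isLog x y hx hy, map_add, Finsupp.add_apply]

lemma lg_fop {H : Type} [AddCommGroup H] [Module Ω H] [FiniteDimensional Ω H]
    (T : Module.End Ω H) (F : Finset (Basis.ofVectorSpaceIndex ℚ Ω))
    (hF : ∀ e ∈ T.charpoly.roots, ((qb Ω).repr (L.lg e)).support ⊆ F) :
    fop T L.lg = ∑ k ∈ F, qb Ω k • fop T (L.WL k).k := by
  refine ext_gen T fun e x hx => ?_
  rw [LinearMap.sum_apply, fop_apply _ hx]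
  simp only [LinearMap.smul_apply, fop_apply _ hx]
  by_cases hx0 : x = 0
  · simp [hx0]
  have he : e ∈ T.charpoly.roots := ne_bot_iff.1 fun h => hx0 (by
    rw [h, Submodule.mem_bot] at hx; exact hx)
  have h1 := (qb Ω).linearCombination_repr (L.lg e)
  rw [Finsupp.linearCombination_apply, Finsupp.sum] at h1
  conv_lhs => rw [← h1]
  rw [Finset.sum_subset (hF e he) fun k _ hk => by
      rw [Finsupp.notMem_support_iff.1 hk, zero_smul], Finset.sum_smul]
  refine Finset.sum_congr rfl fun k _ => ?_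
  rw [smul_smul, Rat.smul_def, mul_comm]
  rfl

variable [IsTopologicalRing Ω] [T2Space Ω]

/-- The logarithms of the action on the cohomology are determined by the action on `H²`. -/
lemma log_eq {A : MatTwo M.n} (hA : A ∈ M.ssMt) {γ : M.Γ} {N : ℕ}
    (hγ : HasLog L.lg (M.E.F γ) ((N : Ω) • M.toΩ A)) (j : M.E.J) :
    L.lg (M.E.F γ j).μ = 0 ∧
      ∀ i ≤ M.E.d j, fop (en ((M.E.F γ j).φ i)) L.lg = (N : Ω) • (M.E.X j).ρ i (M.toΩ A j) := by
  set F' := M.E.F γ j with hF'
  have hγj : fop (en (F'.φ 2)) L.lg = (N : Ω) • M.toΩ A j := hγ.fop j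
  have hW : ∀ (k : Basis.ofVectorSpaceIndex ℚ Ω) (x : Ω), x ≠ 0 → (L.WL k).U x := fun k x hx => hx
  have hWr : ∀ k i, ∀ e ∈ (en (F'.φ i)).charpoly.roots, (L.WL k).U e :=
    fun k i e he => root_ne he
  have hmain : ∀ i ≤ M.E.d j, ∃ Fs : Finset (Basis.ofVectorSpaceIndex ℚ Ω),
      (∀ e ∈ (en (F'.φ i)).charpoly.roots, ((qb Ω).repr (L.lg e)).support ⊆ Fs) ∧
      (∀ e ∈ (en (F'.φ 2)).charpoly.roots, ((qb Ω).repr (L.lg e)).support ⊆ Fs) ∧
      ((qb Ω).repr (L.lg F'.μ)).support ⊆ Fs := by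
    intro i _
    refine ⟨((en (F'.φ i)).charpoly.roots.toFinset.biUnion fun e =>
      ((qb Ω).repr (L.lg e)).support) ∪ ((en (F'.φ 2)).charpoly.roots.toFinset.biUnion fun e =>
      ((qb Ω).repr (L.lg e)).support) ∪ ((qb Ω).repr (L.lg F'.μ)).support, ?_, ?_, ?_⟩
    · intro e he
      refine (Finset.subset_union_left.trans Finset.subset_union_left).trans' ?_
      exact Finset.subset_biUnion_of_mem (fun e => ((qb Ω).repr (L.lg e)).support)
        (Multiset.mem_toFinset.2 he)
    · intro e he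
      refine (Finset.subset_union_right.trans Finset.subset_union_left).trans' ?_
      exact Finset.subset_biUnion_of_mem (fun e => ((qb Ω).repr (L.lg e)).support)
        (Multiset.mem_toFinset.2 he)
    · exact Finset.subset_union_right
  have hsumμ : ∀ Fs : Finset (Basis.ofVectorSpaceIndex ℚ Ω),
      ((qb Ω).repr (L.lg F'.μ)).support ⊆ Fs →
      L.lg F'.μ = ∑ k ∈ Fs, qb Ω k * (((L.WL k).w F'.μ : ℚ) : Ω) := by
    intro Fs hFs
    have h1 := (qb Ω).linearCombination_repr (L.lg F'.μ)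
    rw [Finsupp.linearCombination_apply, Finsupp.sum] at h1
    conv_lhs => rw [← h1]
    rw [Finset.sum_subset hFs fun k _ hk => by
        rw [Finsupp.notMem_support_iff.1 hk, zero_smul]]
    refine Finset.sum_congr rfl fun k _ => ?_
    rw [Rat.smul_def, mul_comm]
    rfl
  -- the centred operators of `H²`
  have hS2 : ∀ Fs : Finset (Basis.ofVectorSpaceIndex ℚ Ω),
      (∀ e ∈ (en (F'.φ 2)).charpoly.roots, ((qb Ω).repr (L.lg e)).support ⊆ Fs) →
      ((qb Ω).repr (L.lg F'.μ)).support ⊆ Fs →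
      ∑ k ∈ Fs, qb Ω k • F'.S2 (L.WL k) = (N : Ω) • M.toΩ A j - (L.lg F'.μ / 2) • 1 := by
    intro Fs h1 h2
    rw [← hγj, lg_fop L _ Fs h1, hsumμ Fs h2, Finset.sum_div, Finset.sum_smul,
      ← Finset.sum_sub_distrib]
    refine Finset.sum_congr rfl fun k _ => ?_
    rw [Cohomology.Auto.S2, smul_sub, smul_smul]
    congr 2
    push_cast
    ring
  have hlg : L.lg F'.μ = 0 := by
    obtain ⟨Fs, -, h1, h2⟩ := hmain 2 (M.E.two_le j)
    have h3 := hS2 Fs h1 h2
    have h4 : Skew (M.E.X j).q (∑ k ∈ Fs, qb Ω k • F'.S2 (L.WL k)) := by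
      intro x y
      simp only [LinearMap.sum_apply, map_sum, LinearMap.smul_apply, map_smul]
      rw [← Finset.sum_add_distrib]
      refine Finset.sum_eq_zero fun k _ => ?_
      rw [← smul_add, skew_S2 (hWr k 2) x y, smul_zero]
    rw [h3] at h4
    have h5 : ∀ x y, L.lg F'.μ * (M.E.X j).q x y = 0 := by
      intro x y
      have h6 := h4 x y
      have h7 := skew_toΩ hA.1 j x y
      simp only [LinearMap.sub_apply, LinearMap.smul_apply, map_sub, map_smul, smul_eq_mul,
        Module.End.one_apply] at h6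
      linear_combination (N : Ω) * h7 - h6
    by_contra hne
    have h6 : ∀ x : (M.E.X j).H 2, x = 0 := fun x => (M.E.X j).nondeg.1 x fun y =>
      (mul_eq_zero.1 (h5 x y)).resolve_left hne
    have h7 := (M.E.X j).dim3
    have h8 : finrank Ω ((M.E.X j).H 2) = 0 := by
      have : Subsingleton ((M.E.X j).H 2) := ⟨fun x y => by rw [h6 x, h6 y]⟩
      exact Module.finrank_zero_of_subsingleton
    omega
  have hwμ : ∀ k, (L.WL k).w F'.μ = 0 := by
    intro k
    change (qb Ω).repr (L.lg F'.μ) k = 0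
    rw [hlg, map_zero, Finsupp.zero_apply]
  refine ⟨hlg, fun i hi => ?_⟩
  obtain ⟨Fs, h1, h2, h3⟩ := hmain i hi
  set T : Basis.ofVectorSpaceIndex ℚ Ω → Module.End Ω ((M.E.X j).H i) := fun k =>
    F'.T (L.WL k) i (i * ((L.WL k).w F'.μ / 4)) with hT
  have hTn : ∀ k, IsNilpotent (T k) := fun k => T_nil (inCl γ j) (hW k) hi
  have hTcen : ∀ k, T k ∈ cen (M.E.X j) i := fun k A hA => T_comm (hWr k 2) (hWr k i) _ hA
  have hTc : ∀ k l, Commute (T k) (T l) := fun k l =>
    T_cen' (inCl γ j) (hW k) hi _ (hTcen l)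
  have h4 : fop (en (F'.φ i)) L.lg =
      (N : Ω) • (M.E.X j).ρ i (M.toΩ A j) + ∑ k ∈ Fs, qb Ω k • T k := by
    have h5 := hS2 Fs h2 h3
    rw [hlg, zero_div, zero_smul, sub_zero] at h5
    rw [lg_fop L _ Fs h1, ← map_smul, ← h5, map_sum, ← Finset.sum_add_distrib]
    refine Finset.sum_congr rfl fun k _ => ?_
    rw [map_smul, ← smul_add]
    congr 1
    have h6 := fop_split F' (L.WL k) i (i * ((L.WL k).w F'.μ / 4))
    rw [h6, hwμ, zero_div, mul_zero, Rat.cast_zero, zero_smul, zero_add]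
    congr 1
    rw [hT]
    simp only [hwμ, zero_div, mul_zero]
  have h5 : IsNilpotent (∑ k ∈ Fs, qb Ω k • T k) := nil_sum Fs (fun k => qb Ω k) T hTc hTn
  have h6 : Commute (∑ k ∈ Fs, qb Ω k • T k) (en (F'.φ i)) := by
    refine Commute.sum_left _ _ _ fun k _ => ?_
    exact (T_comm_φ i _).smul_left _
  have h7 := nil_diff (diag_smul (hA.2 j i hi) (N : Ω)) h4 h5 h6
  rw [h4, h7, add_zero]

include L in
/-- Tate classes are killed by the semisimple elements of the Lie algebra of the Mumford-Tate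
group. -/
lemma tate_killed {C : M.Con} (hC : M.Below C) {r : ℤ}
    {v : (M.vs C).V} (hv : M.IsTate C r v) {A : MatTwo M.n}
    (hA : A ∈ M.ssMt) : C.lie (M.toΩ A) v = 0 := by
  obtain ⟨U, hUv⟩ := hv
  obtain ⟨γ, hγU, N, hN, hγ⟩ := L.log A hA U
  have hlog := log_eq L hA hγ
  obtain ⟨j0⟩ := M.E.ne
  have hlg := (hlog j0).1
  have hW1 : ∀ k : Basis.ofVectorSpaceIndex ℚ Ω, (L.WL k).U 1 := fun k => one_ne_zero
  have hWr : ∀ k, ∀ j, ∀ i ≤ M.E.d j, ∀ e ∈ (en ((M.E.F γ j).φ i)).charpoly.roots,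
      (L.WL k).U e := fun k j i _ e he => root_ne he
  have hv1 : M.act C γ v = M.tw γ r • v := hUv γ trivial hγU
  have hs0 : M.tw γ r ≠ 0 := Units.ne_zero _
  have hwchi : ∀ k, (L.WL k).w (M.tw γ r) = 0 := by
    intro k
    have h1 : (L.WL k).w (M.E.F γ j0).μ = 0 := by
      change (qb Ω).repr (L.lg (M.E.F γ j0).μ) k = 0
      rw [hlg, map_zero, Finsupp.zero_apply]
    rw [M.E.chi_sq] at h1
    have h2 : ∀ (x : Ωˣ) (m : ℕ), (L.WL k).w ((x ^ m : Ωˣ) : Ω) = m * (L.WL k).w (x : Ω) := by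
      intro x m
      rw [Units.val_pow_eq_pow_val]
      exact (w_pow (L.WL k) (hW1 k) (x := (x : Ω)) (Units.ne_zero x) m).2
    have h3 : (L.WL k).w ((M.E.chi γ : Ωˣ) : Ω) = 0 := by
      have h4 := (w_pow (L.WL k) (hW1 k) (x := (M.E.chi γ : Ω)) (Units.ne_zero _) 2).2
      rw [h1] at h4
      push_cast at h4
      linarith
    rw [tw]
    obtain ⟨m, rfl | rfl⟩ := r.eq_nat_or_neg
    · rw [zpow_natCast, h2, h3, mul_zero]
    · have h4 := (L.WL k).w_mul ((M.E.chi γ ^ (-(m : ℤ)) : Ωˣ) : Ω) ((M.E.chi γ ^ m : Ωˣ) : Ω)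
        (Units.ne_zero _) (Units.ne_zero _)
      rw [← Units.val_mul, zpow_neg, zpow_natCast, inv_mul_cancel, h2, h3, mul_zero,
        add_zero] at h4
      rw [zpow_neg, zpow_natCast, ← h4]
      exact w_one _ (hW1 k)
  have hvg : v ∈ (en (M.act C γ)).maxGenEigenspace (M.tw γ r) := by
    rw [Module.End.mem_maxGenEigenspace]
    refine ⟨1, ?_⟩
    rw [pow_one, LinearMap.sub_apply]
    change M.act C γ v - M.tw γ r • v = 0
    rw [hv1, sub_self]
  have h1 : ∀ k, C.der (V := coh M.E.X)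
      (fun j i => fop (en ((M.E.F γ j).φ i)) (L.WL k).k) v = 0 := by
    intro k
    rw [← Con.fop_act (V := coh M.E.X) (hW1 k) (hWr k) C hC, fop_apply _ hvg, Wt.k, hwchi,
      Rat.cast_zero, zero_smul]
  -- recombine
  haveI := Fintype.ofFinite M.E.J
  set Fs : Finset (Basis.ofVectorSpaceIndex ℚ Ω) := Finset.univ.biUnion fun j : M.E.J =>
    (Finset.range (M.E.d j + 1)).biUnion fun i =>
    (en ((M.E.F γ j).φ i)).charpoly.roots.toFinset.biUnion fun e =>
      ((qb Ω).repr (L.lg e)).support with hFs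
  have h2 : ∀ j, ∀ i ≤ M.E.d j, (∑ k ∈ Fs, qb Ω k • fop (en ((M.E.F γ j).φ i)) (L.WL k).k) =
      (N : Ω) • (M.E.X j).ρ i (M.toΩ A j) := by
    intro j i hi'
    rw [← (hlog j).2 i hi', lg_fop L _ Fs fun e he => ?_]
    refine Finset.Subset.trans ?_ (Finset.subset_biUnion_of_mem (fun j : M.E.J =>
      (Finset.range (M.E.d j + 1)).biUnion fun i =>
      (en ((M.E.F γ j).φ i)).charpoly.roots.toFinset.biUnion fun e =>
        ((qb Ω).repr (L.lg e)).support)
      (Finset.mem_univ j))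
    refine Finset.Subset.trans ?_ (Finset.subset_biUnion_of_mem (fun i =>
      (en ((M.E.F γ j).φ i)).charpoly.roots.toFinset.biUnion fun e =>
        ((qb Ω).repr (L.lg e)).support)
      (Finset.mem_range.2 (Nat.lt_succ_of_le hi')))
    exact Finset.subset_biUnion_of_mem (fun e => ((qb Ω).repr (L.lg e)).support)
      (Multiset.mem_toFinset.2 he)
  have h3 : C.der (V := coh M.E.X)
      (fun j i => ∑ k ∈ Fs, qb Ω k • fop (en ((M.E.F γ j).φ i)) (L.WL k).k) =
      ∑ k ∈ Fs, qb Ω k • C.der (V := coh M.E.X)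
        (fun j i => fop (en ((M.E.F γ j).φ i)) (L.WL k).k) := by
    clear h2
    clear_value Fs
    clear hFs
    induction Fs using Finset.induction_on with
    | empty =>
      simp only [Finset.sum_empty]
      have := Con.der_smul (V := coh M.E.X) (0 : Ω)
        (fun j i => (0 : Module.End Ω ((M.E.X j).H i))) C
      simpa using this
    | insert k s hk ih =>
      simp only [Finset.sum_insert hk]
      have e1 := Con.der_add (V := coh M.E.X)
        (fun j i => qb Ω k • fop (en ((M.E.F γ j).φ i)) (L.WL k).k)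
        (fun j i => ∑ k ∈ s, qb Ω k • fop (en ((M.E.F γ j).φ i)) (L.WL k).k) C
      have e2 := Con.der_smul (V := coh M.E.X) (qb Ω k)
        (fun j i => fop (en ((M.E.F γ j).φ i)) (L.WL k).k) C
      rw [e1, e2, ih]
  have h4 : C.der (V := coh M.E.X)
      (fun j i => ∑ k ∈ Fs, qb Ω k • fop (en ((M.E.F γ j).φ i)) (L.WL k).k) v = 0 := by
    rw [h3, LinearMap.sum_apply]
    refine Finset.sum_eq_zero fun k _ => ?_
    rw [LinearMap.smul_apply, h1, smul_zero]
  have h5 := Con.der_congr (V := coh M.E.X) h2 C hC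
  have h6 := Con.der_smul (V := coh M.E.X) (N : Ω) (fun j i => (M.E.X j).ρ i (M.toΩ A j)) C
  rw [h5, h6] at h4
  have hN0 : (N : Ω) ≠ 0 := by exact_mod_cast hN.ne'
  exact (smul_eq_zero.1 h4).resolve_left hN0

include L in
/-- Tate classes are combinations of Hodge classes. -/
theorem tate_hodge (hr : M.Reductive) {C : M.Con} (hC : M.Below C) {r : ℤ}
    {v : (M.vs C).V} (hv : M.IsTate C r v) : v ∈ M.hodge C := by
  have h1 := Con.rat_span M.rat C hC (𝒮 := M.ssMt) (v := v)
    fun A hA => tate_killed L hC hv hA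
  refine Submodule.span_mono ?_ h1
  rintro _ ⟨t, ht, rfl⟩
  exact ⟨t, M.B.isHodge_of hC (M.B.theta_span hr.span) ht, rfl⟩

end HKMotive

end Pool.Agent.J4H44.MF
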