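import Pool.Agent.J4H44.MF.B5

/-!
# Frobenius eigenvalues on the vectors killed by the Lie algebra of the Mumford-Tate group
-/

set_option autoImplicit false

namespace Pool.Agent.J4H44.MF

open Module Module.End Polynomial Pool.Agent.N184.HK Pool.Agent.J4H44.PM
open scoped Classical

/-- `y` is an algebraic number of weight `w` and degree at most `B`, a unit outside of `p`. -/
structure Wl (p : ℕ) (w : ℤ) (B : ℕ) (y : QQ) : Prop where
  ne : y ≠ 0
  norm : ∀ τ : QQ →+* ℂ, ‖τ y‖ ^ 2 = (p : ℝ) ^ w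
  int : ∃ k : ℕ, IsIntegral ℤ ((p : QQ) ^ k * y)
  inv : ∃ k : ℕ, IsIntegral ℤ ((p : QQ) ^ k * y⁻¹)
  deg : ∃ E : IntermediateField ℚ QQ, FiniteDimensional ℚ E ∧ finrank ℚ E ≤ B ∧ y ∈ E

lemma Wl_one (p : ℕ) : Wl p 0 1 1 where
  ne := one_ne_zero
  norm τ := by rw [map_one, norm_one, one_pow, zpow_zero]
  int := ⟨0, by rw [pow_zero, one_mul]; exact isIntegral_one⟩
  inv := ⟨0, by rw [pow_zero, one_mul, inv_one]; exact isIntegral_one⟩
  deg := ⟨⊥, inferInstance, by rw [IntermediateField.finrank_bot], one_mem _⟩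

lemma Wl_div {p : ℕ} (hp : 0 < p) {w w' : ℤ} {B B' : ℕ} {y y' : QQ} (h : Wl p w B y)
    (h' : Wl p w' B' y') : Wl p (w' - w) (B * B') (y' / y) where
  ne := div_ne_zero h'.ne h.ne
  norm τ := by
    have hp0 : (p : ℝ) ≠ 0 := by exact_mod_cast hp.ne'
    rw [map_div₀, norm_div, div_pow, h.norm, h'.norm, zpow_sub₀ hp0]
  int := by
    obtain ⟨k, hk⟩ := h'.int
    obtain ⟨l, hl⟩ := h.inv
    refine ⟨k + l, ?_⟩
    have : (p : QQ) ^ (k + l) * (y' / y) = ((p : QQ) ^ k * y') * ((p : QQ) ^ l * y⁻¹) := by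
      rw [pow_add, div_eq_mul_inv]; ring
    rw [this]
    exact hk.mul hl
  inv := by
    obtain ⟨k, hk⟩ := h.int
    obtain ⟨l, hl⟩ := h'.inv
    refine ⟨k + l, ?_⟩
    have : (p : QQ) ^ (k + l) * (y' / y)⁻¹ = ((p : QQ) ^ k * y) * ((p : QQ) ^ l * y'⁻¹) := by
      rw [pow_add, inv_div, div_eq_mul_inv]; ring
    rw [this]
    exact hk.mul hl
  deg := by
    obtain ⟨E, hE1, hE2, hE3⟩ := h.deg
    obtain ⟨E', hE1', hE2', hE3'⟩ := h'.deg
    refine ⟨E ⊔ E', inferInstance, ?_, ?_⟩
    · exact (IntermediateField.finrank_sup_le _ _).trans (Nat.mul_le_mul hE2 hE2')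
    · exact div_mem (SetLike.le_def.mp le_sup_right hE3') (SetLike.le_def.mp le_sup_left hE3)

namespace Con

/-- The bound for the degrees of the Frobenius eigenvalues. -/
noncomputable def dg {K J : Type} [Field K] {d : J → ℕ} {c : J → ℚ}
    (X : ∀ s, Cohomology K (d s) (c s)) : Con J → ℕ
  | unit => 1
  | H s i => finrank K ((X s).H i)
  | hom S T => S.dg X * T.dg X

end Con

section good

variable {Ω : Type} [Field Ω] [CharZero Ω] [IsAlgClosed Ω] {d : ℕ} {c : ℚ}
  {X : Cohomology Ω d c} {F : X.Auto} {p : ℕ} (g : PM.GoodFrobenius F p) (j : QQ →+* Ω)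

include g in
lemma Wl_H {i : ℕ} (hi : i ≤ d) {t : Ω} (ht : t ∈ (en (F.φ i)).charpoly.roots) :
    ∃ y, Wl p i (finrank Ω (X.H i)) y ∧ j y = t := by
  have ht0 := root_ne ht
  rw [roots_frob g j hi] at ht
  obtain ⟨y, hy, rfl⟩ := Multiset.mem_map.1 ht
  have hP := g.weilPoly i hi
  have hint : ∀ y ∈ ((g.poly i).map (Int.castRingHom QQ)).roots, IsIntegral ℤ y := by
    intro y hy
    rw [mem_roots (hP.1.map _).ne_zero, IsRoot.def, eval_map] at hy
    exact ⟨g.poly i, hP.1, hy⟩
  have hdeg : (g.poly i).natDegree = finrank Ω (X.H i) := by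
    have h6 := LinearMap.charpoly_natDegree (en (F.φ i))
    rw [g.frobPoly i hi, natDegree_map_eq_of_injective (RingHom.injective_int _)] at h6
    exact h6
  refine ⟨y, ⟨fun h => ht0 (by rw [h, map_zero]), fun τ => ?_, ⟨0, ?_⟩, ⟨i, ?_⟩, ?_⟩, rfl⟩
  · rw [zpow_natCast]
    exact hP.2 _ (P_ARITH.root_map hP.1 τ hy)
  · rw [pow_zero, one_mul]
    exact hint y hy
  · have hrec := t_rec QQ p i g.prime.pos (g.poly i) hP.1 hP.2 y hy
    rw [← div_eq_mul_inv]
    exact hint _ hrec
  · obtain ⟨E, hE1, hE2, hE3⟩ := P_ARITH.exists_field hP.1 {y} (by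
      intro z hz
      rw [Multiset.mem_singleton] at hz
      rw [hz]
      exact hy)
    rw [Multiset.card_singleton, pow_one, hdeg] at hE2
    rw [Multiset.prod_singleton] at hE3
    exact ⟨E, hE1, hE2, hE3⟩

end good

section goodFam

variable {Ω J : Type} [Field Ω] [CharZero Ω] [IsAlgClosed Ω] {d : J → ℕ} {c : J → ℚ}
  {X : ∀ s, Cohomology Ω (d s) (c s)} {F : ∀ s, (X s).Auto} {p : ℕ}
  (g : MF.GoodFrobenius F p) (j : QQ →+* Ω)

include g in
/-- The Frobenius eigenvalues on the constructions. -/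
lemma Wl_act : (C : Con J) → C.Below d →
    ∀ t ∈ (en (C.act (V := coh X) fun s => (F s).φ)).charpoly.roots,
    ∃ y, Wl p C.wt (C.dg X) y ∧ j y = t
  | Con.unit, _ => by
    intro e he
    have h2 : e ∈ (en (LinearEquiv.refl Ω Ω)).charpoly.roots := he
    have h3 : e = 1 := by
      have h4 : (en (LinearEquiv.refl Ω Ω)).maxGenEigenspace e ≠ ⊥ := ne_bot_iff.2 h2
      obtain ⟨x, hx, hx0⟩ := (Submodule.ne_bot_iff _).1 h4
      rw [Module.End.mem_maxGenEigenspace] at hx
      obtain ⟨k, hk⟩ := hx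
      have h5 : en (LinearEquiv.refl Ω Ω) - e • 1 = (1 - e) • (1 : Module.End Ω Ω) := by
        refine LinearMap.ext fun z => ?_
        change z - e • z = (1 - e) • z
        rw [sub_smul, one_smul]
      rw [h5, _root_.smul_pow, one_pow, LinearMap.smul_apply, Module.End.one_apply] at hk
      have h6 := (smul_eq_zero.1 hk).resolve_right hx0
      exact (sub_eq_zero.1 (eq_zero_of_pow_eq_zero h6)).symm
    exact ⟨1, Wl_one p, by rw [map_one, h3]⟩
  | Con.H s i, hi => fun t ht => Wl_H (g.at s) j hi ht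
  | Con.hom S T, hC => by
    intro t ht
    obtain ⟨e, he, e', he', hte⟩ := hroot (φ := S.act (V := coh X) fun s => (F s).φ)
      (ψ := T.act (V := coh X) fun s => (F s).φ) ht
    obtain ⟨y, hy, hje⟩ := Wl_act S hC.1 e he
    obtain ⟨y', hy', hje'⟩ := Wl_act T hC.2 e' he'
    refine ⟨y' / y, Wl_div g.prime.pos hy hy', ?_⟩
    rw [map_div₀, hje, hje', ← hte, mul_div_assoc, div_self (root_ne he), mul_one]

include g in
/-- The `p`-adic valuations of the Frobenius eigenvalues on the vectors killed by the slope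
operator of `H²`. -/
lemma val_killed (hd : ∀ s, 2 ≤ d s) (ι : QQ →+* g.place.C) {C : Con J} (hC : C.Below d)
    {v : (C.vs (coh X)).V} (hv0 : v ≠ 0) {y : QQ}
    (hv : C.lie (weightOp F (WI j ι g.place.val)) v = 0)
    (hgen : v ∈ (en (C.act (V := coh X) fun s => (F s).φ)).maxGenEigenspace (j y)) :
    (g.place.val (ι y)).untopD 0 = C.wt / 2 := by
  set U := WI j ι g.place.val with hUdef
  have h1 : U.U 1 := ⟨1, one_ne_zero, map_one j⟩
  have hU : ∀ s, ∀ i ≤ d s, ∀ e ∈ (en ((F s).φ i)).charpoly.roots, U.U e := fun s i hi =>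
    U_frob (g.at s) j ι _ hi
  have h2 := congrArg (fun f : Module.End Ω (C.vs (coh X)).V => f v)
    (Con.fop_act_split h1 hU (κ := 1 / 2) C hC)
  simp only [LinearMap.add_apply, LinearMap.smul_apply, Module.End.one_apply] at h2
  rw [fop_apply _ hgen, hv, add_zero] at h2
  have hnil : IsNilpotent (C.der (V := coh X) (fun s i => (F s).T U i (i * (1 / 2)))) := by
    refine Con.der_nil (V := coh X) (fun s i hi => ?_) C hC
    have h3 := good_nil (hd s) (g.at s) j ι hi
    rw [mul_one_div]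
    exact h3
  have h3 : (C.der (V := coh X) (fun s i => (F s).T U i (i * (1 / 2)))) v =
      (U.k (j y) - (((C.wt : ℚ) * (1 / 2) : ℚ) : Ω)) • v := by
    rw [sub_smul, h2]
    abel
  have h4 : ∀ m : ℕ, ((C.der (V := coh X) (fun s i => (F s).T U i (i * (1 / 2)))) ^ m) v =
      (U.k (j y) - (((C.wt : ℚ) * (1 / 2) : ℚ) : Ω)) ^ m • v := by
    intro m
    induction m with
    | zero => rw [pow_zero, pow_zero, one_smul]; rfl
    | succ m ih =>
      rw [pow_succ, Module.End.mul_apply, h3, map_smul, ih, smul_smul, pow_succ', ]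
  obtain ⟨m, hm⟩ := hnil
  have h5 := h4 m
  rw [hm, LinearMap.zero_apply] at h5
  have h6 := (smul_eq_zero.1 h5.symm).resolve_right hv0
  have h7 := sub_eq_zero.1 (eq_zero_of_pow_eq_zero h6)
  have h8 : U.w (j y) = (C.wt : ℚ) * (1 / 2) := by
    rw [Wt.k] at h7
    exact_mod_cast h7
  rw [hUdef, WI_w] at h8
  rw [h8]
  ring

include g in
/-- The Frobenius eigenvalues on the vectors killed by the slope operators of `H²` are roots of
unity after the Tate twist. -/
lemma eig_killed (hd : ∀ s, 2 ≤ d s) {C : Con J} (hC : C.Below d) {r : ℤ} (hr : C.wt = 2 * r)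
    {v : (C.vs (coh X)).V} (hv0 : v ≠ 0) {t : Ω}
    (hv : ∀ ι : QQ →+* g.place.C, C.lie (weightOp F (WI j ι g.place.val)) v = 0)
    (hgen : v ∈ (en (C.act (V := coh X) fun s => (F s).φ)).maxGenEigenspace t) :
    (t / (p : Ω) ^ r) ^ (2 * C.dg X).factorial = 1 := by
  have ht : t ∈ (en (C.act (V := coh X) fun s => (F s).φ)).charpoly.roots :=
    ne_bot_iff.1 fun h => hv0 (by
    rw [h, Submodule.mem_bot] at hgen; exact hgen)
  obtain ⟨y, hy, rfl⟩ := Wl_act g j C hC t ht
  have hp := g.prime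
  have hp0 : (p : QQ) ≠ 0 := by exact_mod_cast hp.ne_zero
  have hpR : (p : ℝ) ≠ 0 := by exact_mod_cast hp.ne_zero
  have h1 : (y / (p : QQ) ^ r) ^ (2 * C.dg X).factorial = 1 := by
    refine t_root QQ g.place.C p hp g.place.val (by rw [g.place.norm]; exact zero_lt_one) _
      (fun τ => ?_) ?_ (fun ι => ?_) _ ?_
    · have h2 : ‖τ (y / (p : QQ) ^ r)‖ ^ 2 = 1 := by
        rw [map_div₀, map_zpow₀, map_natCast, norm_div, norm_zpow, div_pow, hy.norm,
          Complex.norm_natCast, hr, ← zpow_natCast, ← zpow_mul, mul_comm r, Nat.cast_ofNat,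
          div_self (zpow_ne_zero _ hpR)]
      exact (pow_eq_one_iff_of_nonneg (norm_nonneg _) two_ne_zero).mp h2
    · obtain ⟨k, hk⟩ := hy.int
      obtain ⟨m, hm⟩ := Int.eq_ofNat_of_zero_le (a := (r.natAbs : ℤ) - r) (by omega)
      refine ⟨k + r.natAbs, ?_⟩
      have h2 : (p : QQ) ^ (k + r.natAbs) * (y / (p : QQ) ^ r) =
          (p : QQ) ^ m * ((p : QQ) ^ k * y) := by
        have h3 : (p : QQ) ^ r.natAbs / (p : QQ) ^ r = (p : QQ) ^ m := by
          rw [← zpow_natCast, ← zpow_natCast, ← zpow_sub₀ hp0, hm]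
        rw [← h3, pow_add]
        ring
      rw [h2]
      refine IsIntegral.mul (IsIntegral.pow ?_ _) hk
      exact isIntegral_algebraMap (R := ℤ) (x := (p : ℤ)) |> fun h => by simpa using h
    · have h2 := val_killed g j hd ι hC hv0 (hv ι) hgen
      have h3 : ι (y / (p : QQ) ^ r) ≠ 0 :=
        (map_ne_zero ι).2 (div_ne_zero hy.ne (zpow_ne_zero _ hp0))
      have hU1 : (WI j ι g.place.val).U 1 := ⟨1, one_ne_zero, map_one j⟩
      have hUp : (WI j ι g.place.val).U (p : Ω) := ⟨(p : QQ), hp0, map_natCast j _⟩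
      have h9 : (WI j ι g.place.val).w (p : Ω) = 1 := by
        have h10 := WI_w j ι g.place.val (p : QQ)
        rw [map_natCast, map_natCast, g.place.norm] at h10
        exact h10
      have h4 : (g.place.val (ι (y / (p : QQ) ^ r))).untopD 0 = 0 := by
        rw [← WI_w j ι g.place.val, map_div₀, map_zpow₀, map_natCast]
        have hUy : (WI j ι g.place.val).U (j y) := ⟨y, hy.ne, rfl⟩
        have hzp : (WI j ι g.place.val).U ((p : Ω) ^ r) ∧
            (WI j ι g.place.val).w ((p : Ω) ^ r) = r := by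
          obtain ⟨m, rfl | rfl⟩ := r.eq_nat_or_neg
          · have h5 := w_pow _ hU1 hUp m
            rw [zpow_natCast]
            refine ⟨h5.1, ?_⟩
            rw [h5.2, h9]
            push_cast
            ring
          · have h5 := w_pow _ hU1 hUp m
            have h6 := w_div _ hU1 hU1 h5.1
            rw [one_div, w_one _ hU1] at h6
            rw [zpow_neg, zpow_natCast]
            refine ⟨h6.1, ?_⟩
            rw [h6.2, h5.2, h9]
            push_cast
            ring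
        have h5 := w_div _ hU1 hUy hzp.1
        rw [h5.2, hzp.2, WI_w, h2, hr]
        push_cast
        ring
      rw [← val_untop _ h3, h4]
      exact le_rfl
    · obtain ⟨E, hE1, hE2, hE3⟩ := hy.deg
      have hθ : y / (p : QQ) ^ r ∈ E := div_mem hE3 (zpow_mem (natCast_mem E p) r)
      have e := IntermediateField.minpoly_eq (K := ℚ) (S := E) (⟨_, hθ⟩ : E)
      have h1 : (minpoly ℚ (y / (p : QQ) ^ r)).natDegree ≤ finrank ℚ E := by
        have e' : minpoly ℚ (y / (p : QQ) ^ r) = _ := e.symm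
        rw [e']
        exact minpoly.natDegree_le _
      exact h1.trans hE2
  have h2 := congrArg j h1
  rw [map_pow, map_div₀, map_zpow₀, map_natCast, map_one] at h2
  exact h2

end goodFam

end Pool.Agent.J4H44.MF
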