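import Pool.Agent.H914R2.Core0
import Pool.Agent.J4H44.PM.A1

/-!
# Quasi-unipotent representations with trivial additive characters

Kolchin's theorem, and the triviality on an open subgroup of quasi-unipotent representations of a
Galois group.
-/

set_option autoImplicit false

namespace Pool.Agent.J4H44.MF

open Module Module.End Pool.Agent.N184.HK Pool.Agent.J4H44.PM
open scoped Classical

section kolchin

variable {K V G : Type} [Field K] [CharZero K] [AddCommGroup V] [Module K V]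
  [FiniteDimensional K V] [Group G]

omit [CharZero K] [FiniteDimensional K V] in
/-- The span of the operators `ρ g - 1` is closed under multiplication. -/
lemma span_mul (ρ : G →* Module.End K V) (S : Subgroup G) {a b : Module.End K V}
    (ha : a ∈ Submodule.span K {a | ∃ g ∈ S, a = ρ g - 1})
    (hb : b ∈ Submodule.span K {a | ∃ g ∈ S, a = ρ g - 1}) :
    a * b ∈ Submodule.span K {a | ∃ g ∈ S, a = ρ g - 1} := by
  induction ha using Submodule.span_induction with
  | zero => rw [zero_mul]; exact Submodule.zero_mem _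
  | add x y _ _ hx hy => rw [add_mul]; exact Submodule.add_mem _ hx hy
  | smul r x _ hx => rw [smul_mul_assoc]; exact Submodule.smul_mem _ r hx
  | mem x hx =>
    obtain ⟨g, hg, rfl⟩ := hx
    induction hb using Submodule.span_induction with
    | zero => rw [mul_zero]; exact Submodule.zero_mem _
    | add x y _ _ hx hy => rw [mul_add]; exact Submodule.add_mem _ hx hy
    | smul r x _ hx => rw [mul_smul_comm]; exact Submodule.smul_mem _ r hx
    | mem y hy =>
      obtain ⟨h, hh, rfl⟩ := hy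
      have h1 : (ρ g - 1) * (ρ h - 1) = (ρ (g * h) - 1) - (ρ g - 1) - (ρ h - 1) := by
        rw [map_mul, sub_mul, mul_sub, mul_one, one_mul]
        abel
      rw [h1]
      refine Submodule.sub_mem _ (Submodule.sub_mem _ ?_ ?_) ?_
      · exact Submodule.subset_span ⟨g * h, S.mul_mem hg hh, rfl⟩
      · exact Submodule.subset_span ⟨g, hg, rfl⟩
      · exact Submodule.subset_span ⟨h, hh, rfl⟩

attribute [local instance 100] LieRing.ofAssociativeRing

/-- Kolchin's theorem: for a group of unipotent operators on `V` and a subspace `W ≠ V` there is a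
vector which is not in `W` and fixed modulo `W`. -/
lemma kolchin (ρ : G →* Module.End K V) (S : Subgroup G) (h : ∀ g ∈ S, IsNilpotent (ρ g - 1))
    {W : Submodule K V} (hW : W ≠ ⊤) : ∃ x ∉ W, ∀ g ∈ S, ρ g x - x ∈ W := by
  set N : Submodule K (Module.End K V) := Submodule.span K {a | ∃ g ∈ S, a = ρ g - 1} with hN
  have hmul : ∀ a ∈ N, ∀ b ∈ N, a * b ∈ N := fun a ha b hb => span_mul ρ S ha hb
  have htr : ∀ a ∈ N, LinearMap.trace K V a = 0 := by
    intro a ha
    induction ha using Submodule.span_induction with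
    | zero => exact map_zero _
    | add x y _ _ hx hy => rw [map_add, hx, hy, add_zero]
    | smul r x _ hx => rw [map_smul, hx, smul_zero]
    | mem x hx =>
      obtain ⟨g, hg, rfl⟩ := hx
      exact (LinearMap.isNilpotent_trace_of_isNilpotent (h g hg)).eq_zero
  have hpow : ∀ a ∈ N, ∀ r : ℕ, a ^ (r + 1) ∈ N := by
    intro a ha r
    induction r with
    | zero => rw [zero_add, pow_one]; exact ha
    | succ r ih => rw [pow_succ]; exact hmul _ ih _ ha
  have hnil : ∀ a ∈ N, IsNilpotent a := fun a ha =>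
    Pool.Agent.H914.isNilpotent_of_trace_pow a fun r => htr _ (hpow a ha r)
  let L : LieSubalgebra K (Module.End K V) :=
    { N with
      lie_mem' := fun {a b} ha hb => by
        rw [Ring.lie_def]
        exact N.sub_mem (hmul a ha b hb) (hmul b hb a ha) }
  have hLn : LieModule.IsNilpotent L V := by
    rw [LieModule.isNilpotent_iff_forall' (R := K)]
    rintro ⟨a, ha⟩
    have h1 : LieModule.toEnd K L V ⟨a, ha⟩ = a := by
      ext x
      rfl
    rw [h1]
    exact hnil a ha
  obtain ⟨k, hk⟩ := (LieModule.isNilpotent_iff K L V).1 hLn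
  have hex : ∃ k, (LieModule.lowerCentralSeries K L V k : Submodule K V) ≤ W :=
    ⟨k, by rw [hk]; exact bot_le⟩
  have hmin := Nat.find_spec hex
  have hnot : Nat.find hex ≠ 0 := by
    intro h0
    rw [h0, LieModule.lowerCentralSeries_zero] at hmin
    exact hW (top_le_iff.1 hmin)
  obtain ⟨j, hj⟩ := Nat.exists_eq_succ_of_ne_zero hnot
  have hj' := Nat.find_min hex (m := j) (by omega)
  rw [hj, Nat.succ_eq_add_one, LieModule.lowerCentralSeries_succ] at hmin
  obtain ⟨x, hx, hxW⟩ := Set.not_subset.1 hj'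
  refine ⟨x, hxW, fun g hg => ?_⟩
  have hg' : ρ g - 1 ∈ N := Submodule.subset_span ⟨g, hg, rfl⟩
  have h1 := LieSubmodule.lie_mem_lie (I := (⊤ : LieIdeal K L)) (x := ⟨ρ g - 1, hg'⟩)
    (LieSubmodule.mem_top _) hx
  exact hmin h1

end kolchin

section unipotent

variable {K V : Type} [Field K] [CharZero K] [AddCommGroup V] [Module K V]

omit [CharZero K] in
lemma top_pow {N : Module.End K V} (hN : IsNilpotent N) (h0 : N ≠ 0) :
    ∃ k, 0 < k ∧ N ^ k ≠ 0 ∧ N ^ (k + 1) = 0 := by
  have h1 := Nat.find_spec hN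
  have h2 : 2 ≤ Nat.find hN := by
    by_contra hcon
    have h3 : Nat.find hN = 0 ∨ Nat.find hN = 1 := by omega
    rcases h3 with h3 | h3
    · rw [h3, pow_zero] at h1
      exact h0 (by rw [← mul_one N, h1, mul_zero])
    · rw [h3, pow_one] at h1
      exact h0 h1
  obtain ⟨j, hj⟩ : ∃ j, Nat.find hN = j + 1 := ⟨Nat.find hN - 1, by omega⟩
  refine ⟨j, by omega, Nat.find_min hN (by omega), ?_⟩
  rw [hj] at h1
  exact h1

omit [CharZero K] in
/-- The leading term of a power of a unipotent operator. -/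
lemma pow_lead {T : Module.End K V} {k : ℕ} (hk : (T - 1) ^ (k + 1) = 0) (q : ℕ) :
    (T - 1) ^ k * (T ^ q - 1) ^ k = ((q : K) ^ k) • ((T - 1) ^ k * (T - 1) ^ k) ∧
    (T ^ q - 1) ^ k = ((q : K) ^ k) • (T - 1) ^ k := by
  have h1 : (T - 1) ^ k * T = (T - 1) ^ k := by
    have h2 : (T - 1) ^ k * T = (T - 1) ^ (k + 1) + (T - 1) ^ k := by
      rw [pow_succ, mul_sub, mul_one]
      abel
    rw [h2, hk, zero_add]
  have h2 : ∀ i : ℕ, (T - 1) ^ k * T ^ i = (T - 1) ^ k := by
    intro i
    induction i with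
    | zero => rw [pow_zero, mul_one]
    | succ i ih => rw [pow_succ, ← mul_assoc, ih, h1]
  have h3 : (T - 1) ^ k * (∑ i ∈ Finset.range q, T ^ i) = (q : K) • (T - 1) ^ k := by
    rw [Finset.mul_sum, Finset.sum_congr rfl fun i _ => h2 i, Finset.sum_const,
      Finset.card_range, Nat.cast_smul_eq_nsmul]
  have h4 : ∀ i : ℕ, (T - 1) ^ k * (∑ i ∈ Finset.range q, T ^ i) ^ i =
      ((q : K) ^ i) • (T - 1) ^ k := by
    intro i
    induction i with
    | zero => rw [pow_zero, pow_zero, mul_one, one_smul]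
    | succ i ih => rw [pow_succ, ← mul_assoc, ih, smul_mul_assoc, h3, smul_smul, pow_succ]
  have h5 : (T ^ q - 1) ^ k = ((q : K) ^ k) • (T - 1) ^ k := by
    rw [← mul_geom_sum, Commute.mul_pow, h4]
    refine Commute.sum_right _ _ _ fun i _ => ?_
    exact ((Commute.refl T).sub_left (Commute.one_left T)).pow_right i
  exact ⟨by rw [h5, mul_smul_comm], h5⟩

/-- A unipotent operator of finite order is trivial. -/
lemma unip_fin {T : Module.End K V} (hT : IsNilpotent (T - 1)) {q : ℕ} (hq : 0 < q)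
    (h : T ^ q = 1) : T = 1 := by
  by_contra hne
  have h0 : T - 1 ≠ 0 := fun h => hne (sub_eq_zero.1 h)
  obtain ⟨k, hk0, hk1, hk2⟩ := top_pow hT h0
  have h1 := (pow_lead hk2 q).2
  rw [h, sub_self, zero_pow hk0.ne'] at h1
  have h2 : ((q : K) ^ k) ≠ 0 := pow_ne_zero _ (by exact_mod_cast hq.ne')
  exact hk1 ((smul_eq_zero.1 h1.symm).resolve_left h2)

omit [CharZero K] in
lemma twist_gen {φ M : Module.End K V} {c e : K} (h : φ * M = c • (M * φ)) {x : V}
    (hx : x ∈ φ.maxGenEigenspace e) : M x ∈ φ.maxGenEigenspace (c * e) := by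
  have h1 : (φ - (c * e) • 1) * M = c • (M * (φ - e • 1)) := by
    rw [sub_mul, h, mul_sub, smul_mul_assoc, one_mul, mul_smul_comm, mul_one, smul_sub,
      smul_smul]
  have h2 : ∀ n : ℕ, (φ - (c * e) • 1) ^ n * M = (c ^ n) • (M * (φ - e • 1) ^ n) := by
    intro n
    induction n with
    | zero => simp
    | succ n ih =>
      rw [pow_succ, mul_assoc, h1, mul_smul_comm, ← mul_assoc, ih, smul_mul_assoc, smul_smul,
        mul_assoc, ← pow_succ', ← pow_succ]
  rw [Module.End.mem_maxGenEigenspace] at hx ⊢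
  obtain ⟨n, hn⟩ := hx
  refine ⟨n, ?_⟩
  have h3 := congrArg (fun f : Module.End K V => f x) (h2 n)
  simp only [Module.End.mul_apply, LinearMap.smul_apply] at h3
  rw [h3, hn, map_zero, smul_zero]

variable [IsAlgClosed K] [FiniteDimensional K V]

/-- If `φ T φ⁻¹ = T ^ q` with `q ≥ 2`, where `T` is unipotent and the eigenvalues of `φ` are roots of
unity, then `T` is trivial. -/
lemma tame_triv {T φ φ' : Module.End K V} (hφ : φ' * φ = 1) (hT : IsNilpotent (T - 1)) {q m : ℕ}
    (hq : 2 ≤ q) (hm : 0 < m) (h : φ * T * φ' = T ^ q)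
    (he : ∀ t, φ.HasEigenvalue t → t ^ m = 1) : T = 1 := by
  by_contra hne
  have h0 : T - 1 ≠ 0 := fun h => hne (sub_eq_zero.1 h)
  obtain ⟨k, hk0, hk1, hk2⟩ := top_pow hT h0
  have hφ2 : φ * φ' = 1 := mul_eq_one_comm.1 hφ
  have h1 := (pow_lead hk2 q).2
  have h2 : φ * (T - 1) ^ k * φ' = (T ^ q - 1) ^ k := by
    have h3 : T ^ q - 1 = φ * (T - 1) * φ' := by
      rw [mul_sub, sub_mul, h, mul_one, hφ2]
    have h4 : ∀ n : ℕ, φ * (T - 1) ^ n * φ' = (φ * (T - 1) * φ') ^ n := by
      intro n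
      induction n with
      | zero => rw [pow_zero, pow_zero, mul_one, hφ2]
      | succ n ih =>
        rw [pow_succ, pow_succ, ← ih]
        calc φ * ((T - 1) ^ n * (T - 1)) * φ' = φ * (T - 1) ^ n * 1 * (T - 1) * φ' := by
              rw [mul_one, mul_assoc φ ((T - 1) ^ n) (T - 1)]
          _ = _ := by
              rw [← hφ]
              simp only [mul_assoc]
    rw [h3, h4]
  have h3 : φ * (T - 1) ^ k = ((q : K) ^ k) • ((T - 1) ^ k * φ) := by
    have h4 : φ * (T - 1) ^ k * φ' * φ = ((q : K) ^ k) • (T - 1) ^ k * φ := by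
      rw [h2, h1]
    rw [mul_assoc _ φ' φ, hφ, mul_one, smul_mul_assoc] at h4
    exact h4
  have hex : ∃ e, ∃ x ∈ φ.maxGenEigenspace e, ((T - 1) ^ k) x ≠ 0 := by
    by_contra hcon
    push Not at hcon
    exact hk1 (ext_gen φ fun e x hx => by rw [hcon e x hx, LinearMap.zero_apply])
  obtain ⟨e, x, hx, hx'⟩ := hex
  have h4 := twist_gen h3 hx
  have hroot : ∀ {s : K} {y : V}, y ≠ 0 → y ∈ φ.maxGenEigenspace s → s ^ m = 1 := by
    intro s y hy hys
    refine he s ?_
    have h5 : φ.maxGenEigenspace s ≠ ⊥ := fun h => hy (by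
      rw [h, Submodule.mem_bot] at hys; exact hys)
    have h6 := ne_bot_iff.1 h5
    rw [Module.End.hasEigenvalue_iff_isRoot_charpoly]
    exact Polynomial.isRoot_of_mem_roots h6
  have h5 := hroot (fun h => hx' (by rw [h, map_zero])) hx
  have h6 := hroot hx' h4
  rw [mul_pow, h5, mul_one, ← pow_mul] at h6
  have h7 : q ^ (k * m) = 1 := by exact_mod_cast h6
  have h8 : 1 < q ^ (k * m) := Nat.one_lt_pow (Nat.mul_pos hk0 hm).ne' (by omega)
  omega

end unipotent

section main

variable {K V Γ : Type} [Field K] [CharZero K] [IsAlgClosed K] [TopologicalSpace K]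
  [IsTopologicalRing K] [T2Space K] [AddCommGroup V] [Module K V] [FiniteDimensional K V]
  [Group Γ] [TopologicalSpace Γ] [IsTopologicalGroup Γ] [CompactSpace Γ]

omit [CharZero K] [IsAlgClosed K] [TopologicalSpace K] [IsTopologicalRing K] [T2Space K] in
lemma fin_sum {R : Set K} (hR : R.Finite) (n : ℕ) :
    {x | ∃ s : Multiset K, Multiset.card s = n ∧ (∀ y ∈ s, y ∈ R) ∧ s.sum = x}.Finite := by
  induction n with
  | zero =>
    refine (Set.finite_singleton (0 : K)).subset ?_
    rintro x ⟨s, hs, -, rfl⟩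
    rw [Multiset.card_eq_zero.1 hs, Multiset.sum_zero]
    exact Set.mem_singleton _
  | succ n ih =>
    refine (Set.Finite.image2 (fun a b => a + b) hR ih).subset ?_
    rintro x ⟨s, hs, hsR, rfl⟩
    obtain ⟨a, t, rfl, ht⟩ := Multiset.card_eq_succ_iff.1 hs
    refine ⟨a, hsR a (Multiset.mem_cons_self a t), t.sum, ⟨t, ht, fun y hy =>
      hsR y (Multiset.mem_cons_of_mem hy), rfl⟩, ?_⟩
    rw [Multiset.sum_cons]

omit [IsTopologicalRing K] in
/-- A quasi-unipotent representation of a compact group is unipotent on an open subgroup. -/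
lemma open_unip (ρ : Γ →* Module.End K V) (hc : Cts fun σ => ρ σ) {m : ℕ} (hm : 0 < m)
    (hq : ∀ σ t, (ρ σ).HasEigenvalue t → t ^ m = 1) :
    ∃ U : Subgroup Γ, IsOpen (U : Set Γ) ∧ ∀ σ ∈ U, IsNilpotent (ρ σ - 1) := by
  have hRfin : {t : K | t ^ m = 1}.Finite := by
    refine (Polynomial.nthRootsFinset m (1 : K)).finite_toSet.subset fun t ht => ?_
    exact (Polynomial.mem_nthRootsFinset hm 1).2 ht
  have hfin := fin_sum hRfin (finrank K V)
  set F : Set K := {x | ∃ s : Multiset K, Multiset.card s = finrank K V ∧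
    (∀ y ∈ s, y ∈ {t : K | t ^ m = 1}) ∧ s.sum = x} with hF
  have hmem : ∀ σ, LinearMap.trace K V (ρ σ) ∈ F := by
    intro σ
    refine ⟨(ρ σ).charpoly.roots, ?_, fun y hy => ?_, (tr_sum _).symm⟩
    · rw [← (IsAlgClosed.splits _).natDegree_eq_card_roots, LinearMap.charpoly_natDegree]
    · refine hq σ y ?_
      rw [Module.End.hasEigenvalue_iff_isRoot_charpoly]
      exact Polynomial.isRoot_of_mem_roots hy
  have hcont : Continuous fun σ => LinearMap.trace K V (ρ σ) := hc (LinearMap.trace K V)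
  set O : Set Γ := {σ | LinearMap.trace K V (ρ σ) = finrank K V} with hO
  have hclosed : IsClosed O := isClosed_eq hcont continuous_const
  have hopen : IsOpen O := by
    have h1 : O = (fun σ => LinearMap.trace K V (ρ σ)) ⁻¹' (F \ {(finrank K V : K)})ᶜ := by
      ext σ
      simp only [hO, Set.mem_ofPred_eq, Set.mem_preimage, Set.mem_compl_iff, Set.mem_sdiff,
        Set.mem_singleton_iff, not_and, not_not]
      exact ⟨fun h _ => h, fun h => h (hmem σ)⟩
    rw [h1]
    exact (hfin.subset Set.sdiff_subset).isClosed.isOpen_compl.preimage hcont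
  have hone : (1 : Γ) ∈ O := by
    change LinearMap.trace K V (ρ 1) = finrank K V
    rw [map_one]
    exact LinearMap.trace_one K V
  obtain ⟨U, hU⟩ := IsTopologicalGroup.exist_openNormalSubgroup_sub_clopen_nhds_of_one
    ⟨hclosed, hopen⟩ hone
  refine ⟨U.toSubgroup, U.isOpen', fun σ hσ => ?_⟩
  have htr : ∀ n : ℕ, LinearMap.trace K V ((ρ σ) ^ n) = finrank K V := by
    intro n
    rw [← map_pow]
    exact hU (U.toSubgroup.pow_mem hσ n)
  refine Pool.Agent.H914.isNilpotent_of_trace_pow _ fun r => ?_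
  have h1 : (ρ σ - 1) ^ (r + 1) = ∑ j ∈ Finset.range (r + 1 + 1),
      (((-1 : K) ^ (r + 1 - j)) * ((r + 1).choose j : K)) • (ρ σ) ^ j := by
    rw [sub_eq_add_neg, (Commute.neg_one_right (ρ σ)).add_pow]
    refine Finset.sum_congr rfl fun j _ => ?_
    have h2 : ((-1 : Module.End K V)) ^ (r + 1 - j) = ((-1 : K) ^ (r + 1 - j)) • 1 := by
      rw [show (-1 : Module.End K V) = (-1 : K) • 1 by rw [neg_smul, one_smul], smul_pow,
        one_pow]
    have h3 : (((r + 1).choose j : ℕ) : Module.End K V) = (((r + 1).choose j : ℕ) : K) • 1 := by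
      rw [Nat.cast_smul_eq_nsmul, nsmul_one]
    rw [h2, h3, mul_smul_comm, mul_one, mul_smul_comm, mul_one, smul_smul, mul_comm]
  rw [h1, map_sum]
  simp only [map_smul, htr, smul_eq_mul]
  rw [← Finset.sum_mul]
  have h2 := (add_pow (1 : K) (-1) (r + 1)).symm
  simp only [one_pow, one_mul] at h2
  rw [h2, add_neg_cancel, zero_pow (Nat.succ_ne_zero r), zero_mul]

/-- A quasi-unipotent representation with the conditions of tameness at the inertia groups is trivial
on an open subgroup, if there are no unramified additive characters. -/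
theorem open_trivial (ρ : Γ →* Module.End K V) (hc : Cts fun σ => ρ σ) {m : ℕ} (hm : 0 < m)
    (hq : ∀ σ t, (ρ σ).HasEigenvalue t → t ^ m = 1) (D : Subgroup Γ)
    (hD : ∀ U : Subgroup Γ, IsOpen (U : Set Γ) → ∀ W : Submodule K V,
      (∀ σ ∈ U ⊓ D, ∀ x ∈ W, ρ σ x ∈ W) →
      ∃ W' : Submodule K V, IsCompl W W' ∧ ∀ σ ∈ U ⊓ D, ∀ x ∈ W', ρ σ x ∈ W')
    {ι : Type} (I : ι → Subgroup Γ)
    (hI : ∀ v, (∃ (Φ : Γ) (q : ℕ) (U : Subgroup Γ), 2 ≤ q ∧ IsOpen (U : Set Γ) ∧
        ∀ τ ∈ U ⊓ I v, ρ (Φ * τ * Φ⁻¹) = (ρ τ) ^ q) ∨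
      ∃ U : Subgroup Γ, IsOpen (U : Set Γ) ∧ ∀ τ ∈ U ⊓ I v, ρ τ = 1)
    (cft : ∀ U : Subgroup Γ, IsOpen (U : Set Γ) → ∀ f : Γ → K,
      ContinuousOn f (U : Set Γ) → (∀ σ ∈ U, ∀ τ ∈ U, f (σ * τ) = f σ + f τ) →
      (∀ τ ∈ U ⊓ D, f τ = 0) → (∀ v, ∀ τ ∈ U ⊓ I v, f τ = 0) → ∀ σ ∈ U, f σ = 0) :
    ∃ U : Subgroup Γ, IsOpen (U : Set Γ) ∧ ∀ σ ∈ U, ρ σ = 1 := by
  obtain ⟨U, hU, hun⟩ := open_unip ρ hc hm hq
  refine ⟨U, hU, ?_⟩
  -- the inertia groups act trivially
  have hidx : ∀ U' : Subgroup Γ, IsOpen (U' : Set Γ) → U'.index ≠ 0 := by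
    intro U' hU'
    have : Finite (Γ ⧸ U') := Subgroup.quotient_finite_of_isOpen U' hU'
    exact Subgroup.index_ne_zero_of_finite
  have hin : ∀ v, ∀ τ ∈ U ⊓ I v, ρ τ = 1 := by
    intro v τ hτ
    rcases hI v with ⟨Φ, q, U', hq2, hU', h⟩ | ⟨U', hU', h⟩
    · obtain ⟨n, hn, -, hn'⟩ := Subgroup.exists_pow_mem_of_index_ne_zero (hidx U' hU') τ
      have h1 : ρ (τ ^ n) = 1 := by
        have h2 := h (τ ^ n) ⟨hn', (I v).pow_mem hτ.2 n⟩
        rw [map_mul, map_mul] at h2
        refine tame_triv (φ := ρ Φ) (φ' := ρ Φ⁻¹) ?_ (hun _ (U.pow_mem hτ.1 n)) hq2 hm h2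
          (hq Φ)
        rw [← map_mul, inv_mul_cancel, map_one]
      rw [map_pow] at h1
      exact unip_fin (hun τ hτ.1) hn h1
    · obtain ⟨n, hn, -, hn'⟩ := Subgroup.exists_pow_mem_of_index_ne_zero (hidx U' hU') τ
      have h1 := h (τ ^ n) ⟨hn', (I v).pow_mem hτ.2 n⟩
      rw [map_pow] at h1
      exact unip_fin (hun τ hτ.1) hn h1
  -- the geometric part acts trivially
  have hgeo : ∀ τ ∈ U ⊓ D, ρ τ = 1 := by
    let W : Submodule K V :=
      { carrier := {x | ∀ σ ∈ U ⊓ D, ρ σ x = x}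
        add_mem' := fun {x y} hx hy σ hσ => by rw [map_add, hx σ hσ, hy σ hσ]
        zero_mem' := fun σ _ => map_zero _
        smul_mem' := fun r x hx σ hσ => by rw [map_smul, hx σ hσ] }
    by_cases hW : W = ⊤
    · intro σ hσ
      refine LinearMap.ext fun x => ?_
      have h1 : x ∈ W := by rw [hW]; exact Submodule.mem_top
      exact h1 σ hσ
    · exfalso
      obtain ⟨x, hx, hxW⟩ := kolchin ρ (U ⊓ D) (fun g hg => hun g hg.1) hW
      obtain ⟨W', hWW', hW'⟩ := hD U hU W fun σ hσ y hy => by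
        have h1 : ρ σ y = y := hy σ hσ
        rw [h1]
        exact hy
      have h1 : x ∈ W ⊔ W' := by rw [hWW'.sup_eq_top]; exact Submodule.mem_top
      obtain ⟨y, hy, z, hz, hyz⟩ := Submodule.mem_sup.1 h1
      refine hx ?_
      have h2 : z ∈ W := by
        intro σ hσ
        have h3 : ρ σ z - z ∈ W := by
          have h4 : ρ σ z - z = ρ σ x - x := by
            have h5 : ρ σ y = y := hy σ hσ
            rw [← hyz, map_add, h5]
            abel
          rw [h4]
          exact hxW σ hσ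
        have h4 : ρ σ z - z ∈ W' := W'.sub_mem (hW' σ hσ z hz) hz
        have h5 : ρ σ z - z ∈ W ⊓ W' := ⟨h3, h4⟩
        rw [hWW'.inf_eq_bot, Submodule.mem_bot] at h5
        exact sub_eq_zero.1 h5
      rw [← hyz]
      exact W.add_mem hy h2
  -- the fixed vectors
  let W : Submodule K V :=
    { carrier := {x | ∀ σ ∈ U, ρ σ x = x}
      add_mem' := fun {x y} hx hy σ hσ => by rw [map_add, hx σ hσ, hy σ hσ]
      zero_mem' := fun σ _ => map_zero _
      smul_mem' := fun r x hx σ hσ => by rw [map_smul, hx σ hσ] }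
  by_cases hW : W = ⊤
  · intro σ hσ
    refine LinearMap.ext fun x => ?_
    have h1 : x ∈ W := by rw [hW]; exact Submodule.mem_top
    exact h1 σ hσ
  · exfalso
    obtain ⟨x, hx, hxW⟩ := kolchin ρ U hun hW
    refine hx fun σ hσ => ?_
    rw [← sub_eq_zero, ← Module.forall_dual_apply_eq_zero_iff K]
    intro l
    refine cft U hU (fun σ => l (ρ σ x - x)) ?_ ?_ ?_ ?_ σ hσ
    · refine Continuous.continuousOn ?_
      have h1 : (fun σ => l (ρ σ x - x)) = fun σ => (l ∘ₗ (LinearMap.applyₗ x)) (ρ σ) - l x := by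
        ext σ
        rw [map_sub]
        rfl
      rw [h1]
      exact (hc _).sub continuous_const
    · intro σ hσ τ hτ
      have h1 : ρ σ (ρ τ x - x) = ρ τ x - x := hxW τ hτ σ hσ
      rw [map_sub] at h1
      rw [← map_add, map_mul, Module.End.mul_apply]
      congr 1
      rw [sub_eq_iff_eq_add] at h1
      rw [h1]
      abel
    · intro τ hτ
      rw [hgeo τ hτ, Module.End.one_apply, sub_self, map_zero]
    · intro v τ hτ
      rw [hin v τ hτ, Module.End.one_apply, sub_self, map_zero]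

end main

end Pool.Agent.J4H44.MF
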