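import Pool.Agent.J4H44.MF.B6
import Pool.Agent.J4H44.MF.B7
import Pool.Agent.J4H44.MF.K1

/-!
# Hodge classes are Tate classes
-/

set_option autoImplicit false

namespace Pool.Agent.J4H44.MF

open Module Module.End Pool.Agent.N184.HK Pool.Agent.J4H44.PM
open scoped Classical

/-! ### Continuity -/

section cts

variable {K V W Γ : Type} [Field K] [TopologicalSpace K] [IsTopologicalRing K] [AddCommGroup V]
  [Module K V] [FiniteDimensional K V] [AddCommGroup W] [Module K W] [FiniteDimensional K W]
  [TopologicalSpace Γ]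

omit [FiniteDimensional K W] in
lemma cts_bilin {g : Γ → Module.End K V} {h : Γ → Module.End K W} (hg : Cts g) (hh : Cts h)
    (B : Module.End K V →ₗ[K] Module.End K W →ₗ[K] K) : Continuous fun σ => B (g σ) (h σ) := by
  have h1 : (fun σ => B (g σ) (h σ)) = fun σ => ∑ k, (Module.finBasis K (Module.End K V)).coord k
      (g σ) * B (Module.finBasis K (Module.End K V) k) (h σ) := by
    ext σ
    conv_lhs => rw [← (Module.finBasis K (Module.End K V)).sum_repr (g σ)]
    rw [map_sum, LinearMap.sum_apply]
    refine Finset.sum_congr rfl fun k _ => ?_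
    rw [map_smul, LinearMap.smul_apply, smul_eq_mul]
    rfl
  rw [h1]
  refine continuous_finsetSum _ fun k _ => ?_
  exact (hg _).mul (hh _)

/-- The operator `f ↦ b f a`. -/
def sw (a : Module.End K V) (b : Module.End K W) : Module.End K (V →ₗ[K] W) where
  toFun f := b ∘ₗ f ∘ₗ a
  map_add' f g := by rw [LinearMap.add_comp, LinearMap.comp_add]
  map_smul' c f := by rw [LinearMap.smul_comp, LinearMap.comp_smul, RingHom.id_apply]

omit [FiniteDimensional K W] in
lemma cts_cj {φ : Γ → (V ≃ₗ[K] V)} {ψ : Γ → (W ≃ₗ[K] W)} (hφ : Cts fun σ => en (φ σ).symm)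
    (hψ : Cts fun σ => en (ψ σ)) : Cts fun σ => en (cj (φ σ) (ψ σ)) := by
  intro L
  have h1 := cts_bilin hφ hψ (LinearMap.mk₂ K (fun a b => L (sw a b))
    (fun a a' b => by
      rw [← map_add]
      congr 1
      refine LinearMap.ext fun f => ?_
      change b ∘ₗ f ∘ₗ (a + a') = b ∘ₗ f ∘ₗ a + b ∘ₗ f ∘ₗ a'
      rw [LinearMap.comp_add, LinearMap.comp_add])
    (fun c a b => by
      rw [← map_smul]
      congr 1
      refine LinearMap.ext fun f => ?_
      change b ∘ₗ f ∘ₗ (c • a) = c • (b ∘ₗ f ∘ₗ a)
      rw [LinearMap.comp_smul, LinearMap.comp_smul])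
    (fun a b b' => by
      rw [← map_add]
      congr 1)
    (fun c a b => by
      rw [← map_smul]
      congr 1))
  exact h1

omit [IsTopologicalRing K] [FiniteDimensional K V] in
lemma cts_const (a : Module.End K V) : Cts fun _ : Γ => a := fun _ => continuous_const

omit [FiniteDimensional K V] in
lemma cts_sub {g h : Γ → Module.End K V} (hg : Cts g) (hh : Cts h) :
    Cts fun σ => g σ - h σ := by
  intro L
  have h1 : (fun σ => L (g σ - h σ)) = fun σ => L (g σ) - L (h σ) := by
    ext σ
    rw [map_sub]
  rw [h1]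
  exact (hg L).sub (hh L)

lemma cts_pow {g : Γ → Module.End K V} (hg : Cts g) (m : ℕ) : Cts fun σ => (g σ) ^ m := by
  induction m with
  | zero =>
    simp only [pow_zero]
    exact cts_const 1
  | succ m ih =>
    simp only [pow_succ]
    exact (t_cts K V Γ _ _ ih hg).1

omit [FiniteDimensional K V] in
lemma cts_smul {g : Γ → Module.End K V} (hg : Cts g) {f : Γ → K} (hf : Continuous f) :
    Cts fun σ => f σ • g σ := by
  intro L
  have h1 : (fun σ => L (f σ • g σ)) = fun σ => f σ * L (g σ) := by
    ext σ
    rw [map_smul, smul_eq_mul]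
  rw [h1]
  exact hf.mul (hg L)

end cts

/-! ### Subrepresentations -/

section sub

variable {K V G : Type} [Field K] [AddCommGroup V] [Module K V] [Group G]

/-- The representation on a stable subspace. -/
def subRep (ρ : G →* Module.End K V) (W : Submodule K V) (h : ∀ g, ∀ x ∈ W, ρ g x ∈ W) :
    G →* Module.End K W where
  toFun g := (ρ g).restrict (h g)
  map_one' := by
    ext x
    rw [LinearMap.coe_restrict_apply, map_one]
    rfl
  map_mul' g g' := by
    ext x
    rw [LinearMap.coe_restrict_apply, map_mul]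
    rfl

variable {ρ : G →* Module.End K V} {W : Submodule K V} (h : ∀ g, ∀ x ∈ W, ρ g x ∈ W)

lemma subRep_coe (g : G) (x : W) : ((subRep ρ W h g x : W) : V) = ρ g x := rfl

lemma subRep_pow_coe (g : G) (q : ℕ) (x : W) :
    ((((subRep ρ W h g) ^ q) x : W) : V) = ((ρ g) ^ q) x := by
  rw [← map_pow, subRep_coe, map_pow]

lemma cts_subRep [TopologicalSpace K] [FiniteDimensional K V] [TopologicalSpace G]
    (hc : Cts fun g => ρ g) : Cts fun g => subRep ρ W h g := by
  intro L
  obtain ⟨π, hπ⟩ := W.subtype.exists_leftInverse_of_injective (by rw [Submodule.ker_subtype])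
  let P : Module.End K V →ₗ[K] Module.End K W :=
    { toFun := fun f => π ∘ₗ f ∘ₗ W.subtype
      map_add' := fun f g => by rw [LinearMap.add_comp, LinearMap.comp_add]
      map_smul' := fun c f => by rw [LinearMap.smul_comp, LinearMap.comp_smul, RingHom.id_apply] }
  have h1 : ∀ g, subRep ρ W h g = P (ρ g) := by
    intro g
    ext x
    have h2 : P (ρ g) x = subRep ρ W h g x := by
      have h3 := congrArg (fun f => f (subRep ρ W h g x)) hπ
      exact h3
    rw [h2]
  have h2 : (fun g => L (subRep ρ W h g)) = fun g => (L ∘ₗ P) (ρ g) := by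
    ext g
    rw [h1]
    rfl
  rw [h2]
  exact hc _

end sub

end Pool.Agent.J4H44.MF
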