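import Pool.Agent.J4H44.MF.B6
import Pool.Agent.J4H44.MF.B0

/-!
# The Galois group normalizes the Lie algebra of the Mumford-Tate group
-/

set_option autoImplicit false

namespace Pool.Agent.J4H44.MF

open Module Module.End Pool.Agent.N184.HK Pool.Agent.J4H44.PM
open scoped Classical

section lin

variable {K V : Type} [Field K] [IsAlgClosed K] [AddCommGroup V] [Module K V]
  [FiniteDimensional K V]

omit [IsAlgClosed K] [FiniteDimensional K V] in
lemma adE_val (ψ : V ≃ₗ[K] V) (f : Module.End K V) (x : V) : adE ψ f x = ψ (f (ψ.symm x)) := rfl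

lemma fop_adE' (ψ : V ≃ₗ[K] V) (T : Module.End K V) (w : K → K) :
    fop (adE ψ T) w = adE ψ (fop T w) := by
  refine ext_gen (adE ψ T) fun e x hx => ?_
  have h1 : ∀ (k : ℕ) (y : V), ((adE ψ T - e • 1) ^ k) y = ψ (((T - e • 1) ^ k) (ψ.symm y)) := by
    intro k
    induction k with
    | zero => intro y; simp
    | succ k ih =>
      intro y
      rw [pow_succ', pow_succ', Module.End.mul_apply, Module.End.mul_apply, ih,
        LinearMap.sub_apply, LinearMap.sub_apply, adE_val, LinearEquiv.symm_apply_apply,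
        LinearMap.smul_apply, LinearMap.smul_apply, Module.End.one_apply, Module.End.one_apply,
        map_sub, map_smul]
  have h2 : ψ.symm x ∈ T.maxGenEigenspace e := by
    rw [Module.End.mem_maxGenEigenspace] at hx ⊢
    obtain ⟨k, hk⟩ := hx
    refine ⟨k, ?_⟩
    rw [h1] at hk
    exact (LinearEquiv.map_eq_zero_iff ψ).1 hk
  rw [fop_apply w hx, adE_val, fop_apply w h2, map_smul, LinearEquiv.apply_symm_apply]

end lin

namespace HKMotive

variable {Ω : Type} [Field Ω] [TopologicalSpace Ω] [CharZero Ω] [IsAlgClosed Ω] {M : HKMotive Ω}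
  [IsTopologicalRing Ω] [T2Space Ω] (L : M.MumfordTateTwo)

omit [CharZero Ω] [IsAlgClosed Ω] [IsTopologicalRing Ω] [T2Space Ω] in
lemma phi_conj (σ γ : M.Γ) (j : M.E.J) (i : ℕ) :
    en ((M.E.F (σ * γ * σ⁻¹) j).φ i) = adE ((M.E.F σ j).φ i) (en ((M.E.F γ j).φ i)) := by
  have h0 : ∀ x, (M.E.F 1 j).φ i x = x := by
    intro x
    have h2 := M.E.mul 1 1 j i
    rw [mul_one] at h2
    have h3 := congrArg (fun f : (M.E.X j).H i ≃ₗ[Ω] (M.E.X j).H i => f x) h2
    simp only [LinearEquiv.trans_apply] at h3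
    exact (((M.E.F 1 j).φ i).injective h3).symm
  have h1 : ∀ x, (M.E.F σ⁻¹ j).φ i x = ((M.E.F σ j).φ i).symm x := by
    intro x
    have h2 := M.E.mul σ σ⁻¹ j i
    rw [mul_inv_cancel] at h2
    have h3 := congrArg (fun f : (M.E.X j).H i ≃ₗ[Ω] (M.E.X j).H i => f x) h2
    simp only [LinearEquiv.trans_apply] at h3
    rw [h0] at h3
    rw [LinearEquiv.eq_symm_apply]
    exact h3.symm
  refine LinearMap.ext fun x => ?_
  rw [adE_val]
  change (M.E.F (σ * γ * σ⁻¹) j).φ i x =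
    (M.E.F σ j).φ i ((M.E.F γ j).φ i (((M.E.F σ j).φ i).symm x))
  rw [M.E.mul, M.E.mul, LinearEquiv.trans_apply, LinearEquiv.trans_apply, h1]

include L in
/-- The conjugates of the semisimple elements. -/
lemma conj_ss {A : MatTwo M.n} (hA : A ∈ M.ssMt) (σ : M.Γ) :
    conj (M.E.F σ) (M.toΩ A) ∈ M.mtΩ := by
  obtain ⟨γ, -, N, hN, hγ⟩ := L.log A hA ⊤
  have hlog := log_eq L hA hγ
  set γ' := σ * γ * σ⁻¹ with hγ'
  have hμ : ∀ j, (M.E.F γ' j).μ = (M.E.F γ j).μ := by
    intro j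
    rw [M.E.chi_sq, M.E.chi_sq, hγ', map_mul, map_mul, map_inv, mul_inv_cancel_comm]
  haveI := Fintype.ofFinite M.E.J
  set Fs : Finset (Basis.ofVectorSpaceIndex ℚ Ω) := Finset.univ.biUnion fun j : M.E.J =>
    (en ((M.E.F γ' j).φ 2)).charpoly.roots.toFinset.biUnion fun e =>
      ((qb Ω).repr (L.lg e)).support with hFs
  have h1 : (N : Ω) • conj (M.E.F σ) (M.toΩ A) =
      ∑ k ∈ Fs, qb Ω k • weightOp (M.E.F γ') (L.WL k) := by
    refine EndTwo.ext fun j => ?_
    rw [← evL_apply j (∑ k ∈ Fs, _), map_sum]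
    have h2 : fop (en ((M.E.F γ' j).φ 2)) L.lg = ∑ k ∈ Fs, qb Ω k •
        fop (en ((M.E.F γ' j).φ 2)) (L.WL k).k := by
      refine lg_fop L _ Fs fun e he => ?_
      refine Finset.Subset.trans ?_ (Finset.subset_biUnion_of_mem (fun j : M.E.J =>
        (en ((M.E.F γ' j).φ 2)).charpoly.roots.toFinset.biUnion fun e =>
          ((qb Ω).repr (L.lg e)).support) (Finset.mem_univ j))
      exact Finset.subset_biUnion_of_mem (fun e => ((qb Ω).repr (L.lg e)).support)
        (Multiset.mem_toFinset.2 he)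
    have h3 : fop (en ((M.E.F γ' j).φ 2)) L.lg = (N : Ω) • conj (M.E.F σ) (M.toΩ A) j := by
      rw [hγ', phi_conj, fop_adE', hγ.fop j]
      change adE ((M.E.F σ j).φ 2) ((N : Ω) • M.toΩ A j) = _
      rw [map_smul]
      rfl
    have h4 : ((N : Ω) • conj (M.E.F σ) (M.toΩ A)) j = (N : Ω) • conj (M.E.F σ) (M.toΩ A) j := rfl
    rw [h4, ← h3, h2]
    refine Finset.sum_congr rfl fun k _ => ?_
    rw [map_smul, evL_apply, weightOp, Cohomology.Auto.S2]
    have h5 : (L.WL k).w (M.E.F γ' j).μ = 0 := by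
      rw [hμ]
      change (qb Ω).repr (L.lg (M.E.F γ j).μ) k = 0
      rw [(hlog j).1, map_zero, Finsupp.zero_apply]
    rw [h5, zero_div, Rat.cast_zero, zero_smul, sub_zero]
  have h2 : (N : Ω) • conj (M.E.F σ) (M.toΩ A) ∈ M.mtΩ := by
    rw [h1]
    exact Submodule.sum_mem _ fun k _ => Submodule.smul_mem _ _
      (L.torus' γ' (L.WL k) fun j e he => root_ne he)
  have hN0 : (N : Ω) ≠ 0 := by exact_mod_cast hN.ne'
  exact (Submodule.smul_mem_iff _ hN0).1 h2

include L in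
/-- The Galois group normalizes the Lie algebra of the Mumford-Tate group. -/
lemma norm_mt (hr : M.Reductive) (σ : M.Γ) {A : M.End2} (hA : A ∈ M.mtΩ) :
    conj (M.E.F σ) A ∈ M.mtΩ := by
  let cL : M.End2 →ₗ[Ω] M.End2 :=
    { toFun := conj (M.E.F σ)
      map_add' := fun A A' => EndTwo.ext fun j => map_add (adE ((M.E.F σ j).φ 2)) (A j) (A' j)
      map_smul' := fun a A => EndTwo.ext fun j => map_smul (adE ((M.E.F σ j).φ 2)) a (A j) }
  have h1 : M.mtΩ ≤ Submodule.span Ω (M.toΩ '' M.ssMt) := by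
    refine Submodule.span_le.2 ?_
    rintro _ ⟨A, hA, rfl⟩
    exact op_span M.b (hr.span hA)
  have h2 : Submodule.span Ω (M.toΩ '' M.ssMt) ≤ M.mtΩ.comap cL := by
    refine Submodule.span_le.2 ?_
    rintro _ ⟨A, hA, rfl⟩
    exact conj_ss L hA σ
  exact h2 (h1 hA)

end HKMotive

end Pool.Agent.J4H44.MF
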