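import Pool.Agent.J4H44.MF.B8
import Pool.Agent.J4H44.MF.Nrm

/-!
# Hodge classes are Tate classes
-/

set_option autoImplicit false

namespace Pool.Agent.J4H44.MF

open Module Module.End Pool.Agent.N184.HK Pool.Agent.J4H44.PM
open scoped Classical

lemma en_pow' {K V : Type} [Field K] [AddCommGroup V] [Module K V] (f : V ≃ₗ[K] V) (n : ℕ) :
    en (f ^ n) = (en f) ^ n := by
  induction n with
  | zero => rfl
  | succ n ih =>
    rw [pow_succ, pow_succ, ← ih]
    rfl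

lemma Family.phi_inv {Ω : Type} [Field Ω] [TopologicalSpace Ω] (E : Family Ω) (σ : E.Γ)
    (j : E.J) (i : ℕ) : (E.F σ⁻¹ j).φ i = ((E.F σ j).φ i).symm := by
  ext x
  exact (P_OPEN.phi_inv (φ := fun σ => (E.F σ j).φ i) (fun σ τ => E.mul σ τ j i) σ x).symm

namespace HKMotive

variable {Ω : Type} [Field Ω] [TopologicalSpace Ω] (M : HKMotive Ω)

lemma act_mul (C : M.Con) (σ τ : M.Γ) :
    M.act C (σ * τ) = (M.act C τ).trans (M.act C σ) :=
  Con.act_trans (V := coh M.E.X) (fun j i => M.E.mul σ τ j i) C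

lemma act_inv (C : M.Con) (σ : M.Γ) : M.act C σ⁻¹ = (M.act C σ).symm :=
  Con.act_symm (V := coh M.E.X) (fun j i => M.E.phi_inv σ j i) C

/-- The representation of the Galois group on a construction, after a Tate twist. -/
noncomputable def rep (C : M.Con) (r : ℤ) : M.Γ →* Module.End Ω (M.vs C).V where
  toFun σ := M.tw σ (-r) • en (M.act C σ)
  map_one' := by
    have h1 : ∀ x, M.act C 1 x = x := by
      intro x
      have h2 := congrArg (fun f : (M.vs C).V ≃ₗ[Ω] (M.vs C).V => f x)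
        (M.act_mul C 1 1)
      simp only [mul_one] at h2
      rw [LinearEquiv.trans_apply] at h2
      exact ((M.act C 1).injective h2).symm
    rw [tw, map_one, one_zpow, Units.val_one, one_smul]
    exact LinearMap.ext h1
  map_mul' σ τ := by
    rw [act_mul, tw, map_mul, mul_zpow, Units.val_mul]
    refine LinearMap.ext fun x => ?_
    simp only [tw, LinearMap.smul_apply, Module.End.mul_apply, LinearEquiv.coe_coe,
      LinearEquiv.trans_apply, map_smul, smul_smul]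
    rw [mul_comm]

lemma rep_apply (C : M.Con) (r : ℤ) (σ : M.Γ) (x : (M.vs C).V) :
    M.rep C r σ x = M.tw σ (-r) • M.act C σ x := rfl

lemma tw_mul_neg (σ : M.Γ) (r : ℤ) : M.tw σ r * M.tw σ (-r) = 1 := by
  rw [tw, tw, zpow_neg, ← Units.val_mul, mul_inv_cancel, Units.val_one]

lemma tw_ne (σ : M.Γ) (r : ℤ) : M.tw σ r ≠ 0 := Units.ne_zero _

lemma rep_eq_iff {C : M.Con} {r : ℤ} {σ : M.Γ} {x : (M.vs C).V} :
    M.rep C r σ x = x ↔ M.act C σ x = M.tw σ r • x := by
  rw [rep_apply]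
  constructor
  · intro h
    conv_rhs => rw [← h]
    rw [smul_smul, tw_mul_neg, one_smul]
  · intro h
    rw [h, smul_smul, mul_comm, tw_mul_neg, one_smul]

lemma cts_act [IsTopologicalRing Ω] : (C : M.Con) → (Cts fun σ => en (M.act C σ))
  | Con.unit => by
    intro L
    change Continuous fun _ : M.Γ => L (en (LinearEquiv.refl Ω Ω))
    exact continuous_const
  | Con.H j i => M.E.cont j i
  | Con.hom S T => by
    refine cts_cj (φ := fun σ => M.act S σ) (ψ := fun σ => M.act T σ) ?_ (cts_act T)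
    intro L
    have h1 : (fun σ => L (en (M.act S σ).symm)) =
        (fun σ => L (en (M.act S σ))) ∘ fun σ => σ⁻¹ := by
      ext σ
      rw [Function.comp_apply, act_inv]
    rw [h1]
    exact (cts_act S L).comp continuous_inv

lemma cts_rep [IsTopologicalRing Ω] (C : M.Con) (r : ℤ) : Cts fun σ => M.rep C r σ := by
  refine cts_smul (M.cts_act C) (f := fun σ => M.tw σ (-r)) ?_
  exact Units.continuous_val.comp (M.E.chi_cont.zpow (-r))

/-- The vectors killed by the Lie algebra of the Mumford-Tate group. -/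
noncomputable def kil (C : M.Con) : Submodule Ω (M.vs C).V where
  carrier := {v | ∀ A ∈ M.mtΩ, C.lie A v = 0}
  add_mem' hx hy A hA := by rw [map_add, hx A hA, hy A hA, add_zero]
  zero_mem' _ _ := map_zero _
  smul_mem' r x hx A hA := by rw [map_smul, hx A hA, smul_zero]

variable {M}

lemma kil_iff {C : M.Con} {v : (M.vs C).V} :
    v ∈ M.kil C ↔ ∀ A ∈ M.B.mt, C.lie (M.toΩ A) v = 0 := by
  constructor
  · intro h A hA
    exact h _ (Submodule.subset_span ⟨A, hA, rfl⟩)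
  · intro h A hA
    induction hA using Submodule.span_induction with
    | mem x hx =>
      obtain ⟨A, hA, rfl⟩ := hx
      exact h A hA
    | zero =>
      rw [← Con.lieL_apply, map_zero, LinearMap.zero_apply]
    | add x y _ _ hx hy =>
      rw [← Con.lieL_apply] at hx hy ⊢
      rw [map_add, LinearMap.add_apply, hx, hy, add_zero]
    | smul a x _ hx =>
      rw [← Con.lieL_apply] at hx ⊢
      rw [map_smul, LinearMap.smul_apply, hx, smul_zero]

/-- The vectors in `s` are fixed, up to a twist, by a common open subgroup `U` of `I`. -/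
lemma fixed_unif {I : Subgroup M.Γ} {C : M.Con} {r : ℤ} (s : Finset (M.vs C).V)
    (h : ∀ v ∈ s, M.FixedBy I C r v) : ∃ U : OpenSubgroup M.Γ,
      ∀ v ∈ s, ∀ σ ∈ I, σ ∈ U → M.act C σ v = M.tw σ r • v := by
  induction s using Finset.induction_on with
  | empty =>
    exact ⟨⊤, by simp⟩
  | insert v s hv ih =>
    obtain ⟨U, hUs⟩ := ih fun w hw => h w (Finset.mem_insert_of_mem hw)
    obtain ⟨U', hUv⟩ := h v (Finset.mem_insert_self v s)
    refine ⟨U ⊓ U', fun w hw σ hσ hσU => ?_⟩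
    rcases Finset.mem_insert.1 hw with rfl | hw
    · exact hUv σ hσ hσU.2
    · exact hUs w hw σ hσ hσU.1

lemma fixed_span {I : Subgroup M.Γ} {C : M.Con} {r : ℤ} {S : Set (M.vs C).V}
    (h : ∀ v ∈ S, M.FixedBy I C r v) : ∃ U : OpenSubgroup M.Γ,
      ∀ v ∈ Submodule.span Ω S, ∀ σ ∈ I, σ ∈ U → M.act C σ v = M.tw σ r • v := by
  obtain ⟨s, hs, hsp⟩ := (Submodule.fg_span_iff_fg_span_finset_subset S).1
    (IsNoetherian.noetherian (Submodule.span Ω S))
  obtain ⟨U, hUs⟩ := fixed_unif s fun v hv => h v (hs hv)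
  refine ⟨U, fun v hv σ hσ hσU => ?_⟩
  rw [hsp] at hv
  induction hv using Submodule.span_induction with
  | mem x hx => exact hUs x hx σ hσ hσU
  | zero => rw [map_zero, smul_zero]
  | add x y _ _ hx hy => rw [map_add, hx, hy, smul_add]
  | smul a x _ hx => rw [map_smul, hx, smul_comm]

variable [CharZero Ω]

omit [CharZero Ω] in
lemma lie_vec' [CharZero Ω] {C : M.Con} (hC : M.Below C) (A : MatTwo M.n)
    (t : C.Idx M.n → ℚ) (ht : (C.rm M.B.R A).mulVec t = 0) :
    C.lie (M.toΩ A) (M.vec C t) = 0 := by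
  have h1 := Con.lie_vec M.rat A C hC t
  change C.lie (op M.b A) (C.vec (V := coh M.E.X) M.b t) = 0
  rw [h1, ht]
  simp [Con.vec]

lemma kil_le {C : M.Con} (hC : M.Below C) : M.kil C ≤
    Submodule.span Ω {w | ∃ t : C.Idx M.n → ℚ, (∀ A ∈ M.B.mt, (C.rm M.B.R A).mulVec t = 0) ∧
      w = M.vec C t} := fun _ hv =>
  Con.rat_span M.rat C hC (𝒮 := {A | A ∈ M.B.mt}) fun A hA => kil_iff.1 hv A hA

lemma hodge_le {C : M.Con} (hC : M.Below C) : M.hodge C ≤ M.kil C := by
  refine Submodule.span_le.2 ?_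
  rintro _ ⟨t, ht, rfl⟩
  exact kil_iff.2 fun A hA => lie_vec' hC A t (M.B.mt_kills hC ht A hA)

variable [IsAlgClosed Ω] (L : M.MumfordTateTwo) (hR : M.Reductive) [IsTopologicalRing Ω] [T2Space Ω]

include L hR in
lemma kil_stable {C : M.Con} (σ : M.Γ) {v : (M.vs C).V} (hv : v ∈ M.kil C) :
    M.act C σ v ∈ M.kil C := by
  intro A hA
  have h1 := norm_mt L hR σ⁻¹ hA
  set A' := conj (M.E.F σ⁻¹) A with hA'
  have h2 : conj (M.E.F σ) A' = A := by
    refine EndTwo.ext fun j => ?_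
    rw [hA', conj, conj, M.E.phi_inv]
    refine LinearMap.ext fun x => ?_
    simp [adE, LinearEquiv.conj_apply]
  have h3 := Con.act_lie (M.E.F σ) C A' v
  rw [h2, hv A' h1, map_zero] at h3
  exact h3.symm

include L hR in
lemma rep_stable {C : M.Con} (r : ℤ) (σ : M.Γ) : ∀ v ∈ M.kil C, M.rep C r σ v ∈ M.kil C :=
  fun _ hv => Submodule.smul_mem _ _ (kil_stable L hR σ hv)

/-- The Galois group acts quasi-unipotently on the vectors killed by the Lie algebra of the
Mumford-Tate group. -/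
lemma kil_quasi {C : M.Con} (hC : M.Below C) {r : ℤ} (hr : C.wt = 2 * r) (σ : M.Γ) (t : Ω)
    (ht : (subRep (M.rep C r) (M.kil C) (rep_stable L hR r) σ).HasEigenvalue t) :
    t ^ (2 * (2 * C.dg M.E.X).factorial) = 1 := by
  set m := (2 * C.dg M.E.X).factorial with hm
  set ρ := subRep (M.rep C r) (M.kil C) (rep_stable L hR r) with hρ
  have hcts : Cts fun σ => ρ σ := cts_subRep _ (M.cts_rep C r)
  obtain ⟨j⟩ : Nonempty (QQ →+* Ω) := ⟨(IsAlgClosed.lift : QQ →ₐ[ℚ] Ω).toRingHom⟩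
  -- good Frobenius elements
  have hgood : ∀ (σ : M.Γ) (p : ℕ), MF.GoodFrobenius (M.E.F σ) p → ∀ t : Ω,
      (ρ σ).HasEigenvalue t → t ^ (2 * m) = 1 := by
    intro σ p g t ht
    obtain ⟨x, hx⟩ := ht.exists_hasEigenvector
    have hx0 : (x : (M.vs C).V) ≠ 0 := fun h => hx.2 (Subtype.ext h)
    have h1 : M.rep C r σ x = t • (x : (M.vs C).V) := by
      have h2 := congrArg (fun y : M.kil C => (y : (M.vs C).V)) hx.apply_eq_smul
      exact h2
    have h2 : M.act C σ x = (M.tw σ r * t) • (x : (M.vs C).V) := by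
      rw [mul_smul, ← h1, rep_apply, smul_smul, tw_mul_neg, one_smul]
    have h3 : (x : (M.vs C).V) ∈
        (en (M.act C σ)).maxGenEigenspace (M.tw σ r * t) := by
      rw [Module.End.mem_maxGenEigenspace]
      refine ⟨1, ?_⟩
      rw [pow_one, LinearMap.sub_apply]
      change M.act C σ x - (M.tw σ r * t) • (x : (M.vs C).V) = 0
      rw [h2, sub_self]
    have h4 : ∀ ι : QQ →+* g.place.C, C.lie (weightOp (M.E.F σ) (WI j ι g.place.val)) x = 0 :=
      fun ι => x.2 _ (L.torus' σ _ fun s => U_frob (g.at s) j ι _ (M.E.two_le s))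
    have h5 := eig_killed g j M.E.two_le hC hr hx0 h4 h3
    rw [← hm] at h5
    have hp0 : (p : Ω) ≠ 0 := by exact_mod_cast g.prime.ne_zero
    have h6 : (M.tw σ r / (p : Ω) ^ r) ^ 2 = 1 := by
      obtain ⟨s⟩ := M.E.ne
      have h7 : ((M.E.chi σ : Ωˣ) : Ω) ^ 2 = (p : Ω) ^ 2 := by
        rw [← M.E.chi_sq σ s, g.mult]
      rw [tw, Units.val_zpow_eq_zpow_val, div_pow, ← zpow_natCast, ← zpow_natCast, ← zpow_mul,
        ← zpow_mul, mul_comm r, zpow_mul, zpow_mul, zpow_natCast, zpow_natCast, h7, div_self]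
      exact zpow_ne_zero _ (pow_ne_zero _ hp0)
    have h7 : t ^ (2 * m) = ((M.tw σ r * t / (p : Ω) ^ r) ^ m) ^ 2 /
        ((M.tw σ r / (p : Ω) ^ r) ^ 2) ^ m := by
      have h8 : M.tw σ r ≠ 0 := M.tw_ne σ r
      have h9 : (p : Ω) ^ r ≠ 0 := zpow_ne_zero _ hp0
      have h10 : ((M.tw σ r * t / (p : Ω) ^ r) ^ m) ^ 2 =
          ((M.tw σ r / (p : Ω) ^ r) ^ 2) ^ m * t ^ (2 * m) := by ring
      rw [h10, mul_div_cancel_left₀]
      exact pow_ne_zero _ (pow_ne_zero _ (div_ne_zero h8 h9))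
    rw [h7, h5, h6]
    simp
  have hz : ∀ L' : Module.End Ω (M.kil C) →ₗ[Ω] Ω, ∀ σ,
      L' ((ρ σ ^ (2 * m) - 1) ^ (finrank Ω (M.kil C))) = 0 := by
    intro L' σ
    have hcont : Continuous fun σ => L' ((ρ σ ^ (2 * m) - 1) ^ (finrank Ω (M.kil C))) :=
      cts_pow (cts_sub (cts_pow hcts _) (cts_const 1)) _ L'
    by_contra hne
    obtain ⟨σ', hσ', p, ⟨g⟩⟩ := M.E.dense
      {σ | L' ((ρ σ ^ (2 * m) - 1) ^ (finrank Ω (M.kil C))) ≠ 0}
      (isOpen_ne_fun hcont continuous_const) ⟨σ, hne⟩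
    exact hσ' (by
      rw [t_qu Ω _ (ρ σ') (2 * m) (hgood σ' p g), map_zero])
  have hz' : (ρ σ ^ (2 * m) - 1) ^ (finrank Ω (M.kil C)) = 0 :=
    (Module.forall_dual_apply_eq_zero_iff Ω _).1 fun L' => hz L' σ
  obtain ⟨x, hx⟩ := ht.exists_hasEigenvector
  have h1 : ∀ n : ℕ, (ρ σ ^ n) x = t ^ n • x := by
    intro n
    induction n with
    | zero => rw [pow_zero, pow_zero, one_smul, Module.End.one_apply]
    | succ n ih =>
      rw [pow_succ, Module.End.mul_apply, hx.apply_eq_smul, map_smul, ih, smul_smul, pow_succ']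
  have h2 : ∀ n : ℕ, ((ρ σ ^ (2 * m) - 1) ^ n) x = (t ^ (2 * m) - 1) ^ n • x := by
    intro n
    induction n with
    | zero => rw [pow_zero, pow_zero, one_smul, Module.End.one_apply]
    | succ n ih =>
      rw [pow_succ, Module.End.mul_apply, LinearMap.sub_apply, h1, Module.End.one_apply]
      have h3 : t ^ (2 * m) • x - x = (t ^ (2 * m) - 1) • x := by rw [sub_smul, one_smul]
      rw [h3, map_smul, ih, smul_smul, pow_succ']
  have h3 := h2 (finrank Ω (M.kil C))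
  rw [hz', LinearMap.zero_apply] at h3
  exact sub_eq_zero.1 (eq_zero_of_pow_eq_zero ((smul_eq_zero.1 h3.symm).resolve_right hx.2))

include L hR in
/-- The vectors killed by the Lie algebra of the Mumford-Tate group are fixed by an open subgroup of
the Galois group, after the Tate twist. -/
theorem kil_fixed (N : M.Arithmetic) {C : M.Con} (hC : M.Below C) {r : ℤ}
    (hr : C.wt = 2 * r) : ∃ U : OpenSubgroup M.Γ, ∀ v ∈ M.kil C,
      ∀ σ ∈ U, M.act C σ v = M.tw σ r • v := by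
  set ρ := subRep (M.rep C r) (M.kil C) (rep_stable L hR r) with hρ
  have hcts : Cts fun σ => ρ σ := cts_subRep _ (M.cts_rep C r)
  have hI : ∀ v, (∃ (Φ : M.Γ) (q : ℕ) (U : Subgroup M.Γ), 2 ≤ q ∧
      IsOpen (U : Set M.Γ) ∧ ∀ τ ∈ U ⊓ N.I v, ρ (Φ * τ * Φ⁻¹) = (ρ τ) ^ q) ∨
      ∃ U : Subgroup M.Γ, IsOpen (U : Set M.Γ) ∧ ∀ τ ∈ U ⊓ N.I v, ρ τ = 1 := by
    intro v
    rcases N.inertia v with ⟨Φ, q, U, hq, h⟩ | ⟨Θ, hΘ, h⟩
    · refine Or.inl ⟨Φ, q, U, hq, U.isOpen, fun τ hτ => ?_⟩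
      obtain ⟨h1, h2⟩ := h τ hτ.2 hτ.1
      have h3 : M.act C (Φ * τ * Φ⁻¹) = (M.act C τ) ^ q :=
        Con.act_pow (V := coh M.E.X) (fun j i hi => LinearEquiv.toLinearMap_injective
          ((h2 j i hi).trans (en_pow' _ _).symm)) C hC
      refine LinearMap.ext fun x => Subtype.ext ?_
      rw [hρ, subRep_pow_coe, subRep_coe]
      have h4 : M.rep C r (Φ * τ * Φ⁻¹) = (M.rep C r τ) ^ q := by
        change M.tw (Φ * τ * Φ⁻¹) (-r) • en (M.act C (Φ * τ * Φ⁻¹)) =
          (M.tw τ (-r) • en (M.act C τ)) ^ q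
        rw [tw, tw, map_mul, map_mul, h1, mul_one, map_inv, mul_inv_cancel, one_zpow,
          Units.val_one, one_smul, one_smul, h3, en_pow']
      rw [h4]
    · obtain ⟨U, h2⟩ := fixed_span (M := M) (I := N.I v) (C := C) (r := r)
        (S := {w | ∃ t : C.Idx M.n → ℚ, (∀ A ∈ M.B.mt, (C.rm M.B.R A).mulVec t = 0) ∧
          w = M.vec C t}) (by
          rintro _ ⟨t, ht, rfl⟩
          refine h C hC r hr t ?_
          have h3 : M.vec C t ∈ M.kil C :=
            kil_iff.2 fun A hA => lie_vec' hC A t (ht A hA)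
          exact h3 Θ hΘ)
      refine Or.inr ⟨U, U.isOpen, fun τ hτ => ?_⟩
      refine LinearMap.ext fun x => Subtype.ext ?_
      rw [hρ, subRep_coe]
      exact (rep_eq_iff M).2 (h2 x (kil_le hC x.2) τ hτ.2 hτ.1)
  have hD : ∀ U : Subgroup M.Γ, IsOpen (U : Set M.Γ) → ∀ W : Submodule Ω (M.kil C),
      (∀ σ ∈ U ⊓ N.D, ∀ x ∈ W, ρ σ x ∈ W) →
      ∃ W' : Submodule Ω (M.kil C), IsCompl W W' ∧ ∀ σ ∈ U ⊓ N.D, ∀ x ∈ W', ρ σ x ∈ W' := by
    intro U hU W hW
    have hiff : ∀ (V : Submodule Ω (M.vs C).V) (σ : M.Γ) (x : (M.vs C).V),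
        M.rep C r σ x ∈ V ↔ M.act C σ x ∈ V := by
      intro V σ x
      rw [rep_apply]
      exact Submodule.smul_mem_iff _ (M.tw_ne σ _)
    obtain ⟨V', h1, h2⟩ := N.geometric ⟨U, hU⟩ C hC (W.map (M.kil C).subtype) (by
      rintro σ hσ _ ⟨x, hx, rfl⟩
      exact (hiff _ σ _).1 ⟨ρ σ x, hW σ hσ x hx, rfl⟩)
    refine ⟨V'.comap (M.kil C).subtype, ⟨?_, ?_⟩, fun σ hσ x hx => ?_⟩
    · rw [Submodule.disjoint_def]
      intro x hx hx'
      have h3 : (x : (M.vs C).V) ∈ (W.map (M.kil C).subtype) ⊓ V' :=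
        ⟨⟨x, hx, rfl⟩, hx'⟩
      rw [h1.inf_eq_bot, Submodule.mem_bot] at h3
      exact Subtype.ext h3
    · rw [codisjoint_iff, eq_top_iff]
      intro x _
      have h3 : (x : (M.vs C).V) ∈ (W.map (M.kil C).subtype) ⊔ V' := by
        rw [h1.sup_eq_top]
        exact Submodule.mem_top
      obtain ⟨_, ⟨y, hy, rfl⟩, z, hz, hyz⟩ := Submodule.mem_sup.1 h3
      have h4 : z ∈ M.kil C := by
        have h5 : z = (x : (M.vs C).V) - y := by
          rw [← hyz]
          simp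
        rw [h5]
        exact (M.kil C).sub_mem x.2 y.2
      exact Submodule.mem_sup.2 ⟨y, hy, ⟨z, h4⟩, hz, Subtype.ext hyz⟩
    · exact (hiff V' σ x).2 (h2 σ hσ x hx)
  obtain ⟨U, hU, hUρ⟩ := open_trivial ρ hcts
    (m := 2 * (2 * C.dg M.E.X).factorial) (Nat.mul_pos two_pos (Nat.factorial_pos _))
    (fun σ t ht => kil_quasi L hR hC hr σ t ht) N.D hD N.I hI
    (fun U hU f h1 h2 h3 h4 σ hσ => N.cft ⟨U, hU⟩ f ⟨h1, h2⟩ (fun τ hτ hτU => h3 τ ⟨hτU, hτ⟩)
      (fun v τ hτ hτU => h4 v τ ⟨hτU, hτ⟩) σ trivial hσ)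
  refine ⟨⟨U, hU⟩, fun v hv σ hσ => ?_⟩
  have h1 := congrArg (fun f : Module.End Ω (M.kil C) =>
    ((f ⟨v, hv⟩ : M.kil C) : (M.vs C).V)) (hUρ σ hσ)
  exact (rep_eq_iff M).1 h1

include L in
/-- **Theorem A.** The Tate classes are the combinations of the Hodge classes. -/
theorem tate_iff (hR : M.Reductive) (N : M.Arithmetic) {C : M.Con} (hC : M.Below C) {r : ℤ}
    (hw : C.wt = 2 * r) (v : (M.vs C).V) : M.IsTate C r v ↔ v ∈ M.hodge C := by
  refine ⟨fun h => tate_hodge L hR hC h, fun h => ?_⟩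
  obtain ⟨U, h1⟩ := kil_fixed L hR N hC hw
  exact ⟨U, fun σ _ hσ => h1 v (hodge_le hC h) σ hσ⟩

end HKMotive

end Pool.Agent.J4H44.MF
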