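import Pool.Agent.N184.HK.Coh

/-!
# Tensor constructions and rational structures

Linear algebra for the cohomology of finitely many hyperkähler varieties `X j`, `j ∈ J`.
-/

set_option autoImplicit false

namespace Pool.Agent.J4H44.MF

open Module
open Pool.Agent.N184.HK (Cohomology Skew)

/-! ### Operators -/

section

variable {K V W : Type} [Field K] [AddCommGroup V] [Module K V] [AddCommGroup W] [Module K W]

/-- The operator `f ↦ b f - f a` on the linear maps `f : V → W`. -/
def dr (a : Module.End K V) (b : Module.End K W) : Module.End K (V →ₗ[K] W) :=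
  LinearMap.compRight K b - LinearMap.lcomp K W a

/-- The automorphism `f ↦ b f a⁻¹` of the linear maps `f : V → W`. -/
def cj (a : V ≃ₗ[K] V) (b : W ≃ₗ[K] W) : (V →ₗ[K] W) ≃ₗ[K] (V →ₗ[K] W) :=
  LinearEquiv.arrowCongr a b

/-- The operator `S` acts as the scalar `w e` on the generalized eigenspace of `T` for the
eigenvalue `e`, for all `e`. -/
def Acts (T S : Module.End K V) (w : K → K) : Prop :=
  ∀ e, ∀ x ∈ T.maxGenEigenspace e, S x = w e • x

/-- The trace of a product. -/
noncomputable def trm (A B : Module.End K V) : K := LinearMap.trace K V (A * B)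

/-- The operator `T` is diagonalizable. -/
def IsDiag (T : Module.End K V) : Prop := (⨆ x : K, T.eigenspace x) = ⊤

/-- The coefficients of `g σ` are continuous functions. -/
def Cts {Γ : Type} [TopologicalSpace K] [TopologicalSpace Γ] (g : Γ → Module.End K V) : Prop :=
  ∀ L : Module.End K V →ₗ[K] K, Continuous fun σ => L (g σ)

/-- The endomorphism with the rational matrix `A`. -/
noncomputable def ofRat {m : ℕ} (b : Basis (Fin m) K V) (A : Matrix (Fin m) (Fin m) ℚ) :
    Module.End K V :=
  Matrix.toLin b b (A.map fun x => (x : K))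

end

/-! ### Tensor constructions -/

/-- The tensor constructions on the vector spaces `H j i`: the unit object, the `H j i`, and the
spaces of homomorphisms `S → T` (so also duals and tensor products). -/
inductive Con (J : Type) : Type
  | unit : Con J
  | H (j : J) (i : ℕ) : Con J
  | hom (S T : Con J) : Con J

/-- A finite-dimensional vector space. -/
structure Vec (K : Type) [Field K] where
  V : Type
  [grp : AddCommGroup V]
  [mod : Module K V]
  [fin : FiniteDimensional K V]

attribute [instance] Vec.grp Vec.mod Vec.fin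

namespace Con

variable {J : Type}

/-- The weight, if `H j i` has weight `i`. -/
def wt : Con J → ℤ
  | unit => 0
  | H _ i => i
  | hom S T => T.wt - S.wt

/-- The construction only involves the `H j i` with `i ≤ d j`. -/
def Below (d : J → ℕ) : Con J → Prop
  | unit => True
  | H j i => i ≤ d j
  | hom S T => S.Below d ∧ T.Below d

/-- The indices of the basis of the construction, if `H j i` has a basis indexed by
`Fin (n j i)`. -/
def Idx (n : J → ℕ → ℕ) : Con J → Type
  | unit => Unit
  | H j i => Fin (n j i)
  | hom S T => T.Idx n × S.Idx n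

instance finiteIdx (n : J → ℕ → ℕ) : (C : Con J) → Finite (C.Idx n)
  | unit => inferInstanceAs (Finite Unit)
  | H j i => inferInstanceAs (Finite (Fin (n j i)))
  | hom S T => by
    have := finiteIdx n S
    have := finiteIdx n T
    exact inferInstanceAs (Finite (T.Idx n × S.Idx n))

noncomputable instance fintypeIdx (n : J → ℕ → ℕ) (C : Con J) : Fintype (C.Idx n) :=
  Fintype.ofFinite (C.Idx n)

noncomputable instance decEqIdx (n : J → ℕ → ℕ) (C : Con J) : DecidableEq (C.Idx n) :=
  Classical.decEq (C.Idx n)

section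

variable {K : Type} [Field K]

/-- The vector space given by the construction. -/
def vs (V : J → ℕ → Vec K) : Con J → Vec K
  | unit => ⟨K⟩
  | H j i => V j i
  | hom S T => ⟨(S.vs V).V →ₗ[K] (T.vs V).V⟩

variable {V : J → ℕ → Vec K}

/-- The action of the automorphisms `φ j i` of the `H j i`; on `S → T` it is the conjugation. -/
def act (φ : ∀ j i, (V j i).V ≃ₗ[K] (V j i).V) : (C : Con J) → ((C.vs V).V ≃ₗ[K] (C.vs V).V)
  | unit => LinearEquiv.refl K K
  | H j i => φ j i
  | hom S T => cj (S.act φ) (T.act φ)

/-- The derivation given by the endomorphisms `a j i` of the `H j i`. -/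
def der (a : ∀ j i, Module.End K (V j i).V) : (C : Con J) → Module.End K (C.vs V).V
  | unit => 0
  | H j i => a j i
  | hom S T => dr (S.der a) (T.der a)

/-- The basis given by bases of the `H j i`. -/
noncomputable def bas {n : J → ℕ → ℕ} (b : ∀ j i, Basis (Fin (n j i)) K (V j i).V) :
    (C : Con J) → Basis (C.Idx n) K (C.vs V).V
  | unit => Basis.singleton Unit K
  | H j i => b j i
  | hom S T => (S.bas b).linearMap (T.bas b)

/-- The vector with the rational coordinates `t`. -/
noncomputable def vec {n : J → ℕ → ℕ} (b : ∀ j i, Basis (Fin (n j i)) K (V j i).V) (C : Con J)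
    (t : C.Idx n → ℚ) : (C.vs V).V :=
  ∑ x, ((t x : ℚ) : K) • C.bas b x

end

end Con

/-! ### One variety -/

section

variable {K : Type} [Field K] {d : ℕ} {c : ℚ}

/-- The action of `A` on `H^i`. -/
def lieOn (X : Cohomology K d c) (i : ℕ) (A : Module.End K (X.H 2)) : Module.End K (X.H i) :=
  X.ρ i A

/-- The operator on `H^i` given by the automorphism `F`. -/
def autOn {X : Cohomology K d c} (F : X.Auto) (i : ℕ) : Module.End K (X.H i) :=
  (F.φ i).toLinearMap

/-- The operator `z` is an idempotent which commutes with the automorphism `F` and with the Lie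
algebra `so(H²)`. -/
structure IsProj {X : Cohomology K d c} (F : X.Auto) (i : ℕ) (z : Module.End K (X.H i)) : Prop where
  idem : z * z = z
  aut : Commute z (autOn F i)
  lie : ∀ A, Skew X.q A → Commute z (lieOn X i A)

/-- The form `q` is given by the rational matrix `G`. -/
def HasGram (X : Cohomology K d c) {m : ℕ} (b : Basis (Fin m) K (X.H 2))
    (G : Matrix (Fin m) (Fin m) ℚ) : Prop :=
  ∀ x y, X.q (b x) (b y) = ((G x y : ℚ) : K)

/-- The action of the Lie algebra is given by the map `R` on rational matrices. -/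
def HasAction (X : Cohomology K d c) {n : ℕ → ℕ} (b : ∀ i, Basis (Fin (n i)) K (X.H i))
    (R : ∀ i, Matrix (Fin (n 2)) (Fin (n 2)) ℚ → Matrix (Fin (n i)) (Fin (n i)) ℚ) : Prop :=
  ∀ i ≤ d, ∀ A, lieOn X i (ofRat (b 2) A) = ofRat (b i) (R i A)

/-- The `b i` are bases of the rational cohomology: the form `q` and the action of the Lie algebra are
rational, and given by the matrix `G` and by the map `R`. -/
structure IsRational (X : Cohomology K d c) {n : ℕ → ℕ} (b : ∀ i, Basis (Fin (n i)) K (X.H i))
    (G : Matrix (Fin (n 2)) (Fin (n 2)) ℚ)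
    (R : ∀ i, Matrix (Fin (n 2)) (Fin (n 2)) ℚ → Matrix (Fin (n i)) (Fin (n i)) ℚ) : Prop where
  gram : HasGram X (b 2) G
  act : HasAction X b R

end

/-! ### Several varieties -/

/-- The vector spaces `H^i (X j)`. -/
abbrev coh {K J : Type} [Field K] {d : J → ℕ} {c : J → ℚ} (X : ∀ j, Cohomology K (d j) (c j)) :
    J → ℕ → Vec K :=
  fun j i => ⟨(X j).H i⟩

/-- Endomorphisms `A j` of the spaces `H² (X j)`. -/
def EndTwo {K J : Type} [Field K] {d : J → ℕ} {c : J → ℚ}
    (X : ∀ j, Cohomology K (d j) (c j)) : Type :=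
  ∀ j, Module.End K ((X j).H 2)

/-- Rational matrices `A j`, of the size of `H² (X j)`. -/
def MatTwo {J : Type} (n : J → ℕ → ℕ) : Type := ∀ j, Matrix (Fin (n j 2)) (Fin (n j 2)) ℚ

section

variable {K J : Type} [Field K] {d : J → ℕ} {c : J → ℚ} (X : ∀ j, Cohomology K (d j) (c j))
  (n : J → ℕ → ℕ)

noncomputable instance instGrpEndTwo : AddCommGroup (EndTwo X) :=
  @Pi.addCommGroup J (fun j => Module.End K ((X j).H 2)) fun _ => LinearMap.addCommGroup

noncomputable instance instModEndTwo : Module K (EndTwo X) :=
  @Pi.module J (fun j => Module.End K ((X j).H 2)) K _ (fun _ => LinearMap.addCommMonoid)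
    fun _ => LinearMap.module

instance instRingMatTwo : Ring (MatTwo n) :=
  @Pi.ring J (fun j => Matrix (Fin (n j 2)) (Fin (n j 2)) ℚ) fun _ => Matrix.instRing

instance instModMatTwo : Module ℚ (MatTwo n) :=
  @Pi.module J (fun j => Matrix (Fin (n j 2)) (Fin (n j 2)) ℚ) ℚ _ (fun _ => Matrix.addCommMonoid)
    fun _ => Matrix.module

end

section

variable {K J : Type} [Field K] {d : J → ℕ} {c : J → ℚ} {X : ∀ j, Cohomology K (d j) (c j)}

/-- The action of the element `A` of the product of the Lie algebras `so(H² (X j))`. -/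
def Con.lie (C : Con J) (A : EndTwo X) : Module.End K (C.vs (coh X)).V :=
  C.der (V := coh X) fun j i => lieOn (X j) i (A j)

/-- The endomorphisms of the `H² (X j)` with the rational matrices `A j`. -/
noncomputable def op {n : J → ℕ → ℕ} (b : ∀ j i, Basis (Fin (n j i)) K ((X j).H i))
    (A : MatTwo n) : EndTwo X :=
  fun j => ofRat (b j 2) (A j)

/-- The operators `A j` are skew for the forms `q`. -/
def IsSkew (A : EndTwo X) : Prop := ∀ j, Skew (X j).q (A j)

/-- The element `A` acts on all cohomology groups by diagonalizable operators. -/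
def IsSemisimple (A : EndTwo X) : Prop := ∀ j, ∀ i ≤ d j, IsDiag (lieOn (X j) i (A j))

/-- The automorphisms `F j` are the `q`-th powers of the automorphisms `G j`. -/
def IsPow (F G : ∀ j, (X j).Auto) (q : ℕ) : Prop :=
  ∀ j, ∀ i ≤ d j, autOn (F j) i = autOn (G j) i ^ q

/-- The `F j` act on the `H² (X j)` with the logarithm `A j`. -/
def HasLog (l : K → K) (F : ∀ j, (X j).Auto) (A : EndTwo X) : Prop :=
  ∀ j, Acts (autOn (F j) 2) (A j) l

end

/-- The complex cohomology of projective hyperkähler varieties `X j`, with bases of the rational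
cohomology, and the Hodge structures: `p - q = 2 (ρ i (Θ j))` on `H^{p,q} (X j)`, where
`p + q = i`. -/
structure HodgeData (J : Type) (d : J → ℕ) (c : J → ℚ) (n : J → ℕ → ℕ) where
  Y : ∀ j, Cohomology ℂ (d j) (c j)
  b : ∀ j i, Basis (Fin (n j i)) ℂ ((Y j).H i)
  G : MatTwo n
  R : ∀ j i, Matrix (Fin (n j 2)) (Fin (n j 2)) ℚ → Matrix (Fin (n j i)) (Fin (n j i)) ℚ
  rat : ∀ j, IsRational (Y j) (b j) (G j) (R j)
  Θ : EndTwo Y
  skew : IsSkew Θ

namespace HodgeData

variable {J : Type} {d : J → ℕ} {c : J → ℚ} {n : J → ℕ → ℕ} (B : HodgeData J d c n)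

/-- The rational tensor `t` (in a construction of weight `2 r`) is a Hodge class (of type
`(r, r)`). -/
def IsHodge (C : Con J) (t : C.Idx n → ℚ) : Prop :=
  C.lie B.Θ (C.vec (V := coh B.Y) B.b t) = 0

/-- `𝔥` is a Lie subalgebra over `ℚ` of the product of the `so(H² (X j))` whose complexification
contains `Θ`. -/
structure Contains (𝔥 : Submodule ℚ (MatTwo n)) : Prop where
  skew : ∀ A ∈ 𝔥, IsSkew (op B.b A)
  lie : ∀ A ∈ 𝔥, ∀ A' ∈ 𝔥, A * A' - A' * A ∈ 𝔥
  mem : B.Θ ∈ Submodule.span ℂ (op B.b '' 𝔥)

/-- The Lie algebra (over `ℚ`) of the special Mumford-Tate group of the sum of the `H² (X j)`: the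
smallest Lie subalgebra of the product of the `so(H² (X j))` whose complexification contains `Θ`. -/
def mt : Submodule ℚ (MatTwo n) := sInf {𝔥 | B.Contains 𝔥}

end HodgeData

end Pool.Agent.J4H44.MF
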