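import Pool.Agent.J4H44.MF.Defs

/-!
# The Mumford-Tate conjecture for projective hyperkähler varieties: definitions
-/

set_option autoImplicit false

namespace Pool.Agent.J4H44.MF

open Module Polynomial
open Pool.Agent.N184.HK (Cohomology Skew)

/-! ### Good reduction -/

/-- An algebraic closure `C` of the `p`-adic numbers, with the `p`-adic valuation. -/
structure Place (p : ℕ) where
  C : Type
  [field : Field C]
  [closed : IsAlgClosed C]
  [char : CharZero C]
  val : AddValuation C (WithTop ℚ)
  norm : val (p : C) = 1

attribute [instance] Place.field Place.closed Place.char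

/-- The slope `val e`, as an element of `C`. -/
noncomputable def Place.slope {p : ℕ} (P : Place p) (e : P.C) : P.C :=
  (((P.val e).untopD 0 : ℚ) : P.C)

/-- The cohomology `H i` with the Frobenius `F` and the Hodge filtration given by the eigenspaces of
`Θ + i / 2` is weakly admissible: for the image `W` of an idempotent `z`, stable under the Frobenius
and `so(H²)`, the Newton number of `W` (the trace of the slope operator `S` on `W`) is at least the
Hodge number (the trace of `Θ + i / 2` on `W`), with equality if `W` is `H i`. -/
def WeaklyAdmissible {p : ℕ} (P : Place p) {d : ℕ} {c : ℚ} {D : Cohomology P.C d c} (F : D.Auto)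
    (Θ : Module.End P.C (D.H 2)) (i : ℕ) : Prop :=
  ∀ S z, Acts (autOn F i) S P.slope → IsProj F i z →
    ∃ x : ℚ, 0 ≤ x ∧ (z = 1 → x = 0) ∧
      trm S z = trm (lieOn D i Θ) z + ((i / 2 : ℚ) : P.C) * trm 1 z + (x : P.C)

/-- The crystalline cohomology `D` of a fibre with good reduction over the field with `p` elements,
with the Frobenius `F`. The Hodge filtration on `H i` is given by an element `Θ` of `so(H²)`; it is
weakly admissible (Fontaine, Faltings). -/
structure Crys {p : ℕ} (P : Place p) (d : ℕ) (c : ℚ) where
  D : Cohomology P.C d c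
  F : D.Auto
  Θ : Module.End P.C (D.H 2)
  skew : Skew D.q Θ
  adm : ∀ i ≤ d, WeaklyAdmissible P F Θ i

/-- The integral polynomials `P i`, for `i ≤ d`, are monic, and their roots have absolute value
`p ^ (i / 2)`. -/
def IsWeilPoly (p d : ℕ) (P : ℕ → ℤ[X]) : Prop :=
  ∀ i ≤ d, (P i).Monic ∧ ∀ z ∈ ((P i).map (Int.castRingHom ℂ)).roots, ‖z‖ ^ 2 = (p : ℝ) ^ i

/-- The automorphisms `F j` of the étale cohomology of the `X j` are the geometric Frobenius element
of a point over the field with `p` elements, `p` a prime number: `F j` multiplies the form `q` by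
`p ^ 2`; the characteristic polynomials have integral coefficients and roots of absolute value
`p ^ (i / 2)` (Deligne); they are the characteristic polynomials of the Frobenius of the crystalline
cohomology (Katz, Messing). -/
structure GoodFrobenius {Ω J : Type} [Field Ω] {d : J → ℕ} {c : J → ℚ}
    {X : ∀ j, Cohomology Ω (d j) (c j)} (F : ∀ j, (X j).Auto) (p : ℕ) where
  prime : p.Prime
  mult : ∀ j, (F j).μ = (p : Ω) ^ 2
  poly : J → ℕ → ℤ[X]
  frobPoly : ∀ j, ∀ i ≤ d j, (autOn (F j) i).charpoly = (poly j i).map (Int.castRingHom Ω)
  weilPoly : ∀ j, IsWeilPoly p (d j) (poly j)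
  place : Place p
  crys : ∀ j, Crys place (d j) (c j)
  crysPoly : ∀ j, ∀ i ≤ d j,
    (autOn (crys j).F i).charpoly = (poly j i).map (Int.castRingHom place.C)

/-! ### Families of hyperkähler varieties -/

/-- The `ℓ`-adic cohomology of finitely many (at least one) projective hyperkähler varieties `X j`
over a finitely generated field `k` of characteristic zero, with coefficients extended to the
topological field `Ω`.

The varieties `X j` are the generic fibres of smooth projective families over a connected smooth
scheme `S` of finite type over `ℤ[1 / M]`, `ℓ ∣ M`, with the function field `k`. The fundamental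
group `Γ` of `S`, a quotient of the absolute Galois group of `k`, acts on the cohomology
continuously. The character `chi` is the action of `Γ` on `ℚ_ℓ(-1)`, the inverse of the cyclotomic
character; the form `q` on `H²` takes values in `ℚ_ℓ(-2)`. The geometric Frobenius elements of the
closed points of `S` whose residue field has a prime number of elements are dense in `Γ`
(Chebotarev's theorem). -/
structure Family (Ω : Type) [Field Ω] [TopologicalSpace Ω] where
  J : Type
  [fin : Finite J]
  [ne : Nonempty J]
  d : J → ℕ
  two_le : ∀ j, 2 ≤ d j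
  c : J → ℚ
  X : ∀ j, Cohomology Ω (d j) (c j)
  Γ : Type
  [grp : Group Γ]
  [top : TopologicalSpace Γ]
  [tgrp : IsTopologicalGroup Γ]
  [cpt : CompactSpace Γ]
  F : Γ → ∀ j, (X j).Auto
  mul : ∀ σ τ j i, (F (σ * τ) j).φ i = ((F τ j).φ i).trans ((F σ j).φ i)
  cont : ∀ j i, Cts fun σ => autOn (F σ j) i
  chi : Γ →* Ωˣ
  chi_cont : Continuous chi
  chi_sq : ∀ σ j, (F σ j).μ = (chi σ : Ω) ^ 2
  dense : ∀ O : Set Γ, IsOpen O → O.Nonempty →
    ∃ σ ∈ O, ∃ p : ℕ, Nonempty (GoodFrobenius (F σ) p)

attribute [instance] Family.fin Family.ne Family.grp Family.top Family.tgrp Family.cpt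

/-- The `ℓ`-adic cohomology `E` and the Betti cohomology `B` of finitely many projective hyperkähler
varieties over a finitely generated field (embedded in the complex numbers), of any deformation
types. The `b j i` are the bases of the `ℓ`-adic cohomology given by the bases of the rational
cohomology which are part of `B` (comparison theorem). -/
structure HKMotive (Ω : Type) [Field Ω] [TopologicalSpace Ω] where
  E : Family Ω
  n : E.J → ℕ → ℕ
  b : ∀ j i, Basis (Fin (n j i)) Ω ((E.X j).H i)
  B : HodgeData E.J E.d E.c n
  rat : ∀ j, IsRational (E.X j) (b j) (B.G j) (B.R j)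

/-- A homomorphism `w` to the rational numbers defined on a subgroup `U` of the multiplicative
group. -/
structure RatChar (K : Type) [Field K] where
  U : K → Prop
  ne : ∀ x, U x → x ≠ 0
  mul : ∀ x y, U x → U y → U (x * y)
  inv : ∀ x, U x → U x⁻¹
  w : K → ℚ
  w_mul : ∀ x y, U x → U y → w (x * y) = w x + w y

/-- The group `W.U` contains the eigenvalues of the `F j` on `H² (X j)`, and the operator `A j` on
`H² (X j)` is, up to a scalar, the image of the generator of the Lie algebra of the multiplicative
group, for the homomorphism of the multiplicative group to the torus generated by the semisimple part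
of `F j` which is given by `W.w`: on the generalized eigenspace for the eigenvalue `e` it is the
scalar `w e - w μ / 2`. -/
structure IsWeightOp {K J : Type} [Field K] {d : J → ℕ} {c : J → ℚ}
    {X : ∀ j, Cohomology K (d j) (c j)} (F : ∀ j, (X j).Auto) (W : RatChar K) (A : EndTwo X) :
    Prop where
  mem : ∀ j e, (autOn (F j) 2).HasEigenvalue e → W.U e
  acts : ∀ j, Acts (autOn (F j) 2) (A j) fun e => ((W.w e - W.w (F j).μ / 2 : ℚ) : K)

/-- The function `l` is a logarithm. -/
def IsLog {K : Type} [Field K] (l : K → K) : Prop := ∀ x y, x ≠ 0 → y ≠ 0 → l (x * y) = l x + l y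

namespace HKMotive

variable {Ω : Type} [Field Ω] [TopologicalSpace Ω] (M : HKMotive Ω)

/-- The fundamental group. -/
abbrev Γ : Type := M.E.Γ

/-- Endomorphisms of the `H² (X j)`. -/
abbrev End2 : Type := EndTwo M.E.X

/-- The tensor constructions. -/
abbrev Con : Type := MF.Con M.E.J

/-- The construction only involves the `H^i (X j)` with `i ≤ 2 dim X j`. -/
abbrev Below (C : M.Con) : Prop := C.Below M.E.d

/-- The vector space given by a construction. -/
abbrev vs (C : M.Con) : Vec Ω := C.vs (coh M.E.X)

/-- The action of `σ`. -/
abbrev act (C : M.Con) (σ : M.Γ) : (M.vs C).V ≃ₗ[Ω] (M.vs C).V :=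
  C.act (V := coh M.E.X) fun j => (M.E.F σ j).φ

/-- The image of the vector `v` under `σ`. -/
def mv (C : M.Con) (σ : M.Γ) (v : (M.vs C).V) : (M.vs C).V := M.act C σ v

/-- The image of the vector `v` under the operator given by `A`. -/
def lv (C : M.Con) (A : M.End2) (v : (M.vs C).V) : (M.vs C).V := C.lie A v

/-- The scalar `chi σ ^ r`. -/
def tw (σ : M.Γ) (r : ℤ) : Ω := ((M.E.chi σ ^ r : Ωˣ) : Ω)

/-- The vector with rational coordinates `t`. -/
noncomputable abbrev vec (C : M.Con) (t : C.Idx M.n → ℚ) : (M.vs C).V :=
  C.vec (V := coh M.E.X) M.b t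

/-- The endomorphisms of the `H² (X j)` with the rational matrices `A j`. -/
noncomputable abbrev toΩ (A : MatTwo M.n) : M.End2 := op M.b A

/-- The Lie algebra of the special Mumford-Tate group of the sum of the `H² (X j)`, with coefficients
extended to `Ω`. -/
noncomputable def mtΩ : Submodule Ω M.End2 := Submodule.span Ω (M.toΩ '' M.B.mt)

/-- An open subgroup of `I` acts on the vector `v` by the character `chi ^ r`. -/
def FixedBy (I : Subgroup M.Γ) (C : M.Con) (r : ℤ) (v : (M.vs C).V) : Prop :=
  ∃ U : OpenSubgroup M.Γ, ∀ σ ∈ I, σ ∈ U → M.mv C σ v = M.tw σ r • v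

/-- The subspace `V` is stable under the subgroup `I`. -/
def Inv (I : Subgroup M.Γ) (C : M.Con) (V : Submodule Ω (M.vs C).V) : Prop :=
  ∀ σ ∈ I, ∀ x ∈ V, M.mv C σ x ∈ V

/-- The representations of the subgroup `I` on the tensor constructions are semisimple. -/
def Semisimple (I : Subgroup M.Γ) : Prop :=
  ∀ C, M.Below C → ∀ V, M.Inv I C V → ∃ V', IsCompl V V' ∧ M.Inv I C V'

/-! ### Known facts on Galois groups -/

/-- The action of the inertia group `I` of a place which does not divide `ℓ` (Grothendieck's monodromy
theorem): for an open subgroup, `Φ τ Φ⁻¹` acts as `τ ^ q` for a Frobenius element `Φ`, and the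
cyclotomic character is trivial on `I`. -/
def Tame (I : Subgroup M.Γ) : Prop :=
  ∃ (Φ : M.Γ) (q : ℕ) (U : OpenSubgroup M.Γ), 2 ≤ q ∧
    ∀ τ ∈ I, τ ∈ U → M.E.chi τ = 1 ∧ IsPow (M.E.F (Φ * τ * Φ⁻¹)) (M.E.F τ) q

/-- A rational vector (in a construction of weight `2 r`) killed by `Θ` is fixed by an open subgroup
of `I`, after the Tate twist. -/
def KilledFixed (I : Subgroup M.Γ) (Θ : M.End2) : Prop :=
  ∀ C, M.Below C → ∀ r : ℤ, C.wt = 2 * r → ∀ t,
    M.lv C Θ (M.vec C t) = 0 → M.FixedBy I C r (M.vec C t)

/-- The action of the inertia group `I` of a place which divides `ℓ`. The operator `Θ` gives the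
Hodge-Tate decomposition, and it belongs to the Lie algebra of the Mumford-Tate group (Sen, and the
Mumford-Tate conjecture for `H²`); a rational vector killed by `Θ` is fixed by an open
subgroup of `I`, after the Tate twist (Sen's theorem). -/
def HodgeTate (I : Subgroup M.Γ) : Prop := ∃ Θ ∈ M.mtΩ, M.KilledFixed I Θ

/-- `f` is a continuous additive character of `U`. -/
structure AddChar (U : OpenSubgroup M.Γ) (f : M.Γ → Ω) : Prop where
  cont : ContinuousOn f (U : Set M.Γ)
  add : ∀ σ ∈ U, ∀ τ ∈ U, f (σ * τ) = f σ + f τ

/-- The function `f` on `U` is trivial on `I`. -/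
def TrivialOn (U : OpenSubgroup M.Γ) (f : M.Γ → Ω) (I : Subgroup M.Γ) : Prop :=
  ∀ τ ∈ I, τ ∈ U → f τ = 0

/-- A continuous additive character of an open subgroup which is trivial on `D` and on all inertia
groups `I v` is trivial. -/
def Unramified (D : Subgroup M.Γ) {ι : Type} (I : ι → Subgroup M.Γ) : Prop :=
  ∀ U f, M.AddChar U f → M.TrivialOn U f D → (∀ v, M.TrivialOn U f (I v)) → M.TrivialOn U f ⊤

/-- The known facts on the action of `Γ`. Let `k₀` be the number field of the elements of `k` which
are algebraic over `ℚ`, and `D` the image of the geometric fundamental group (the fundamental group of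
`S` over an algebraic closure of `k₀`). Choose a point `s` of the generic fibre of `S` over `ℤ`, with
values in a finite extension `k'` of `k₀`; the `I v` are the images in `Γ` of the inertia groups of
the finite places of an algebraic closure of `k'`. If `k` is a number field, then `D` is trivial and
one can take `k' = k`.

* `geometric`: open subgroups of `D` act in a semisimple way (Deligne).
* `inertia`: Grothendieck's monodromy theorem, and Sen's theorem.
* `cft`: finiteness of the class numbers of the finite extensions of `k'`. -/
structure Arithmetic where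
  D : Subgroup M.Γ
  geometric : ∀ U : OpenSubgroup M.Γ, M.Semisimple ((U : Subgroup M.Γ) ⊓ D)
  ι : Type
  I : ι → Subgroup M.Γ
  inertia : ∀ v, M.Tame (I v) ∨ M.HodgeTate (I v)
  cft : M.Unramified D I

/-- The semisimple elements of the Lie algebra of the Mumford-Tate group. -/
def ssMt : Set (MatTwo M.n) := {A | A ∈ M.B.mt ∧ IsSemisimple (M.toΩ A)}

/-- For a semisimple element `A` of the Lie algebra of the Mumford-Tate group there is an element `γ`
of each open subgroup with `log γ = N A`, for some `N ≥ 1`. -/
def LogSurj (l : Ω → Ω) : Prop :=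
  ∀ A ∈ M.ssMt, ∀ U : OpenSubgroup M.Γ,
    ∃ γ ∈ U, ∃ N : ℕ, 0 < N ∧ HasLog l (M.E.F γ) ((N : Ω) • M.toΩ A)

/-- The Lie algebras of the tori generated by the semisimple parts of the elements of the Galois
group (or rather their parts in the product of the `so(H² (X j))`) are contained in the Lie algebra
of the Mumford-Tate group. -/
def ToriIn : Prop :=
  ∀ σ (W : RatChar Ω) (A : M.End2), IsWeightOp (M.E.F σ) W A → A ∈ M.mtΩ

/-- The Mumford-Tate conjecture for the sum of the `H² (X j)` (André, Commelin), for the Lie algebras:
the Lie algebra of the image of the Galois group on the sum of the `H² (X j)` is the sum of the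
scalars and of the Lie algebra of the special Mumford-Tate group, with coefficients in `ℚ_ℓ`.
Here `lg` is the `ℓ`-adic logarithm. -/
structure MumfordTateTwo where
  lg : Ω → Ω
  isLog : IsLog lg
  log : M.LogSurj lg
  torus : M.ToriIn

/-- The subspace `V` is stable under the semisimple elements of the Lie algebra of the Mumford-Tate
group. -/
def Stable (C : M.Con) (V : Submodule Ω (M.vs C).V) : Prop :=
  ∀ A ∈ M.ssMt, ∀ x ∈ V, M.lv C (M.toΩ A) x ∈ V

/-- The Mumford-Tate group of the cohomology is reductive (polarizations): its Lie algebra is spanned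
by its semisimple elements, and its representations are completely reducible. -/
structure Reductive : Prop where
  span : M.B.mt ≤ Submodule.span ℚ M.ssMt
  compl : ∀ C, M.Below C → ∀ V, M.Stable C V → ∃ V', IsCompl V V' ∧ M.Stable C V'

/-! ### The Mumford-Tate group and the `ℓ`-adic monodromy group -/

/-- The vector `v` is a Tate class: it is fixed by an open subgroup of the Galois group after a Tate
twist by `r`. -/
def IsTate (C : M.Con) (r : ℤ) (v : (M.vs C).V) : Prop := M.FixedBy ⊤ C r v

/-- The space of the combinations of Hodge classes. -/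
noncomputable def hodge (C : M.Con) : Submodule Ω (M.vs C).V :=
  Submodule.span Ω (M.vec C '' {t | M.B.IsHodge C t})

/-- The points of the group `∏ GL(H^i (X j)) × GL(ℚ(-1))`: automorphisms of the cohomology groups and
of the Tate object. -/
structure Pt where
  φ : ∀ j i, (M.E.X j).H i ≃ₗ[Ω] (M.E.X j).H i
  u : Ωˣ

/-- The action of a point on a construction. -/
abbrev pact (C : M.Con) (g : M.Pt) : (M.vs C).V ≃ₗ[Ω] (M.vs C).V := C.act (V := coh M.E.X) g.φ

end HKMotive

/-- The function `f` is `L (φ g)` or `L ((φ g)⁻¹)`, for a linear functional `L` on the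
endomorphisms: a linear combination of matrix entries of the automorphisms or of their inverses. -/
def IsEntry {K V G : Type} [Field K] [AddCommGroup V] [Module K V] (φ : G → (V ≃ₗ[K] V))
    (f : G → K) : Prop :=
  ∃ L : Module.End K V →ₗ[K] K,
    (∀ g, f g = L (φ g).toLinearMap) ∨ ∀ g, f g = L (φ g).symm.toLinearMap

namespace HKMotive

variable {Ω : Type} [Field Ω] [TopologicalSpace Ω] (M : HKMotive Ω)

/-- The coordinates: the matrix entries of the automorphisms and of their inverses. -/
def IsCoord (f : M.Pt → Ω) : Prop :=
  (∀ g, f g = (g.u : Ω)) ∨ (∀ g, f g = ((g.u⁻¹ : Ωˣ) : Ω)) ∨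
    ∃ j, ∃ i ≤ M.E.d j, IsEntry (fun g : M.Pt => g.φ j i) f

/-- The polynomial functions. -/
def polyFun : Subalgebra Ω (M.Pt → Ω) := Algebra.adjoin Ω {f | M.IsCoord f}

/-- The point given by the action of `σ`. -/
def pt (σ : M.Γ) : M.Pt := ⟨fun j => (M.E.F σ j).φ, M.E.chi σ⟩

/-- The point `g` belongs to the Zariski closure of the image of `U`. -/
def InClosure (U : OpenSubgroup M.Γ) (g : M.Pt) : Prop :=
  ∀ f ∈ M.polyFun, (∀ σ ∈ U, f (M.pt σ) = 0) → f g = 0

/-- The point `g` belongs to the identity component of the `ℓ`-adic monodromy group (the Zariski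
closure of the image of `Γ`): the identity component is the intersection of the Zariski
closures of the images of the open subgroups. -/
def InMonodromy (g : M.Pt) : Prop := ∀ U, M.InClosure U g

/-- The point `g` belongs to the Mumford-Tate group of the cohomology (with coefficients extended to
`Ω`): it fixes the Hodge classes in all tensor constructions. -/
def InMumfordTate (g : M.Pt) : Prop :=
  ∀ C, M.Below C → ∀ r : ℤ, C.wt = 2 * r → ∀ t, M.B.IsHodge C t →
    M.pact C g (M.vec C t) = ((g.u ^ r : Ωˣ) : Ω) • M.vec C t

/-- **The Mumford-Tate conjecture for the motive `M`**, the sum of the motives of the `X j`.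

* `group`: the identity component of the `ℓ`-adic monodromy group of the full cohomology is the
  Mumford-Tate group;
* `tate`: in each tensor construction of weight `2 r` the Tate classes are the `Ω`-linear
  combinations of the Hodge classes;
* `semisimple`: the Galois representations are semisimple. -/
structure MumfordTate : Prop where
  group : ∀ g, M.InMonodromy g ↔ M.InMumfordTate g
  tate : ∀ C, M.Below C → ∀ r : ℤ, C.wt = 2 * r → ∀ v, M.IsTate C r v ↔ v ∈ M.hodge C
  semisimple : M.Semisimple ⊤

end HKMotive

end Pool.Agent.J4H44.MF
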