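import Pool.Agent.J4H44.MF.B10

/-!
# Polynomial functions and matrix coefficients of the tensor constructions
-/

set_option autoImplicit false

namespace Pool.Agent.J4H44.MF

open Module Module.End Pool.Agent.N184.HK Pool.Agent.J4H44.PM
open scoped Classical

namespace HKMotive

variable {Ω : Type} [Field Ω] [TopologicalSpace Ω] (M : HKMotive Ω)

/-! ### Matrix coefficients are polynomial functions -/

/-- The operators depend polynomially on the point. -/
def Rp {V : Type} [AddCommGroup V] [Module Ω V] (a : M.Pt → Module.End Ω V) : Prop :=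
  ∀ L : Module.Dual Ω (Module.End Ω V), (fun g => L (a g)) ∈ M.polyFun

variable {M}

lemma pcoord {f : M.Pt → Ω} (h : M.IsCoord f) : f ∈ M.polyFun := Algebra.subset_adjoin h

lemma pconst (a : Ω) : (fun _ : M.Pt => a) ∈ M.polyFun := M.polyFun.algebraMap_mem a

lemma pmul {f g : M.Pt → Ω} (hf : f ∈ M.polyFun) (hg : g ∈ M.polyFun) :
    (fun x => f x * g x) ∈ M.polyFun := M.polyFun.mul_mem hf hg

lemma psub {f g : M.Pt → Ω} (hf : f ∈ M.polyFun) (hg : g ∈ M.polyFun) :
    (fun x => f x - g x) ∈ M.polyFun := M.polyFun.sub_mem hf hg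

lemma psum {ι : Type} (s : Finset ι) {f : ι → M.Pt → Ω} (hf : ∀ i ∈ s, f i ∈ M.polyFun) :
    (fun x => ∑ i ∈ s, f i x) ∈ M.polyFun := by
  have h1 : (fun x => ∑ i ∈ s, f i x) = ∑ i ∈ s, f i := by
    ext x
    rw [Finset.sum_apply]
  rw [h1]
  exact M.polyFun.sum_mem hf

lemma pzpow (r : ℤ) : (fun g : M.Pt => ((g.u ^ r : Ωˣ) : Ω)) ∈ M.polyFun := by
  obtain ⟨m, rfl | rfl⟩ := r.eq_nat_or_neg
  · have h1 := M.polyFun.pow_mem (pcoord (M := M) (f := fun g => (g.u : Ω))
      (Or.inl fun _ => rfl)) m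
    convert h1 using 1
    ext g
    simp
  · have h1 := M.polyFun.pow_mem (pcoord (M := M) (f := fun g => ((g.u⁻¹ : Ωˣ) : Ω))
      (Or.inr (Or.inl fun _ => rfl))) m
    convert h1 using 1
    ext g
    rw [Pi.pow_apply, zpow_neg, zpow_natCast, ← inv_pow, Units.val_pow_eq_pow_val]

lemma rp_bilin {V W : Type} [AddCommGroup V] [Module Ω V] [FiniteDimensional Ω V]
    [AddCommGroup W] [Module Ω W] {a : M.Pt → Module.End Ω V} {b : M.Pt → Module.End Ω W}
    (ha : M.Rp a) (hb : M.Rp b) (B : Module.End Ω V →ₗ[Ω] Module.End Ω W →ₗ[Ω] Ω) :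
    (fun g => B (a g) (b g)) ∈ M.polyFun := by
  have h1 : (fun g => B (a g) (b g)) = fun g => ∑ k,
      (Module.finBasis Ω (Module.End Ω V)).coord k (a g) *
        B (Module.finBasis Ω (Module.End Ω V) k) (b g) := by
    ext σ
    conv_lhs => rw [← (Module.finBasis Ω (Module.End Ω V)).sum_repr (a σ)]
    rw [map_sum, LinearMap.sum_apply]
    refine Finset.sum_congr rfl fun k _ => ?_
    rw [map_smul, LinearMap.smul_apply, smul_eq_mul]
    rfl
  rw [h1]
  refine psum _ fun k _ => ?_
  exact pmul (ha _) (hb _)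

/-- The bilinear map `(a, b) ↦ L (f ↦ b f a)`. -/
def swB {V W : Type} [AddCommGroup V] [Module Ω V] [AddCommGroup W] [Module Ω W]
    (L : Module.Dual Ω (Module.End Ω (V →ₗ[Ω] W))) :
    Module.End Ω V →ₗ[Ω] Module.End Ω W →ₗ[Ω] Ω :=
  LinearMap.mk₂ Ω (fun a b => L (sw a b))
    (fun a a' b => by
      rw [← map_add]
      congr 1
      refine LinearMap.ext fun f => ?_
      change b ∘ₗ f ∘ₗ (a + a') = b ∘ₗ f ∘ₗ a + b ∘ₗ f ∘ₗ a'
      rw [LinearMap.comp_add, LinearMap.comp_add])
    (fun c a b => by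
      rw [← map_smul]
      congr 1
      refine LinearMap.ext fun f => ?_
      change b ∘ₗ f ∘ₗ (c • a) = c • (b ∘ₗ f ∘ₗ a)
      rw [LinearMap.comp_smul, LinearMap.comp_smul])
    (fun a b b' => by
      rw [← map_add]
      congr 1)
    (fun c a b => by
      rw [← map_smul]
      congr 1)

lemma rp_gact : (C : M.Con) → M.Below C →
    M.Rp (fun g => en (M.pact C g)) ∧
      M.Rp (fun g => en (M.pact C g).symm)
  | Con.unit, _ => ⟨fun L => pconst (L (en (LinearEquiv.refl Ω Ω))),
      fun L => pconst (L (en (LinearEquiv.refl Ω Ω)))⟩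
  | Con.H j i, hi => ⟨fun L => pcoord (Or.inr (Or.inr ⟨j, i, hi, L, Or.inl fun _ => rfl⟩)),
      fun L => pcoord (Or.inr (Or.inr ⟨j, i, hi, L, Or.inr fun _ => rfl⟩))⟩
  | Con.hom S T, hC => by
    obtain ⟨hS, hS'⟩ := rp_gact S hC.1
    obtain ⟨hT, hT'⟩ := rp_gact T hC.2
    refine ⟨fun L => ?_, fun L => ?_⟩
    · exact rp_bilin hS' hT (swB L)
    · exact rp_bilin hS hT' (swB L)

/-! ### Sums of constructions -/

end HKMotive

/-- Direct sums of Tate twists of tensor constructions. -/
inductive Sm (J : Type) : Type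
  | of (C : Con J) (s : ℤ) : Sm J
  | add (S T : Sm J) : Sm J

namespace Sm

/-- Only the `H j i` with `i ≤ d j` are used. -/
def Below {J : Type} (d : J → ℕ) : Sm J → Prop
  | of C _ => C.Below d
  | add S T => S.Below d ∧ T.Below d

variable {Ω : Type} [Field Ω] [TopologicalSpace Ω] {M : HKMotive Ω}

/-- The vector space. -/
def vs (M : HKMotive Ω) : Sm M.E.J → Vec Ω
  | of C _ => M.vs C
  | add S T => ⟨(S.vs M).V × (T.vs M).V⟩

/-- The action. -/
noncomputable def gact (g : M.Pt) : (S : Sm M.E.J) → Module.End Ω (S.vs M).V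
  | of C s => ((g.u ^ s : Ωˣ) : Ω) • en (M.pact C g)
  | add S T => (S.gact g).prodMap (T.gact g)

end Sm

namespace HKMotive

variable {Ω : Type} [Field Ω] [TopologicalSpace Ω] (M : HKMotive Ω)

/-- `f` is a matrix coefficient of a direct sum of constructions. -/
def IsMC (f : M.Pt → Ω) : Prop :=
  ∃ S : Sm M.E.J, S.Below M.E.d ∧ ∃ (x : (S.vs M).V) (l : Module.Dual Ω (S.vs M).V),
    ∀ g, f g = l (S.gact g x)

variable {M}

lemma mc_add {f f' : M.Pt → Ω} (h : M.IsMC f) (h' : M.IsMC f') : M.IsMC fun g => f g + f' g := by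
  obtain ⟨S, hS, x, l, hl⟩ := h
  obtain ⟨S', hS', x', l', hl'⟩ := h'
  refine ⟨S.add S', ⟨hS, hS'⟩, (x, x'), l.coprod l', fun g => ?_⟩
  change f g + f' g = l (S.gact g x) + l' (S'.gact g x')
  rw [hl, hl']

lemma mc_smul {f : M.Pt → Ω} (h : M.IsMC f) (c : Ω) : M.IsMC fun g => c * f g := by
  obtain ⟨S, hS, x, l, hl⟩ := h
  refine ⟨S, hS, x, c • l, fun g => ?_⟩
  change c * f g = c * l (S.gact g x)
  rw [hl]

lemma mc_of (C : M.Con) (hC : M.Below C) (s : ℤ) (x : (M.vs C).V)
    (l : Module.Dual Ω (M.vs C).V) :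
    M.IsMC fun g => ((g.u ^ s : Ωˣ) : Ω) * l (M.pact C g x) := by
  refine ⟨Sm.of C s, hC, x, l, fun g => ?_⟩
  change _ = l (((g.u ^ s : Ωˣ) : Ω) • M.pact C g x)
  rw [map_smul, smul_eq_mul]

lemma mc_zero : M.IsMC fun _ => 0 := by
  refine ⟨Sm.of Con.unit 0, trivial, (0 : Ω), 0, fun g => ?_⟩
  rfl

lemma mc_sum {ι : Type} (s : Finset ι) {f : ι → M.Pt → Ω} (hf : ∀ i ∈ s, M.IsMC (f i)) :
    M.IsMC fun g => ∑ i ∈ s, f i g := by
  induction s using Finset.induction_on with
  | empty => simpa using mc_zero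
  | insert a s ha ih =>
    simp only [Finset.sum_insert ha]
    exact mc_add (hf a (Finset.mem_insert_self a s))
      (ih fun i hi => hf i (Finset.mem_insert_of_mem hi))

/-- The basic matrix coefficients. -/
def IsBC (f : M.Pt → Ω) : Prop :=
  ∃ C : M.Con, M.Below C ∧ ∃ (s : ℤ) (x : (M.vs C).V) (l : Module.Dual Ω (M.vs C).V),
    ∀ g, f g = ((g.u ^ s : Ωˣ) : Ω) * l (M.pact C g x)

lemma bc_mul {f f' : M.Pt → Ω} (h : IsBC f) (h' : IsBC f') : IsBC fun g => f g * f' g := by
  obtain ⟨C, hC, s, x, l, hl⟩ := h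
  obtain ⟨C', hC', s', x', l', hl'⟩ := h'
  let x'' : ((M.vs C).V →ₗ[Ω] Ω) →ₗ[Ω] (M.vs C').V :=
    (LinearMap.applyₗ x).smulRight x'
  let l'' : (((M.vs C).V →ₗ[Ω] Ω) →ₗ[Ω] (M.vs C').V) →ₗ[Ω] Ω :=
    l' ∘ₗ LinearMap.applyₗ l
  refine ⟨Con.hom (Con.hom C Con.unit) C', ⟨⟨hC, trivial⟩, hC'⟩, s + s', x'', l'', fun g => ?_⟩
  have h1 : l'' (M.pact (Con.hom (Con.hom C Con.unit) C') g x'') =
      l (M.pact C g x) * l' (M.pact C' g x') := by
    change l' (M.pact C' g (l (M.pact C g x) • x')) = _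
    rw [map_smul, map_smul, smul_eq_mul]
  have h2 : f g * f' g = ((g.u ^ (s + s') : Ωˣ) : Ω) *
      (l (M.pact C g x) * l' (M.pact C' g x')) := by
    rw [hl, hl', zpow_add, Units.val_mul]
    ring
  exact h2.trans (congrArg (fun z => ((g.u ^ (s + s') : Ωˣ) : Ω) * z) h1.symm)

/-- Sums of products of basic matrix coefficients. -/
lemma span_mul_bc {f f' : M.Pt → Ω} (hf : f ∈ Submodule.span Ω {f : M.Pt → Ω | IsBC f})
    (hf' : f' ∈ Submodule.span Ω {f : M.Pt → Ω | IsBC f}) :
    f * f' ∈ Submodule.span Ω {f : M.Pt → Ω | IsBC f} := by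
  induction hf using Submodule.span_induction with
  | zero => rw [zero_mul]; exact Submodule.zero_mem _
  | add x y _ _ hx hy => rw [add_mul]; exact Submodule.add_mem _ hx hy
  | smul r x _ hx => rw [smul_mul_assoc]; exact Submodule.smul_mem _ r hx
  | mem x hx =>
    induction hf' using Submodule.span_induction with
    | zero => rw [mul_zero]; exact Submodule.zero_mem _
    | add x y _ _ hx hy => rw [mul_add]; exact Submodule.add_mem _ hx hy
    | smul r x _ hx => rw [mul_smul_comm]; exact Submodule.smul_mem _ r hx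
    | mem y hy => exact Submodule.subset_span (bc_mul hx hy)

omit [TopologicalSpace Ω] in
lemma end_expand {V : Type} [AddCommGroup V] [Module Ω V] [FiniteDimensional Ω V]
    (L : Module.Dual Ω (Module.End Ω V)) (a : Module.End Ω V) :
    L a = ∑ k, ∑ j, L (((Module.finBasis Ω V).coord k).smulRight (Module.finBasis Ω V j)) *
      (Module.finBasis Ω V).coord j (a (Module.finBasis Ω V k)) := by
  have h1 : a = ∑ k, ∑ j, (Module.finBasis Ω V).coord j (a (Module.finBasis Ω V k)) •
      (((Module.finBasis Ω V).coord k).smulRight (Module.finBasis Ω V j)) := by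
    refine (Module.finBasis Ω V).ext fun m => ?_
    have h2 : (∑ k, ∑ j, (Module.finBasis Ω V).coord j (a (Module.finBasis Ω V k)) •
        (((Module.finBasis Ω V).coord k).smulRight (Module.finBasis Ω V j)))
          (Module.finBasis Ω V m) = ∑ k, ∑ j, (Module.finBasis Ω V).coord j
          (a (Module.finBasis Ω V k)) • (if m = k then (1 : Ω) else 0) •
          (Module.finBasis Ω V j) := by
      simp only [LinearMap.sum_apply, LinearMap.smul_apply, LinearMap.smulRight_apply,
        Basis.coord_apply, Basis.repr_self, Finsupp.single_apply]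
    rw [h2, Finset.sum_eq_single m]
    · simp only [if_true, one_smul]
      exact ((Module.finBasis Ω V).sum_repr (a (Module.finBasis Ω V m))).symm
    · intro k _ hk
      refine Finset.sum_eq_zero fun j _ => ?_
      rw [if_neg (Ne.symm hk), zero_smul, smul_zero]
    · intro h
      exact absurd (Finset.mem_univ m) h
  conv_lhs => rw [h1]
  simp only [map_sum, map_smul, smul_eq_mul]
  exact Finset.sum_congr rfl fun k _ => Finset.sum_congr rfl fun j _ => mul_comm _ _

lemma bc_coord {f : M.Pt → Ω} (h : M.IsCoord f) :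
    f ∈ Submodule.span Ω {f : M.Pt → Ω | IsBC f} := by
  rcases h with h | h | ⟨s, i, hi, L, h | h⟩
  · refine Submodule.subset_span ⟨Con.unit, trivial, 1, (1 : Ω), LinearMap.id, fun g => ?_⟩
    rw [h, zpow_one]
    exact (mul_one _).symm
  · refine Submodule.subset_span ⟨Con.unit, trivial, -1, (1 : Ω), LinearMap.id, fun g => ?_⟩
    rw [h, zpow_neg_one]
    exact (mul_one _).symm
  · have h1 : f = ∑ k, ∑ j, L (((Module.finBasis Ω ((M.E.X s).H i)).coord k).smulRight
        (Module.finBasis Ω ((M.E.X s).H i) j)) • fun g : M.Pt =>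
        (Module.finBasis Ω ((M.E.X s).H i)).coord j (en (g.φ s i) (Module.finBasis Ω ((M.E.X s).H i) k)) := by
      ext g
      rw [h, end_expand]
      simp only [Finset.sum_apply, Pi.smul_apply, smul_eq_mul]
    rw [h1]
    refine Submodule.sum_mem _ fun k _ => Submodule.sum_mem _ fun j _ =>
      Submodule.smul_mem _ _ (Submodule.subset_span ?_)
    refine ⟨Con.H s i, hi, 0, Module.finBasis Ω ((M.E.X s).H i) k,
      (Module.finBasis Ω ((M.E.X s).H i)).coord j, fun g => ?_⟩
    rw [zpow_zero, Units.val_one, one_mul]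
    rfl
  · have h1 : f = ∑ k, ∑ j, L (((Module.finBasis Ω ((M.E.X s).H i)).coord k).smulRight
        (Module.finBasis Ω ((M.E.X s).H i) j)) • fun g : M.Pt =>
        (Module.finBasis Ω ((M.E.X s).H i)).coord j
          (en (g.φ s i).symm (Module.finBasis Ω ((M.E.X s).H i) k)) := by
      ext g
      rw [h, end_expand]
      simp only [Finset.sum_apply, Pi.smul_apply, smul_eq_mul]
    rw [h1]
    refine Submodule.sum_mem _ fun k _ => Submodule.sum_mem _ fun j _ =>
      Submodule.smul_mem _ _ (Submodule.subset_span ?_)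
    refine ⟨Con.hom (Con.H s i) Con.unit, ⟨hi, trivial⟩, 0,
      (Module.finBasis Ω ((M.E.X s).H i)).coord j,
      (LinearMap.applyₗ (Module.finBasis Ω ((M.E.X s).H i) k) :
        (((M.E.X s).H i) →ₗ[Ω] Ω) →ₗ[Ω] Ω), fun g => ?_⟩
    rw [zpow_zero, Units.val_one, one_mul]
    rfl

/-- Polynomial functions are matrix coefficients. -/
lemma poly_mc {f : M.Pt → Ω} (hf : f ∈ M.polyFun) : M.IsMC f := by
  have h1 : f ∈ Submodule.span Ω {f : M.Pt → Ω | IsBC f} := by
    induction hf using Algebra.adjoin_induction with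
    | mem x hx => exact bc_coord hx
    | algebraMap r =>
      refine Submodule.subset_span ⟨Con.unit, trivial, 0, r, LinearMap.id, fun g => ?_⟩
      rw [zpow_zero, Units.val_one, one_mul]
      rfl
    | add x y _ _ hx hy => exact Submodule.add_mem _ hx hy
    | mul x y _ _ hx hy => exact span_mul_bc hx hy
  clear hf
  induction h1 using Submodule.span_induction with
  | zero => exact mc_zero
  | add x y _ _ hx hy => exact mc_add hx hy
  | smul r x _ hx => exact mc_smul hx r
  | mem x hx =>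
    obtain ⟨C, hC, s, y, l, hl⟩ := hx
    obtain ⟨S, hS, x', l', h⟩ := mc_of C hC s y l
    exact ⟨S, hS, x', l', fun g => (hl g).trans (h g)⟩

end HKMotive

end Pool.Agent.J4H44.MF
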