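import Pool.Agent.J4H44.MF.G1

/-!
# The Mumford-Tate group is the identity component of the `ℓ`-adic monodromy group
-/

set_option autoImplicit false

namespace Pool.Agent.J4H44.MF

open Module Module.End Pool.Agent.N184.HK Pool.Agent.J4H44.PM
open scoped Classical

section cr

variable {K : Type} [Field K]

/-- Complete reducibility for a family of operators. -/
def CR {I V : Type} [AddCommGroup V] [Module K V] (T : I → Module.End K V) : Prop :=
  ∀ W : Submodule K V, (∀ i, ∀ x ∈ W, T i x ∈ W) →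
    ∃ W' : Submodule K V, IsCompl W W' ∧ ∀ i, ∀ x ∈ W', T i x ∈ W'

/-- A direct sum of two completely reducible representations is completely reducible. -/
lemma cr_prod {I V V' : Type} [AddCommGroup V] [Module K V] [AddCommGroup V'] [Module K V']
    {T : I → Module.End K V} {T' : I → Module.End K V'} (h : CR T) (h' : CR T') :
    CR fun i => (T i).prodMap (T' i) := by
  intro W hW
  obtain ⟨A', hA, hA'⟩ := h (W.comap (LinearMap.inl K V V')) (by
    intro i x hx
    have h1 := hW i _ hx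
    change (T i x, (0 : V')) ∈ W
    have h2 : ((T i).prodMap (T' i)) (LinearMap.inl K V V' x) = (T i x, (0 : V')) := by
      change (T i x, T' i 0) = _
      rw [map_zero]
    rw [← h2]
    exact h1)
  obtain ⟨B', hB, hB'⟩ := h' (W.map (LinearMap.snd K V V')) (by
    rintro i _ ⟨x, hx, rfl⟩
    exact ⟨_, hW i x hx, rfl⟩)
  refine ⟨A'.prod B', ⟨?_, ?_⟩, ?_⟩
  · rw [Submodule.disjoint_def]
    rintro ⟨a, b⟩ hx ⟨ha, hb⟩
    have h1 : b ∈ W.map (LinearMap.snd K V V') ⊓ B' := ⟨⟨_, hx, rfl⟩, hb⟩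
    rw [hB.inf_eq_bot, Submodule.mem_bot] at h1
    subst h1
    have h2 : a ∈ W.comap (LinearMap.inl K V V') ⊓ A' := ⟨hx, ha⟩
    rw [hA.inf_eq_bot, Submodule.mem_bot] at h2
    subst h2
    rfl
  · rw [codisjoint_iff, eq_top_iff]
    rintro ⟨a, b⟩ -
    have h1 : b ∈ W.map (LinearMap.snd K V V') ⊔ B' := by rw [hB.sup_eq_top]; trivial
    obtain ⟨_, ⟨w, hw, rfl⟩, b', hb', hbb⟩ := Submodule.mem_sup.1 h1
    have h2 : a - w.1 ∈ W.comap (LinearMap.inl K V V') ⊔ A' := by rw [hA.sup_eq_top]; trivial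
    obtain ⟨a1, ha1, a', ha', haa⟩ := Submodule.mem_sup.1 h2
    refine Submodule.mem_sup.2 ⟨w + (a1, 0), W.add_mem hw ha1, (a', b'), ⟨ha', hb'⟩, ?_⟩
    ext
    · change w.1 + a1 + a' = a
      rw [add_assoc, haa]
      abel
    · change w.2 + 0 + b' = b
      rw [add_zero]
      exact hbb
  · rintro i ⟨a, b⟩ ⟨ha, hb⟩
    exact ⟨hA' i a ha, hB' i b hb⟩

end cr

namespace HKMotive

variable {Ω : Type} [Field Ω] [TopologicalSpace Ω] {M : HKMotive Ω}

lemma gact_one : (S : Sm M.E.J) → (x : (S.vs M).V) → S.gact (M.pt 1) x = x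
  | Sm.of C s, x => by
    have h1 := congrArg (fun f : Module.End Ω (M.vs C).V => f x) (M.rep C (-s)).map_one
    change M.tw 1 (- -s) • M.act C 1 x = x at h1
    rw [neg_neg] at h1
    exact h1
  | Sm.add S T, (x, y) => by
    change (S.gact (M.pt 1) x, T.gact (M.pt 1) y) = (x, y)
    rw [gact_one S x, gact_one T y]

lemma gact_mul (σ τ : M.Γ) : (S : Sm M.E.J) → (x : (S.vs M).V) →
    S.gact (M.pt (σ * τ)) x = S.gact (M.pt σ) (S.gact (M.pt τ) x)
  | Sm.of C s, x => by
    have h1 := congrArg (fun f : Module.End Ω (M.vs C).V => f x) ((M.rep C (-s)).map_mul σ τ)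
    change M.tw (σ * τ) (- -s) • M.act C (σ * τ) x =
      M.tw σ (- -s) • M.act C σ (M.tw τ (- -s) • M.act C τ x) at h1
    rw [neg_neg] at h1
    exact h1
  | Sm.add S T, (x, y) => by
    change (S.gact (M.pt (σ * τ)) x, T.gact (M.pt (σ * τ)) y) =
      (S.gact (M.pt σ) (S.gact (M.pt τ) x), T.gact (M.pt σ) (T.gact (M.pt τ) y))
    rw [gact_mul σ τ S x, gact_mul σ τ T y]

variable [CharZero Ω] [IsAlgClosed Ω]

/-- Tate classes have the right weight. -/
lemma tate_weight {C : M.Con} (hC : M.Below C) {r : ℤ} {v : (M.vs C).V} (hv0 : v ≠ 0)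
    (hv : M.IsTate C r v) : C.wt = 2 * r := by
  obtain ⟨U, hUv⟩ := hv
  obtain ⟨σ, hσ, p, ⟨g⟩⟩ := M.E.dense (U : Set M.Γ) U.isOpen ⟨1, U.one_mem⟩
  have h1 : M.act C σ v = M.tw σ r • v := hUv σ trivial hσ
  obtain ⟨j⟩ : Nonempty (QQ →+* Ω) := ⟨(IsAlgClosed.lift : QQ →ₐ[ℚ] Ω).toRingHom⟩
  have h2 : M.tw σ r ∈ (en (M.act C σ)).charpoly.roots := by
    refine ne_bot_iff.1 fun h => hv0 ?_
    have h3 : v ∈ (en (M.act C σ)).maxGenEigenspace (M.tw σ r) := by
      rw [Module.End.mem_maxGenEigenspace]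
      refine ⟨1, ?_⟩
      rw [pow_one, LinearMap.sub_apply]
      change M.act C σ v - M.tw σ r • v = 0
      rw [h1, sub_self]
    rw [h, Submodule.mem_bot] at h3
    exact h3
  obtain ⟨y, hy, hjy⟩ := Wl_act g j C hC _ h2
  have hp0 : (p : QQ) ≠ 0 := by exact_mod_cast g.prime.ne_zero
  have h3 : y ^ 2 = (p : QQ) ^ (2 * r) := by
    refine j.injective ?_
    obtain ⟨s⟩ := M.E.ne
    have h7 : ((M.E.chi σ : Ωˣ) : Ω) ^ 2 = (p : Ω) ^ 2 := by rw [← M.E.chi_sq σ s, g.mult]
    rw [map_pow, hjy, map_zpow₀, map_natCast, tw, Units.val_zpow_eq_zpow_val, ← zpow_natCast,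
      ← zpow_mul, mul_comm r, zpow_mul, zpow_natCast, h7, zpow_mul]
    norm_cast
  obtain ⟨τ⟩ : Nonempty (QQ →+* ℂ) := ⟨(IsAlgClosed.lift : QQ →ₐ[ℚ] ℂ).toRingHom⟩
  have h4 := congrArg (fun z => ‖τ z‖) h3
  simp only [map_pow, map_zpow₀, map_natCast, norm_pow, norm_zpow, Complex.norm_natCast] at h4
  rw [hy.norm τ] at h4
  have hp1 : (1 : ℝ) < p := by exact_mod_cast g.prime.one_lt
  exact zpow_right_injective₀ (by linarith) (by linarith) h4

variable (L : M.MumfordTateTwo) [IsTopologicalRing Ω] [T2Space Ω]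

omit [CharZero Ω] [IsAlgClosed Ω] [IsTopologicalRing Ω] [T2Space Ω] in
lemma mt_hodge {g : M.Pt} (hg : M.InMumfordTate g) {C : M.Con} (hC : M.Below C) {r : ℤ}
    (hw : C.wt = 2 * r) {v : (M.vs C).V} (hv : v ∈ M.hodge C) :
    M.pact C g v = ((g.u ^ r : Ωˣ) : Ω) • v := by
  induction hv using Submodule.span_induction with
  | mem x hx =>
    obtain ⟨t, ht, rfl⟩ := hx
    exact hg C hC r hw t ht
  | zero => rw [map_zero, smul_zero]
  | add x y _ _ hx hy => rw [map_add, hx, hy, smul_add]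
  | smul a x _ hx => rw [map_smul, hx, smul_comm]

include L in
lemma equi_of (N : M.Arithmetic) (hr : M.Reductive) (U : OpenSubgroup M.Γ)
    {g : M.Pt} (hg : M.InMumfordTate g) {C C' : M.Con}
    (hC : M.Below C) (hC' : M.Below C') (s s' : ℤ)
    (f : (M.vs C).V →ₗ[Ω] (M.vs C').V)
    (hf : ∀ σ ∈ U, ∀ x, f (M.tw σ s • M.act C σ x) = M.tw σ s' • M.act C' σ (f x))
    (x : (M.vs C).V) :
    f (((g.u ^ s : Ωˣ) : Ω) • M.pact C g x) = ((g.u ^ s' : Ωˣ) : Ω) • M.pact C' g (f x) := by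
  -- `f` is a Tate class
  have hCC : M.Below (Con.hom C C') := ⟨hC, hC'⟩
  have h1 : ∀ a : Ωˣ, ((a ^ (s - s') : Ωˣ) : Ω) * ((a ^ s' : Ωˣ) : Ω) = ((a ^ s : Ωˣ) : Ω) := by
    intro a
    rw [← Units.val_mul, ← zpow_add, sub_add_cancel]
  have htate : M.IsTate (Con.hom C C') (s - s') f := by
    refine ⟨U, fun σ _ hσ => ?_⟩
    have h3 : ∀ y : (M.vs C).V, M.act C' σ (f ((M.act C σ).symm y)) =
        M.tw σ (s - s') • f y := by
      intro y
      have h4 := hf σ hσ ((M.act C σ).symm y)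
      rw [LinearEquiv.apply_symm_apply, map_smul, tw, ← h1 (M.E.chi σ), mul_comm,
        mul_smul] at h4
      exact (smul_right_injective _ (Units.ne_zero (M.E.chi σ ^ s')) h4).symm
    exact LinearMap.ext h3
  have key : ∀ y : (M.vs C).V, M.pact C' g (f ((M.pact C g).symm y)) =
      ((g.u ^ (s - s') : Ωˣ) : Ω) • f y := by
    by_cases hf0 : f = 0
    · intro y
      rw [hf0]
      change M.pact C' g 0 = ((g.u ^ (s - s') : Ωˣ) : Ω) • (0 : (M.vs C').V)
      rw [map_zero, smul_zero]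
    · have hw := tate_weight hCC (v := f) hf0 htate
      have h2 := mt_hodge hg hCC hw ((tate_iff L hr N hCC hw f).1 htate)
      intro y
      exact congrArg (fun f : (M.vs C).V →ₗ[Ω] (M.vs C').V => f y) h2
  have h2 := key (M.pact C g x)
  rw [LinearEquiv.symm_apply_apply] at h2
  rw [h2, map_smul, smul_smul, mul_comm, h1 g.u]

omit [TopologicalSpace Ω] [CharZero Ω] [IsAlgClosed Ω] [IsTopologicalRing Ω] [T2Space Ω] in
lemma prod_equi {V V' W : Type} [AddCommGroup V] [Module Ω V] [AddCommGroup V'] [Module Ω V']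
    [AddCommGroup W] [Module Ω W] {A : Module.End Ω V} {A' : Module.End Ω V'}
    {B : Module.End Ω W} {f : V × V' →ₗ[Ω] W} (h : ∀ x, f (A x, 0) = B (f (x, 0)))
    (h' : ∀ y, f (0, A' y) = B (f (0, y))) (x : V × V') :
    f (A.prodMap A' x) = B (f x) := by
  have h1 : ∀ (a : V) (b : V'), f (a, b) = f (a, 0) + f (0, b) := by
    intro a b
    rw [← map_add, Prod.mk_add_mk, add_zero, zero_add]
  obtain ⟨a, b⟩ := x
  rw [LinearMap.prodMap_apply]
  simp only
  rw [h1, h1 a b, map_add, h, h']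

include L in
/-- The homomorphisms between sums of constructions which commute with an open subgroup commute
with the Mumford-Tate group. -/
lemma equi (N : M.Arithmetic) (hr : M.Reductive) (U : OpenSubgroup M.Γ)
    {g : M.Pt} (hg : M.InMumfordTate g) :
    (S : Sm M.E.J) → S.Below M.E.d → (T : Sm M.E.J) → T.Below M.E.d →
    (f : (S.vs M).V →ₗ[Ω] (T.vs M).V) →
    (∀ σ ∈ U, ∀ x, f (S.gact (M.pt σ) x) = T.gact (M.pt σ) (f x)) →
    ∀ x, f (S.gact g x) = T.gact g (f x)
  | Sm.of _ s, hC, Sm.of _ s', hC', f, hf => fun x =>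
    equi_of L N hr U hg hC hC' s s' f hf x
  | Sm.of C s, hC, Sm.add T T', hT, f, hf => by
    intro x
    have h1 := equi N hr U hg (Sm.of C s) hC T hT.1
      ((LinearMap.fst Ω (T.vs M).V (T'.vs M).V) ∘ₗ f) (fun σ hσ x =>
        congrArg Prod.fst (hf σ hσ x)) x
    have h2 := equi N hr U hg (Sm.of C s) hC T' hT.2
      ((LinearMap.snd Ω (T.vs M).V (T'.vs M).V) ∘ₗ f) (fun σ hσ x =>
        congrArg Prod.snd (hf σ hσ x)) x
    exact Prod.ext h1 h2
  | Sm.add S S', hS, T, hT, f, hf => by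
    refine prod_equi (A := S.gact g) (A' := S'.gact g) (B := T.gact g) (f := f) ?_ ?_
    · intro x
      exact equi N hr U hg S hS.1 T hT
        (f ∘ₗ (LinearMap.inl Ω (S.vs M).V (S'.vs M).V)) (fun σ hσ x => by
          have h2 := hf σ hσ (x, 0)
          change f (S.gact (M.pt σ) x, S'.gact (M.pt σ) 0) = _ at h2
          rw [map_zero] at h2
          exact h2) x
    · intro y
      exact equi N hr U hg S' hS.2 T hT
        (f ∘ₗ (LinearMap.inr Ω (S.vs M).V (S'.vs M).V)) (fun σ hσ x => by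
          have h2 := hf σ hσ (0, x)
          change f (S.gact (M.pt σ) 0, S'.gact (M.pt σ) x) = _ at h2
          rw [map_zero] at h2
          exact h2) y

include L in
lemma cr_of (N : M.Arithmetic) (hr : M.Reductive) (U : OpenSubgroup M.Γ)
    {C : M.Con} (hC : M.Below C) (s : ℤ) :
    CR (K := Ω) (V := (M.vs C).V)
      (fun σ : U => M.tw (σ : M.Γ) s • en (M.act C (σ : M.Γ))) := by
  intro W hW
  have hiff : ∀ (V : Submodule Ω (M.vs C).V) (σ : M.Γ) (x : (M.vs C).V),
      M.tw σ s • M.act C σ x ∈ V ↔ M.act C σ x ∈ V := by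
    intro V σ x
    exact Submodule.smul_mem_iff _ (M.tw_ne σ s)
  obtain ⟨W', h1, h2⟩ := semisimple_open L N hr U C hC W fun σ hσ x hx =>
    (hiff W σ x).1 (hW ⟨σ, hσ⟩ x hx)
  exact ⟨W', h1, fun σ x hx => (hiff W' σ x).2 (h2 σ σ.2 x hx)⟩

include L in
lemma cr_sm (N : M.Arithmetic) (hr : M.Reductive) (U : OpenSubgroup M.Γ) :
    (S : Sm M.E.J) → S.Below M.E.d →
    CR (K := Ω) (fun σ : U => S.gact (M.pt (σ : M.Γ)))
  | Sm.of _ s, hC => cr_of L N hr U hC s
  | Sm.add S T, h => cr_prod (cr_sm N hr U S h.1) (cr_sm N hr U T h.2)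

include L in
/-- The Mumford-Tate group is contained in the Zariski closures of the open subgroups. -/
theorem mt_le (N : M.Arithmetic) (hr : M.Reductive) {g : M.Pt} (hg : M.InMumfordTate g) :
    M.InMonodromy g := by
  intro U f hf hfU
  obtain ⟨S, hS, x, l, hl⟩ := poly_mc hf
  -- the span of the orbit
  set W : Submodule Ω (S.vs M).V := Submodule.span Ω {y | ∃ σ ∈ U, y = S.gact (M.pt σ) x} with hW
  have hWst : ∀ σ : U, ∀ y ∈ W, S.gact (M.pt (σ : M.Γ)) y ∈ W := by
    intro σ y hy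
    induction hy using Submodule.span_induction with
    | mem y hy =>
      obtain ⟨τ, hτ, rfl⟩ := hy
      refine Submodule.subset_span ⟨σ * τ, U.mul_mem σ.2 hτ, ?_⟩
      rw [gact_mul]
    | zero => rw [map_zero]; exact Submodule.zero_mem _
    | add a b _ _ ha hb => rw [map_add]; exact Submodule.add_mem _ ha hb
    | smul r a _ ha => rw [map_smul]; exact Submodule.smul_mem _ r ha
  obtain ⟨W', hWW', hW'⟩ := cr_sm L N hr U S hS W hWst
  set π : Module.End Ω (S.vs M).V := W.subtype ∘ₗ W.projectionOnto W' hWW' with hπ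
  have hπ1 : ∀ x ∈ W, π x = x := by
    intro x hx
    rw [hπ, LinearMap.comp_apply]
    have h1 := Submodule.projectionOnto_apply_left hWW' ⟨x, hx⟩
    rw [h1]
    rfl
  have hπ2 : ∀ x, π x ∈ W := fun x => Submodule.coe_mem _
  have hπ3 : ∀ x ∈ W', π x = 0 := by
    intro x hx
    rw [hπ, LinearMap.comp_apply]
    have h1 := (Submodule.projectionOnto_apply_eq_zero_iff hWW').2 hx
    rw [h1, map_zero]
  have h1 := equi L N hr U hg S hS S hS π (fun σ hσ y => by
    have h2 : y ∈ W ⊔ W' := by rw [hWW'.sup_eq_top]; exact Submodule.mem_top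
    obtain ⟨a, ha, b, hb, rfl⟩ := Submodule.mem_sup.1 h2
    rw [map_add, map_add, map_add, hπ1 a ha, hπ3 b hb, add_zero,
      hπ1 _ (hWst ⟨σ, hσ⟩ a ha), hπ3 _ (hW' ⟨σ, hσ⟩ b hb), add_zero]) x
  have hxW : x ∈ W := Submodule.subset_span ⟨1, U.one_mem, (gact_one S x).symm⟩
  rw [hπ1 x hxW] at h1
  have h2 : S.gact g x ∈ W := by
    rw [← h1]
    exact hπ2 _
  have h3 : W ≤ LinearMap.ker l := by
    refine Submodule.span_le.2 ?_
    rintro _ ⟨σ, hσ, rfl⟩
    change l _ = 0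
    rw [← hl]
    exact hfU σ hσ
  rw [hl]
  exact h3 h2

include L in
/-- The points of the Zariski closures of the open subgroups fix the Hodge classes. -/
theorem le_mt (N : M.Arithmetic) (hr : M.Reductive) {g : M.Pt} (hg : M.InMonodromy g) :
    M.InMumfordTate g := by
  intro C hC r hw t ht
  have h1 : M.IsTate C r (M.vec C t) :=
    (tate_iff L hr N hC hw _).2 (Submodule.subset_span ⟨t, ht, rfl⟩)
  obtain ⟨U, h2⟩ := h1
  rw [← sub_eq_zero, ← Module.forall_dual_apply_eq_zero_iff Ω]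
  intro l
  have h3 := (rp_gact (M := M) C hC).1 (l ∘ₗ LinearMap.applyₗ (M.vec C t))
  have h4 : (fun g : M.Pt => l (M.pact C g (M.vec C t)) -
      ((g.u ^ r : Ωˣ) : Ω) * l (M.vec C t)) ∈ M.polyFun :=
    psub h3 (pmul (pzpow r) (pconst _))
  have h5 := hg U _ h4 fun σ hσ => by
    have h6 : M.act C σ (M.vec C t) = M.tw σ r • M.vec C t := h2 σ trivial hσ
    change l (M.act C σ (M.vec C t)) - M.tw σ r * l (M.vec C t) = 0
    rw [h6, map_smul, smul_eq_mul, sub_self]
  rw [map_sub, map_smul, smul_eq_mul]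
  exact h5

include L in
/-- **The Mumford-Tate conjecture for projective hyperkähler varieties.** -/
theorem mumfordTate (N : M.Arithmetic) (hr : M.Reductive) : M.MumfordTate where
  group _ := ⟨fun h => le_mt L N hr h, fun h => mt_le L N hr h⟩
  tate _ hC _ hw v := tate_iff L hr N hC hw v
  semisimple := semisimple_open L N hr ⊤

end HKMotive

end Pool.Agent.J4H44.MF
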